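import Pool.Agent.Lib.MP_314673_lc.Star

/-!
# Adjoint measures and the word average
-/

open MeasureTheory Set
open scoped ENNReal

namespace C314

variable {X Y : Type*} [MeasurableSpace X] [StandardBorelSpace X] [MeasurableSpace Y]
  [StandardBorelSpace Y] {q : ℕ}

namespace PM

variable {S : Sys X Y q} (M : PM S)

/-- the set on which the `j`-th neighbour of `(v,i)` steps to `v` with letter `a` -/
def A (a : Fin q) (i : Fin (q+1)) (j : ℕ) : Set X :=
  {v | M.m v = some i ∧ j ≠ S.rk (v, i) ∧ (S.sec j (S.y i v)).2 = M.o a (S.pts i j v)}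

omit [StandardBorelSpace X] [StandardBorelSpace Y] in
theorem measA (a : Fin q) (i : Fin (q+1)) (j : ℕ) : MeasurableSet (M.A a i j) := by
  have h1 : Measurable fun v => S.rk (v, i) := S.rk_meas.comp (measurable_id.prodMk measurable_const)
  have h2 : MeasurableSet {v | j ≠ S.rk (v, i)} := by
    have : {v | j ≠ S.rk (v, i)} = ((fun v => S.rk (v, i)) ⁻¹' {j})ᶜ := by
      ext v; simp [eq_comm]
    rw [this]
    exact (h1 (measurableSet_singleton j)).compl
  exact (M.meas i).inter (h2.inter (measurableSet_eq_fun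
    (measurable_snd.comp ((S.sec_meas j).comp (S.hy i))) ((M.meas_o a).comp (S.meas_pts i j))))

/-- adjoint of one step -/
noncomputable def adj (a : Fin q) (η : Measure X) : Measure X :=
  ∑ i : Fin (q+1), ∑ j ∈ Finset.range q, (η.restrict (M.A a i j)).map (S.pts i j)

omit [StandardBorelSpace X] [StandardBorelSpace Y] in
theorem adj_apply (a : Fin q) (η : Measure X) (Z : Set X) (hZ : MeasurableSet Z) :
    M.adj a η Z = ∑ i : Fin (q+1), ∑ j ∈ Finset.range q, η (S.pts i j ⁻¹' Z ∩ M.A a i j) := by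
  unfold adj
  rw [Measure.finsetSum_apply]
  refine Finset.sum_congr rfl fun i _ => ?_
  rw [Measure.finsetSum_apply]
  refine Finset.sum_congr rfl fun j _ => ?_
  rw [Measure.map_apply (S.meas_pts i j) hZ, Measure.restrict_apply ((S.meas_pts i j) hZ)]

omit [StandardBorelSpace X] [StandardBorelSpace Y] in
theorem Im_le (a : Fin q) (η : Measure X) (Z : Set X) (hZ : MeasurableSet Z) :
    η (M.Im a Z) ≤ M.adj a η Z := by
  rw [M.adj_apply a η Z hZ]
  have hsub : M.Im a Z ⊆ ⋃ i ∈ (Finset.univ : Finset (Fin (q+1))), ⋃ j ∈ Finset.range q,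
      (S.pts i j ⁻¹' Z ∩ M.A a i j) := by
    rintro v ⟨x, hx, i, h1, h2⟩
    have h3 := S.sec_rk (x, M.o a x)
    simp only at h3
    have h4 : S.y i v = S.y (M.o a x) x := h2
    have h5 : S.sec (S.rk (x, M.o a x)) (S.y i v) = (x, M.o a x) := by rw [h4, h3]
    simp only [mem_iUnion]
    refine ⟨i, Finset.mem_univ _, S.rk (x, M.o a x), Finset.mem_range.2 (S.rk_lt _), ?_, h1, ?_, ?_⟩
    · simp only [mem_preimage, Sys.pts, h5]; exact hx
    · intro h6
      have h7 := S.sec_rk (v, i)
      simp only at h7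
      rw [← h6, h5] at h7
      have h8 : x = v := congrArg Prod.fst h7
      have h9 : M.o a x = i := congrArg Prod.snd h7
      rw [h8] at h9
      exact M.o_ne h1 h9
    · simp only [Sys.pts, h5]
  refine (measure_mono hsub).trans ((measure_biUnion_finset_le _ _).trans ?_)
  exact Finset.sum_le_sum fun i _ => measure_biUnion_finset_le _ _

/-- adjoint of a walk -/
noncomputable def mW : List (Fin q) → Measure X → Measure X
  | [], η => η
  | a :: s, η => mW s (M.adj a η)

omit [StandardBorelSpace X] in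
theorem ImW_le (s : List (Fin q)) (C : Set X) (hC : MeasurableSet C) : ∀ (η : Measure X),
    η (M.ImW s C) ≤ M.mW s η C := by
  induction s with
  | nil => intro η; rw [M.ImW_nil]; exact le_rfl
  | cons a s ih =>
    intro η
    rw [M.ImW_cons]
    exact (M.Im_le a η _ (M.meas_ImW s C hC)).trans (ih (M.adj a η))

omit [StandardBorelSpace X] [StandardBorelSpace Y] in
theorem adj_mass (η : Measure X) [IsFiniteMeasure η] :
    ∑ a, M.adj a η univ ≤ ((q - 1 : ℕ) : ℝ≥0∞) * η univ := by
  classical
  -- bound for fixed i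
  set B : Fin (q+1) → Set X := fun i => {v | M.m v = some i} with hB
  have hR : ∀ i j, MeasurableSet {v : X | S.rk (v, i) = j} := by
    intro i j
    have h1 : Measurable fun v => S.rk (v, i) :=
      S.rk_meas.comp (measurable_id.prodMk measurable_const)
    exact h1 (measurableSet_singleton j)
  have step1 : ∀ i j, ∑ a, η (M.A a i j) ≤ η (B i \ {v | S.rk (v, i) = j}) := by
    intro i j
    rw [← measure_biUnion_finset (s := (Finset.univ : Finset (Fin q))) (f := fun a => M.A a i j)]
    · apply measure_mono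
      intro v hv
      simp only [mem_iUnion] at hv
      obtain ⟨a, _, h1, h2, _⟩ := hv
      exact ⟨h1, fun h => h2 h.symm⟩
    · intro a _ b _ hab
      rw [Function.onFun, Set.disjoint_left]
      rintro v ⟨_, _, h1⟩ ⟨_, _, h2⟩
      exact hab (M.o_inj (h1.symm.trans h2))
    · intro a _; exact M.measA a i j
  have step2 : ∀ i, ∑ j ∈ Finset.range q, η (B i \ {v | S.rk (v, i) = j}) + η (B i) =
      q * η (B i) := by
    intro i
    have h1 : ∑ j ∈ Finset.range q, η (B i ∩ {v | S.rk (v, i) = j}) = η (B i) := by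
      rw [← measure_biUnion_finset]
      · congr 1
        ext v
        simp only [mem_iUnion, mem_inter_iff, mem_ofPred_eq, Finset.mem_range, exists_prop]
        constructor
        · rintro ⟨j, _, h, _⟩; exact h
        · intro h; exact ⟨S.rk (v, i), S.rk_lt _, h, rfl⟩
      · intro j _ j' _ hjj
        rw [Function.onFun, Set.disjoint_left]
        rintro v ⟨_, h1⟩ ⟨_, h2⟩
        exact hjj (h1.symm.trans h2)
      · intro j _
        exact (M.meas i).inter (hR i j)
    calc ∑ j ∈ Finset.range q, η (B i \ {v | S.rk (v, i) = j}) + η (B i)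
        = ∑ j ∈ Finset.range q, η (B i \ {v | S.rk (v, i) = j}) +
          ∑ j ∈ Finset.range q, η (B i ∩ {v | S.rk (v, i) = j}) := by rw [h1]
      _ = ∑ j ∈ Finset.range q, (η (B i \ {v | S.rk (v, i) = j}) +
          η (B i ∩ {v | S.rk (v, i) = j})) := by rw [Finset.sum_add_distrib]
      _ = ∑ j ∈ Finset.range q, η (B i) := by
          refine Finset.sum_congr rfl fun j _ => ?_
          exact measure_sdiff_add_inter (B i) (hR i j)
      _ = q * η (B i) := by simp
  rcases Nat.eq_zero_or_pos q with hq | hq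
  · subst hq; simp
  have step3 : ∀ i, ∑ j ∈ Finset.range q, η (B i \ {v | S.rk (v, i) = j}) =
      ((q - 1 : ℕ) : ℝ≥0∞) * η (B i) := by
    intro i
    have h1 := step2 i
    have h2 : (q : ℝ≥0∞) * η (B i) = ((q - 1 : ℕ) : ℝ≥0∞) * η (B i) + η (B i) := by
      conv_lhs => rw [show q = (q - 1) + 1 by omega]
      push_cast
      ring
    rw [h2] at h1
    exact (ENNReal.add_left_inj (measure_ne_top η _)).1 h1
  calc ∑ a, M.adj a η univ
      = ∑ a, ∑ i : Fin (q+1), ∑ j ∈ Finset.range q, η (M.A a i j) := by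
        refine Finset.sum_congr rfl fun a _ => ?_
        rw [M.adj_apply a η univ MeasurableSet.univ]
        simp
    _ = ∑ i : Fin (q+1), ∑ j ∈ Finset.range q, ∑ a, η (M.A a i j) := by
        rw [Finset.sum_comm]
        refine Finset.sum_congr rfl fun i _ => ?_
        rw [Finset.sum_comm]
    _ ≤ ∑ i : Fin (q+1), ∑ j ∈ Finset.range q, η (B i \ {v | S.rk (v, i) = j}) := by
        gcongr with i _ j _
        exact step1 i j
    _ = ∑ i : Fin (q+1), ((q - 1 : ℕ) : ℝ≥0∞) * η (B i) := by
        refine Finset.sum_congr rfl fun i _ => step3 i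
    _ = ((q - 1 : ℕ) : ℝ≥0∞) * ∑ i : Fin (q+1), η (B i) := by rw [Finset.mul_sum]
    _ ≤ ((q - 1 : ℕ) : ℝ≥0∞) * η univ := by
        gcongr
        rw [← measure_biUnion_finset]
        · exact measure_mono (subset_univ _)
        · intro i _ j _ hij
          rw [Function.onFun, Set.disjoint_left]
          intro v h1 h2
          simp only [hB, mem_ofPred_eq] at h1 h2
          rw [h1, Option.some_inj] at h2
          exact hij h2
        · intro i _; exact M.meas i

instance adj_finite (a : Fin q) (η : Measure X) [IsFiniteMeasure η] :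
    IsFiniteMeasure (M.adj a η) := by
  unfold adj
  infer_instance

omit [StandardBorelSpace X] [StandardBorelSpace Y] in
theorem adj_mono (a : Fin q) {η η' : Measure X} (h : η ≤ η') (Z : Set X) (hZ : MeasurableSet Z) :
    M.adj a η Z ≤ M.adj a η' Z := by
  rw [M.adj_apply a η Z hZ, M.adj_apply a η' Z hZ]
  gcongr with i _ j _

omit [StandardBorelSpace X] [StandardBorelSpace Y] in
/-- quasi-invariance gives a bound on the adjoint. -/
theorem adj_le (ν : Measure X) (K : ℝ≥0∞)
    (hqi : ∀ i, ∀ j < q, ∀ Z, MeasurableSet Z → ν (S.pts i j ⁻¹' Z) ≤ K * ν Z)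
    (a : Fin q) (c : ℝ≥0∞) (η : Measure X) (h : ∀ Z, MeasurableSet Z → η Z ≤ c * ν Z)
    (Z : Set X) (hZ : MeasurableSet Z) :
    M.adj a η Z ≤ (c * ((q + 1) * q * K)) * ν Z := by
  rw [M.adj_apply a η Z hZ]
  calc ∑ i : Fin (q+1), ∑ j ∈ Finset.range q, η (S.pts i j ⁻¹' Z ∩ M.A a i j)
      ≤ ∑ i : Fin (q+1), ∑ j ∈ Finset.range q, c * (K * ν Z) := by
        gcongr with i _ j hj
        calc η (S.pts i j ⁻¹' Z ∩ M.A a i j) ≤ η (S.pts i j ⁻¹' Z) :=
              measure_mono inter_subset_left
          _ ≤ c * ν (S.pts i j ⁻¹' Z) := h _ (S.meas_pts i j hZ)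
          _ ≤ c * (K * ν Z) := by gcongr; exact hqi i j (Finset.mem_range.1 hj) Z hZ
    _ = (c * ((q + 1) * q * K)) * ν Z := by
        simp only [Finset.sum_const, Finset.card_range, Finset.card_univ, Fintype.card_fin,
          nsmul_eq_mul]
        push_cast
        ring

/-- sum over all words of length `k` -/
noncomputable def wsum : ℕ → (List (Fin q) → ℝ≥0∞) → ℝ≥0∞
  | 0, f => f []
  | k + 1, f => ∑ a, wsum k (fun s => f (a :: s))

theorem wsum_mono (k : ℕ) : ∀ {f g : List (Fin q) → ℝ≥0∞}, (∀ s, s.length = k → f s ≤ g s) →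
    wsum k f ≤ wsum k g := by
  induction k with
  | zero => intro f g h; exact h [] rfl
  | succ k ih =>
    intro f g h
    simp only [wsum]
    exact Finset.sum_le_sum fun a _ => ih fun s hs => h (a :: s) (by simp [hs])

theorem wsum_const (k : ℕ) (c : ℝ≥0∞) : wsum (q := q) k (fun _ => c) = (q : ℝ≥0∞) ^ k * c := by
  induction k with
  | zero => simp [wsum]
  | succ k ih => simp [wsum, ih, pow_succ]; ring

theorem wsum_add (k : ℕ) : ∀ (f g : List (Fin q) → ℝ≥0∞),
    wsum k (fun s => f s + g s) = wsum k f + wsum k g := by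
  induction k with
  | zero => intro f g; simp [wsum]
  | succ k ih => intro f g; simp [wsum, ih, Finset.sum_add_distrib]

theorem wsum_mul (k : ℕ) (c : ℝ≥0∞) : ∀ (f : List (Fin q) → ℝ≥0∞),
    wsum k (fun s => c * f s) = c * wsum k f := by
  induction k with
  | zero => intro f; simp [wsum]
  | succ k ih => intro f; simp [wsum, ih, Finset.mul_sum]

omit [StandardBorelSpace X] [StandardBorelSpace Y] in
theorem wsum_mW_mass (k : ℕ) : ∀ (η : Measure X) [IsFiniteMeasure η],
    wsum k (fun s => M.mW s η univ) ≤ ((q - 1 : ℕ) : ℝ≥0∞) ^ k * η univ := by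
  induction k with
  | zero => intro η _; simp [wsum, mW]
  | succ k ih =>
    intro η _
    simp only [wsum, mW]
    calc ∑ a, wsum k (fun s => M.mW s (M.adj a η) univ)
        ≤ ∑ a, ((q - 1 : ℕ) : ℝ≥0∞) ^ k * M.adj a η univ :=
          Finset.sum_le_sum fun a _ => ih (M.adj a η)
      _ = ((q - 1 : ℕ) : ℝ≥0∞) ^ k * ∑ a, M.adj a η univ := by rw [Finset.mul_sum]
      _ ≤ ((q - 1 : ℕ) : ℝ≥0∞) ^ k * (((q - 1 : ℕ) : ℝ≥0∞) * η univ) := by
          gcongr; exact M.adj_mass η
      _ = _ := by ring

omit [StandardBorelSpace X] [StandardBorelSpace Y] in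
theorem mW_le (ν : Measure X) (K : ℝ≥0∞)
    (hqi : ∀ i, ∀ j < q, ∀ Z, MeasurableSet Z → ν (S.pts i j ⁻¹' Z) ≤ K * ν Z)
    (s : List (Fin q)) : ∀ (c : ℝ≥0∞) (η : Measure X), (∀ Z, MeasurableSet Z → η Z ≤ c * ν Z) →
    ∀ (Z : Set X), MeasurableSet Z → M.mW s η Z ≤ (c * ((q + 1) * q * K) ^ s.length) * ν Z := by
  induction s with
  | nil => intro c η h Z hZ; simpa [mW] using h Z hZ
  | cons a s ih =>
    intro c η h Z hZ
    simp only [mW, List.length_cons]
    refine (ih (c * ((q + 1) * q * K)) (M.adj a η) (fun Z hZ => M.adj_le ν K hqi a c η h Z hZ)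
      Z hZ).trans (le_of_eq ?_)
    ring

/-- total cost of a word -/
noncomputable def cost (η : Measure X) (Z : Set X) : List (Fin q) → ℝ≥0∞
  | [] => M.mW [] η Z
  | a :: s => M.mW (a :: s) η Z + cost η Z s

omit [StandardBorelSpace X] [StandardBorelSpace Y] in
theorem cost_eq (η : Measure X) (Z : Set X) (s : List (Fin q)) :
    (s.tails.map (fun t => M.mW t η Z)).sum = M.cost η Z s := by
  induction s with
  | nil => simp [cost]
  | cons a s ih => simp [cost, ih]

/-- total cost as a measure -/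
noncomputable def costM (η : Measure X) : List (Fin q) → Measure X
  | [] => M.mW [] η
  | a :: s => M.mW (a :: s) η + costM η s

omit [StandardBorelSpace X] [StandardBorelSpace Y] in
theorem costM_apply (η : Measure X) (Z : Set X) (s : List (Fin q)) :
    M.costM η s Z = M.cost η Z s := by
  induction s with
  | nil => simp [cost, costM]
  | cons a s ih => simp [cost, costM, ih]

/-- the main inequality for one word -/
theorem star (ν : Measure X) [IsFiniteMeasure ν] (κ : ℝ≥0∞)
    (hopt : ∀ M' : PM S, ν M.U ≤ ν M'.U + κ * ν {x | M.m x ≠ M'.m x}) (s : List (Fin q)) :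
    ν M.U ≤ M.mW s ν M.U + κ * M.cost ν M.U s := by
  classical
  -- the finite family of conflict functions
  set H : Set (X → X) := (fun p : List (Fin q) × Fin q × Fin q × List (Fin q) =>
    M.conf p.1 p.2.1 p.2.2.1 p.2.2.2) '' ({l | l.length ≤ s.length} ×ˢ (univ ×ˢ (univ ×ˢ
      {l | l.length ≤ s.length}))) with hH
  have hHfin : H.Finite := by
    rw [hH]
    refine Set.Finite.image _ ?_
    exact (List.finite_length_le _ _).prod (finite_univ.prod (finite_univ.prod
      (List.finite_length_le _ _)))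
  have hHm : ∀ h ∈ H, Measurable h := by
    rintro _ ⟨p, _, rfl⟩
    exact M.meas_conf _ _ _ _
  obtain ⟨P, hP1, hP2, hP3⟩ := exists_cover H hHfin hHm
  -- index set of pieces
  set η : Measure X := M.mW s ν + κ • M.costM ν s with hη
  have hηa : ∀ Z, η Z = M.mW s ν Z + κ * M.cost ν Z s := by
    intro Z
    rw [hη]
    simp [M.costM_apply]
  rw [← hηa]
  set Q : (ℚ × ℚ) × (List (Fin q) × Option (Fin q)) → Set X := fun p =>
    if p.2.1.length ≤ s.length then P p.1 ∩ {x | M.Valid s p.2.1 p.2.2 x} else ∅ with hQ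
  refine measure_le_of_cover ν η Q ?_ M.U M.measU ?_ ?_
  · intro p
    rw [hQ]
    simp only
    split_ifs
    · exact (hP1 _).inter (M.meas_Valid _ _ _)
    · exact MeasurableSet.empty
  · intro x _
    obtain ⟨n, hn⟩ := hP2 x
    obtain ⟨u, e, h1, _, h2⟩ := M.exists_Valid s x
    refine ⟨(n, (u, e)), ?_⟩
    rw [hQ]
    simp only [h1, if_true]
    exact ⟨hn, h2⟩
  · rintro ⟨n, u, e⟩ C hC hCQ hCU
    rw [hQ] at hCQ
    simp only at hCQ
    by_cases hu : u.length ≤ s.length
    · simp only [hu, if_true] at hCQ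
      have h1 := M.piece ν κ hopt s u e hu (P n) (by
        intro x hx js j a t hjs ht hc
        exact hP3 n x hx _ ⟨(js, j, a, t), ⟨hjs, mem_univ _, mem_univ _, ht⟩, rfl⟩ hc)
        C hC (hCQ.trans inter_subset_left) hCU (fun x hx => (hCQ hx).2)
      refine h1.trans ?_
      rw [hηa, ← M.cost_eq]
      have h2 : ν (M.ImW s C) ≤ M.mW s ν C := M.ImW_le s C hC ν
      have h3 : (s.tails.map (fun t => ν (M.ImW t C))).sum ≤
          (s.tails.map (fun t => M.mW t ν C)).sum := by
        refine List.sum_le_sum fun t _ => M.ImW_le t C hC ν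
      gcongr
    · simp only [hu, if_false] at hCQ
      have : C = ∅ := subset_empty_iff.1 hCQ
      rw [this]; simp

omit [StandardBorelSpace X] [StandardBorelSpace Y] in
theorem wsum_cost (ν : Measure X) (Z : Set X) (k : ℕ) :
    wsum k (fun s => M.cost ν Z s) =
      ∑ i ∈ Finset.range (k+1), (q : ℝ≥0∞) ^ (k - i) * wsum i (fun s => M.mW s ν Z) := by
  induction k with
  | zero => simp [wsum, cost]
  | succ k ih =>
    have h1 : wsum (k+1) (fun s => M.cost ν Z s) =
        wsum (k+1) (fun s => M.mW s ν Z) + q * wsum k (fun s => M.cost ν Z s) := by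
      simp only [wsum, cost]
      simp only [wsum_add]
      rw [Finset.sum_add_distrib]
      simp
    rw [h1, ih, Finset.sum_range_succ _ (k+1), Finset.mul_sum, add_comm]
    congr 1
    · refine Finset.sum_congr rfl fun i hi => ?_
      have hi' := Finset.mem_range.1 hi
      rw [← mul_assoc, ← pow_succ', show k - i + 1 = k + 1 - i by omega]
    · simp

/-- the main inequality, averaged over words -/
theorem star_avg (ν : Measure X) [IsFiniteMeasure ν] (κ : ℝ≥0∞)
    (hopt : ∀ M' : PM S, ν M.U ≤ ν M'.U + κ * ν {x | M.m x ≠ M'.m x}) (k : ℕ) :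
    (q : ℝ≥0∞) ^ k * ν M.U ≤ wsum k (fun s => M.mW s ν M.U) +
      κ * ∑ i ∈ Finset.range (k+1), (q : ℝ≥0∞) ^ (k - i) * wsum i (fun s => M.mW s ν M.U) := by
  rw [← wsum_const, ← wsum_cost, ← wsum_mul, ← wsum_add]
  exact wsum_mono k fun s _ => M.star ν κ hopt s

end PM

end C314
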