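import Mathlib

/-!
# Borel multigraphs and the measurable edge-chromatic number
-/

open MeasureTheory Set

namespace C314

/-- A Borel multigraph with vertex set `V` and edge set `E` (standard Borel spaces): a Borel map
`ends : E → [V]²` to unordered pairs of distinct vertices. A set of unordered pairs is Borel when
its preimage in `V × V` is Borel. Parallel edges are allowed. -/
structure BorelMultigraph (V E : Type*) [MeasurableSpace V] [MeasurableSpace E] where
  /-- the unordered pair of endpoints of an edge -/
  ends : E → Sym2 V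
  /-- no loops -/
  loopless : ∀ e, ¬ (ends e).IsDiag
  /-- the map `ends` is Borel -/
  borel : ∀ C : Set (Sym2 V), MeasurableSet {p : V × V | s(p.1, p.2) ∈ C} →
    MeasurableSet (ends ⁻¹' C)

namespace BorelMultigraph

variable {V E : Type*} [MeasurableSpace V] [MeasurableSpace E] (G : BorelMultigraph V E)

/-- The set of edges incident to `x`. -/
def edgesAt (x : V) : Set E := {e | x ∈ G.ends e}

/-- The degree of `x` (the number of edges at `x`; it is only used when that number is finite). -/
noncomputable def deg (x : V) : ℕ := (G.edgesAt x).ncard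

/-- `G` has maximum degree `Δ`: every vertex is in at most `Δ` edges, and some vertex is in
exactly `Δ` edges. -/
def HasMaxDegree (Δ : ℕ) : Prop :=
  (∀ x, (G.edgesAt x).encard ≤ Δ) ∧ ∃ x, (G.edgesAt x).encard = Δ

/-- `V` is the disjoint union of `A` and `B`, and every edge has one endpoint in `A` and one in
`B`. -/
def IsBipartition (A B : Set V) : Prop :=
  IsCompl A B ∧ ∀ e, ∃ x ∈ A, ∃ y ∈ B, G.ends e = s(x, y)

/-- The bipartition `(A, B)` is unbalanced: for some integers `a > b`, all degrees in `A` are at
least `a` and all degrees in `B` are at most `b`. -/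
def IsUnbalanced (A B : Set V) : Prop :=
  ∃ a b : ℤ, b < a ∧ (∀ x ∈ A, a ≤ (G.deg x : ℤ)) ∧ (∀ y ∈ B, (G.deg y : ℤ) ≤ b)

/-- A matching: different edges of `M` have no common endpoint. -/
def IsMatching (M : Set E) : Prop :=
  ∀ e ∈ M, ∀ e' ∈ M, e ≠ e' → ∀ x, ¬ (x ∈ G.ends e ∧ x ∈ G.ends e')

/-- There are `k` pairwise disjoint Borel matchings such that, for `μ`-almost every vertex `x`,
every edge at `x` is in one of them. -/
def MeasColourable (μ : Measure V) (k : ℕ) : Prop :=
  ∃ M : Fin k → Set E, (∀ i, MeasurableSet (M i)) ∧ (∀ i, G.IsMatching (M i)) ∧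
    (∀ i j, i ≠ j → Disjoint (M i) (M j)) ∧ ∀ᵐ x ∂μ, ∀ e ∈ G.edgesAt x, ∃ i, e ∈ M i

/-- The measurable edge-chromatic number of `G` with respect to `μ`: the least `k` for which `G`
has such a family of `k` matchings (`⊤` if there is none). -/
noncomputable def measChromaticIndex (μ : Measure V) : ℕ∞ :=
  ⨅ k ∈ {k : ℕ | G.MeasColourable μ k}, (k : ℕ∞)

end BorelMultigraph

end C314
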