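import Mathlib

/-!
# Bounded-to-one Borel maps: Borel enumeration of fibres

For a measurable map `f : E → Y` between standard Borel spaces and a measurable set `D ⊆ E` on
which all fibres have at most `q` elements, there are a measurable rank function `rk : E → ℕ` and
measurable sections `sec : ℕ → Y → E` with `sec (rk e) (f e) = e` for `e ∈ D`.
-/

open MeasureTheory Set

namespace C314

section Enum

variable {E Y : Type*} [MeasurableSpace E] [StandardBorelSpace E] [MeasurableSpace Y]
  [StandardBorelSpace Y]

/-- The fibre of `e` in `D`. -/
def fib (f : E → Y) (D : Set E) (e : E) : Set E := {e' | e' ∈ D ∧ f e' = f e}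

theorem exists_inv {Z : Type*} [MeasurableSpace Z] [StandardBorelSpace Z] [Nonempty Z]
    (g : Z → Y) (hg : Measurable g) (T : Set Z) (hT : MeasurableSet T) (hinj : InjOn g T) :
    ∃ s : Y → Z, Measurable s ∧ ∀ t ∈ T, s (g t) = t := by
  have : StandardBorelSpace T := hT.standardBorel
  have h1 : Measurable (fun t : T => g t) := hg.comp measurable_subtype_coe
  have h2 : Function.Injective (fun t : T => g t) := by
    intro a b hab
    exact Subtype.ext (hinj a.2 b.2 hab)
  have h3 := h1.measurableEmbedding h2
  obtain ⟨s, hs, hs2⟩ := h3.exists_measurable_extend (g := fun t : T => (t : Z))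
    measurable_subtype_coe (fun _ => inferInstance)
  exact ⟨s, hs, fun t ht => congrFun hs2 ⟨t, ht⟩⟩

theorem enum_aux [Nonempty E] (f : E → Y) (hf : Measurable f) (q : ℕ) :
    ∀ (D : Set E), MeasurableSet D → (∀ e ∈ D, (fib f D e).encard ≤ q) →
      ∃ (rk : E → ℕ) (sec : ℕ → Y → E), Measurable rk ∧ (∀ j, Measurable (sec j)) ∧
        ∀ e ∈ D, sec (rk e) (f e) = e ∧ (rk e : ℕ∞) < (fib f D e).encard := by
  classical
  induction q with
  | zero =>
    intro D hD h
    refine ⟨fun _ => 0, fun _ _ => Classical.arbitrary E, measurable_const,
      fun _ => measurable_const, ?_⟩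
    intro e he
    have h1 := h e he
    have h2 : (fib f D e) = ∅ := by
      rw [← Set.encard_eq_zero]
      exact le_antisymm (by simpa using h1) (zero_le)
    exact absurd (show e ∈ fib f D e from ⟨he, rfl⟩) (by rw [h2]; exact fun h => h)
  | succ n ih =>
    intro D hD h
    set ι := embeddingReal E with hι
    have hιm : Measurable ι := measurable_embeddingReal E
    have hιi : Function.Injective ι := (measurableEmbedding_embeddingReal E).injective
    -- increasing tuples
    set T : Set (Fin (n+1) → E) :=
      {t | (∀ i, t i ∈ D) ∧ (∀ i j, i < j → ι (t i) < ι (t j)) ∧ ∀ i, f (t i) = f (t 0)} with hTdef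
    have hT : MeasurableSet T := by
      rw [hTdef]
      have e1 : {t : Fin (n+1) → E | (∀ i, t i ∈ D) ∧ (∀ i j, i < j → ι (t i) < ι (t j)) ∧
          ∀ i, f (t i) = f (t 0)} = (⋂ i, {t | t i ∈ D}) ∩ ((⋂ i, ⋂ j, {t | i < j → ι (t i) < ι (t j)})
            ∩ ⋂ i, {t | f (t i) = f (t 0)}) := by
        ext t; simp
      rw [e1]
      refine MeasurableSet.inter (MeasurableSet.iInter fun i => measurable_pi_apply i hD)
        (MeasurableSet.inter (MeasurableSet.iInter fun i => MeasurableSet.iInter fun j => ?_)
          (MeasurableSet.iInter fun i => ?_))
      · by_cases hij : i < j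
        · simp only [hij, true_imp_iff]
          exact measurableSet_lt (hιm.comp (measurable_pi_apply i))
            (hιm.comp (measurable_pi_apply j))
        · simp [hij]
      · exact measurableSet_eq_fun (hf.comp (measurable_pi_apply i))
          (hf.comp (measurable_pi_apply 0))
    -- range of a tuple in T is the whole fibre
    have hrange : ∀ t ∈ T, range t = fib f D (t 0) := by
      intro t ht
      obtain ⟨h1, h2, h3⟩ := ht
      have hinj : Function.Injective t := by
        intro i j hij
        rcases lt_trichotomy i j with h' | h' | h'
        · exact absurd (h2 i j h') (by rw [hij]; exact lt_irrefl _)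
        · exact h'
        · exact absurd (h2 j i h') (by rw [hij]; exact lt_irrefl _)
      have hsub : range t ⊆ fib f D (t 0) := by
        rintro _ ⟨i, rfl⟩
        exact ⟨h1 i, h3 i⟩
      have hcard : (range t).encard = (n + 1 : ℕ) := by
        rw [← Set.image_univ, hinj.injOn.encard_image, Set.encard_univ]
        simp
      have hfin : (fib f D (t 0)).Finite := Set.finite_of_encard_le_coe (h (t 0) (h1 0))
      exact hfin.eq_of_subset_of_encard_le' hsub ((h (t 0) (h1 0)).trans hcard.ge)
    have hinjOn : InjOn (fun t : Fin (n+1) → E => f (t 0)) T := by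
      intro t ht t' ht' heq
      simp only at heq
      have h1 : range t = range t' := by
        rw [hrange t ht, hrange t' ht']
        ext e
        simp only [fib, mem_ofPred_eq, heq]
      -- two strictly increasing tuples with the same range are equal
      have h2 : StrictMono (fun i => ι (t i)) := fun i j hij => ht.2.1 i j hij
      have h3 : StrictMono (fun i => ι (t' i)) := fun i j hij => ht'.2.1 i j hij
      have h4 : range (fun i => ι (t i)) = range (fun i => ι (t' i)) := by
        have e1 : range (fun i => ι (t i)) = ι '' range t := by rw [← range_comp]; rfl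
        have e2 : range (fun i => ι (t' i)) = ι '' range t' := by rw [← range_comp]; rfl
        rw [e1, e2, h1]
      have h5 := (StrictMono.range_inj h2 h3).1 h4
      funext i
      exact hιi (congrFun h5 i)
    have hmeas0 : Measurable (fun t : Fin (n+1) → E => f (t 0)) := hf.comp (measurable_pi_apply 0)
    set G : Set Y := (fun t : Fin (n+1) → E => f (t 0)) '' T with hG
    have hGm : MeasurableSet G := hT.image_of_measurable_injOn hmeas0 hinjOn
    obtain ⟨s, hs, hs2⟩ := exists_inv (fun t : Fin (n+1) → E => f (t 0)) hmeas0 T hT hinjOn
    -- the remaining part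
    set D' := D ∩ f ⁻¹' Gᶜ with hD'
    have hD'm : MeasurableSet D' := hD.inter (hf hGm.compl)
    have hfib' : ∀ e ∈ D', fib f D' e = fib f D e := by
      intro e he
      ext e'
      simp only [fib, mem_ofPred_eq, hD', mem_inter_iff, mem_preimage]
      constructor
      · rintro ⟨⟨a, b⟩, c⟩; exact ⟨a, c⟩
      · rintro ⟨a, c⟩; exact ⟨⟨a, by rw [c]; exact he.2⟩, c⟩
    have hD'card : ∀ e ∈ D', (fib f D' e).encard ≤ n := by
      intro e he
      by_contra hcon
      have hcon := not_le.1 hcon
      rw [hfib' e he] at hcon
      have h1 := h e he.1
      have hfin : (fib f D e).Finite := Set.finite_of_encard_le_coe h1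
      have h2 : (fib f D e).encard = (n + 1 : ℕ) := by
        apply le_antisymm h1
        have := Order.add_one_le_of_lt hcon
        simpa using this
      -- order the fibre
      have h3 : hfin.toFinset.card = n + 1 := by
        have := hfin.encard_eq_coe_toFinset_card
        rw [h2] at this
        exact_mod_cast this.symm
      set F : Finset ℝ := hfin.toFinset.image ι with hF
      have hFc : F.card = n + 1 := by
        rw [hF, Finset.card_image_of_injective _ hιi, h3]
      set o := F.orderEmbOfFin hFc with ho
      have h4 : ∀ i, ∃ e' ∈ fib f D e, ι e' = o i := by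
        intro i
        have : o i ∈ F := Finset.orderEmbOfFin_mem F hFc i
        rw [hF, Finset.mem_image] at this
        obtain ⟨e', h5, h6⟩ := this
        exact ⟨e', by simpa using h5, h6⟩
      choose t ht1 ht2 using h4
      have htT : t ∈ T := by
        refine ⟨fun i => (ht1 i).1, ?_, ?_⟩
        · intro i j hij
          rw [ht2, ht2]
          exact o.strictMono hij
        · intro i
          rw [(ht1 i).2, (ht1 0).2]
      apply he.2
      rw [hG]
      exact ⟨t, htT, (ht1 0).2⟩
    obtain ⟨rk', sec', hrk', hsec', hmain'⟩ := ih D' hD'm hD'card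
    -- the rank on G-fibres
    have hrkG : ∀ e ∈ D, f e ∈ G → ∃ i : Fin (n+1), s (f e) i = e := by
      intro e he hG'
      obtain ⟨t, ht, hte⟩ := hG'
      simp only at hte
      have h1 : s (f e) = t := by rw [← hte]; exact hs2 t ht
      have h2 : e ∈ range t := by
        rw [hrange t ht]
        exact ⟨he, hte.symm⟩
      obtain ⟨i, hi⟩ := h2
      exact ⟨i, by rw [h1, hi]⟩
    -- definition of rk
    set rk0 : E → ℕ := fun e => if h : ∃ i : ℕ, ∃ hi : i < n + 1, s (f e) ⟨i, hi⟩ = e then
      Nat.find h else 0 with hrk0
    have hrk0m : Measurable rk0 := by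
      have hsing : ∀ i : ℕ, MeasurableSet {e : E | ∃ hi : i < n + 1, s (f e) ⟨i, hi⟩ = e} := by
        intro i
        by_cases hi : i < n + 1
        · have : {e : E | ∃ hi : i < n + 1, s (f e) ⟨i, hi⟩ = e} =
            {e | s (f e) ⟨i, hi⟩ = e} := by
            ext e; simp [hi]
          rw [this]
          exact measurableSet_eq_fun ((measurable_pi_apply _).comp (hs.comp hf)) measurable_id
        · have : {e : E | ∃ hi : i < n + 1, s (f e) ⟨i, hi⟩ = e} = ∅ := by
            ext e; simp [hi]
          rw [this]
          exact MeasurableSet.empty
      refine measurable_to_countable' fun k => ?_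
      have : rk0 ⁻¹' {k} = ({e | ∃ hi : k < n + 1, s (f e) ⟨k, hi⟩ = e} ∩
          ⋂ j : ℕ, ⋂ (_ : j < k), {e | ∃ hi : j < n + 1, s (f e) ⟨j, hi⟩ = e}ᶜ) ∪
          (if k = 0 then ⋂ j : ℕ, {e | ∃ hi : j < n + 1, s (f e) ⟨j, hi⟩ = e}ᶜ else ∅) := by
        ext e
        simp only [mem_preimage, mem_singleton_iff, hrk0]
        by_cases hex : ∃ i : ℕ, ∃ hi : i < n + 1, s (f e) ⟨i, hi⟩ = e
        · rw [dif_pos hex, Nat.find_eq_iff]
          constructor
          · intro hk
            left
            refine ⟨hk.1, ?_⟩
            simp only [mem_iInter]
            intro j hj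
            exact hk.2 j hj
          · rintro (hk | hk)
            · refine ⟨hk.1, ?_⟩
              have := hk.2
              simp only [mem_iInter] at this
              exact this
            · exfalso
              split_ifs at hk with h0
              · simp only [mem_iInter] at hk
                obtain ⟨i, hi⟩ := hex
                exact hk i hi
              · exact hk
        · rw [dif_neg hex]
          constructor
          · intro hk
            right
            rw [if_pos hk.symm]
            simp only [mem_iInter]
            intro j hj
            exact hex ⟨j, hj⟩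
          · rintro (hk | hk)
            · exact absurd ⟨k, hk.1⟩ hex
            · split_ifs at hk with h0
              · exact h0.symm
              · exact absurd hk (fun h => h)
      rw [this]
      refine MeasurableSet.union ((hsing k).inter
        (MeasurableSet.iInter fun j => MeasurableSet.iInter fun _ => (hsing j).compl)) ?_
      split_ifs
      · exact MeasurableSet.iInter fun j => (hsing j).compl
      · exact MeasurableSet.empty
    refine ⟨fun e => if f e ∈ G then rk0 e else rk' e,
      fun j y => if y ∈ G then (if hj : j < n + 1 then s y ⟨j, hj⟩ else Classical.arbitrary E)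
        else sec' j y, ?_, ?_, ?_⟩
    · exact Measurable.ite (hf hGm) hrk0m hrk'
    · intro j
      refine Measurable.ite hGm ?_ (hsec' j)
      by_cases hj : j < n + 1
      · simp only [hj, dif_pos]
        exact (measurable_pi_apply _).comp hs
      · simp only [hj, dif_neg, not_false_eq_true]
        exact measurable_const
    · intro e he
      by_cases hGe : f e ∈ G
      · simp only [hGe, if_true]
        obtain ⟨i, hi⟩ := hrkG e he hGe
        have hex : ∃ i : ℕ, ∃ hi : i < n + 1, s (f e) ⟨i, hi⟩ = e := ⟨i, i.2, hi⟩
        have h1 : rk0 e = Nat.find hex := by rw [hrk0]; simp only; rw [dif_pos hex]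
        obtain ⟨hlt, heq⟩ := Nat.find_spec hex
        have hlt' : rk0 e < n + 1 := by rw [h1]; exact hlt
        have heq' : s (f e) ⟨rk0 e, hlt'⟩ = e := by
          have h7 : (⟨rk0 e, hlt'⟩ : Fin (n+1)) = ⟨Nat.find hex, hlt⟩ := Fin.ext h1
          rw [h7]; exact heq
        refine ⟨?_, ?_⟩
        · rw [dif_pos hlt']; exact heq'
        · -- fibre has exactly n+1 elements
          obtain ⟨t, ht, hte⟩ := hGe
          simp only at hte
          have h5 : (fib f D e).encard = (n + 1 : ℕ) := by
            have h6 : fib f D e = range t := by
              rw [hrange t ht]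
              ext e'
              simp only [fib, mem_ofPred_eq, hte]
            rw [h6]
            have hinj : Function.Injective t := by
              intro i j hij
              rcases lt_trichotomy i j with h' | h' | h'
              · exact absurd (ht.2.1 i j h') (by rw [hij]; exact lt_irrefl _)
              · exact h'
              · exact absurd (ht.2.1 j i h') (by rw [hij]; exact lt_irrefl _)
            rw [← Set.image_univ, hinj.injOn.encard_image, Set.encard_univ]
            simp
          rw [h5]
          exact_mod_cast hlt'
      · simp only [hGe, if_false]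
        have he' : e ∈ D' := ⟨he, hGe⟩
        obtain ⟨h1, h2⟩ := hmain' e he'
        refine ⟨h1, ?_⟩
        rwa [hfib' e he'] at h2

end Enum

end C314
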