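import Pool.Agent.Lib.MP_314673_lc.MT
import Pool.Agent.Lib.MP_314673_lc.Defs

section

/-!
# The matching theorem for a Borel multigraph given by two endpoint maps
-/

open MeasureTheory Set Filter Topology
open scoped ENNReal

namespace C314

variable {E X Y : Type*} [MeasurableSpace E] [StandardBorelSpace E] [MeasurableSpace X]
  [StandardBorelSpace X] [MeasurableSpace Y] [StandardBorelSpace Y]

/-- A Borel enumeration of the fibres of `f` in `D`. -/
structure EnumData (f : E → Y) (D : Set E) where
  rk : E → ℕ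
  sec : ℕ → Y → E
  rk_meas : Measurable rk
  sec_meas : ∀ j, Measurable (sec j)
  sec_rk : ∀ e ∈ D, sec (rk e) (f e) = e
  rk_lt : ∀ e ∈ D, (rk e : ℕ∞) < (fib f D e).encard

theorem exists_enum [Nonempty E] (f : E → Y) (hf : Measurable f) (q : ℕ) (D : Set E)
    (hD : MeasurableSet D) (h : ∀ e ∈ D, (fib f D e).encard ≤ q) : Nonempty (EnumData f D) := by
  obtain ⟨rk, sec, h1, h2, h3⟩ := enum_aux f hf q D hD h
  exact ⟨⟨rk, sec, h1, h2, fun e he => (h3 e he).1, fun e he => (h3 e he).2⟩⟩

namespace EnumData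

variable {f : E → Y} {D : Set E} (N : EnumData f D)

omit [StandardBorelSpace E] [StandardBorelSpace Y] in
theorem rk_inj {e e' : E} (he : e ∈ D) (he' : e' ∈ D) (hf : f e = f e') (hr : N.rk e = N.rk e') :
    e = e' := by
  rw [← N.sec_rk e he, ← N.sec_rk e' he', hf, hr]

omit [StandardBorelSpace E] [StandardBorelSpace Y] in
theorem rk_surj {e : E} (_he : e ∈ D) (hfin : (fib f D e).Finite) (j : ℕ)
    (hj : (j : ℕ∞) < (fib f D e).encard) : ∃ e' ∈ D, f e' = f e ∧ N.rk e' = j := by
  classical
  set G := hfin.toFinset with hG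
  have hcard : (fib f D e).encard = G.card := hfin.encard_eq_coe_toFinset_card
  have hmem : ∀ x, x ∈ G ↔ x ∈ D ∧ f x = f e := by
    intro x; rw [hG, Set.Finite.mem_toFinset]; rfl
  have hinj : Set.InjOn N.rk G := by
    intro x hx x' hx' h
    have h1 := (hmem x).1 hx
    have h2 := (hmem x').1 hx'
    exact N.rk_inj h1.1 h2.1 (h1.2.trans h2.2.symm) h
  have hsub : G.image N.rk ⊆ Finset.range G.card := by
    intro i hi
    rw [Finset.mem_image] at hi
    obtain ⟨x, hx, rfl⟩ := hi
    have h1 := (hmem x).1 hx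
    have h2 := N.rk_lt x h1.1
    have h3 : fib f D x = fib f D e := by
      ext z; simp only [fib, mem_ofPred_eq, h1.2]
    rw [h3, hcard] at h2
    exact Finset.mem_range.2 (by exact_mod_cast h2)
  have heq : G.image N.rk = Finset.range G.card :=
    Finset.eq_of_subset_of_card_le hsub (by
      rw [Finset.card_range, Finset.card_image_of_injOn hinj])
  have hj' : j ∈ G.image N.rk := by
    rw [heq, Finset.mem_range]
    rw [hcard] at hj
    exact_mod_cast hj
  rw [Finset.mem_image] at hj'
  obtain ⟨x, hx, hxj⟩ := hj'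
  have h1 := (hmem x).1 hx
  exact ⟨x, h1.1, h1.2, hxj⟩

end EnumData

/-- **Measurable matching theorem**, edge version. -/
theorem exists_matching_edges (α : E → X) (hα : Measurable α) (β : E → Y) (hβ : Measurable β)
    (F : Set E) (hF : MeasurableSet F) (D q : ℕ) (hq : 1 ≤ q)
    (hA : ∀ e ∈ F, (fib α F e).encard ≤ D) (hA' : ∀ e ∈ F, ((q + 1 : ℕ) : ℕ∞) ≤ (fib α F e).encard)
    (hB : ∀ e ∈ F, (fib β F e).encard ≤ q) (μ : Measure X) [IsFiniteMeasure μ] :
    ∃ M ⊆ F, MeasurableSet M ∧ InjOn α M ∧ InjOn β M ∧ μ (α '' F \ α '' M) = 0 := by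
  classical
  rcases F.eq_empty_or_nonempty with hFe | ⟨e0, he0⟩
  · subst hFe
    exact ⟨∅, subset_rfl, MeasurableSet.empty, injOn_empty _, injOn_empty _, by simp⟩
  have : Nonempty E := ⟨e0⟩
  obtain ⟨N⟩ := exists_enum α hα D F hF hA
  set X₀ : Set X := {x | ∀ i : Fin (q+1), N.sec i x ∈ F ∧ α (N.sec i x) = x ∧
    N.rk (N.sec i x) = i} with hX₀
  have hX₀m : MeasurableSet X₀ := by
    have : X₀ = ⋂ i : Fin (q+1), ({x | N.sec i x ∈ F} ∩ ({x | α (N.sec i x) = x} ∩
        {x | N.rk (N.sec i x) = i})) := by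
      ext x; simp [hX₀]
    rw [this]
    refine MeasurableSet.iInter fun i => ((N.sec_meas i) hF).inter
      ((measurableSet_eq_fun (hα.comp (N.sec_meas i)) measurable_id).inter ?_)
    exact (N.rk_meas.comp (N.sec_meas i)) (measurableSet_singleton _)
  have hαF : α '' F = X₀ := by
    ext x
    constructor
    · rintro ⟨e, he, rfl⟩ i
      have hfin : (fib α F e).Finite := Set.finite_of_encard_le_coe (hA e he)
      have hlt : ((i : ℕ) : ℕ∞) < (fib α F e).encard := by
        refine lt_of_lt_of_le ?_ (hA' e he)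
        exact_mod_cast i.2
      obtain ⟨e', h1, h2, h3⟩ := N.rk_surj he hfin i hlt
      have h4 : N.sec i (α e) = e' := by rw [← h3, ← h2]; exact N.sec_rk e' h1
      rw [h4]
      exact ⟨h1, h2, h3⟩
    · intro hx
      obtain ⟨h1, h2, _⟩ := hx 0
      exact ⟨_, h1, h2⟩
  have hx0 : α e0 ∈ X₀ := by rw [← hαF]; exact ⟨e0, he0, rfl⟩
  have : StandardBorelSpace X₀ := hX₀m.standardBorel
  have : Nonempty (X₀ × Fin (q+1)) := ⟨(⟨α e0, hx0⟩, 0)⟩
  -- the system
  set yy : Fin (q+1) → X₀ → Y := fun i x => β (N.sec i x) with hyy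
  have hyym : ∀ i, Measurable (yy i) := fun i => hβ.comp ((N.sec_meas i).comp measurable_subtype_coe)
  set g : X₀ × Fin (q+1) → Y := fun p => yy p.2 p.1 with hg
  have hgm : Measurable g := measurable_from_prod_countable_left fun i => hyym i
  have hinjE : Function.Injective (fun p : X₀ × Fin (q+1) => N.sec p.2 p.1) := by
    rintro ⟨x, i⟩ ⟨x', i'⟩ h
    simp only at h
    have h1 := x.2 i
    have h2 := x'.2 i'
    have h3 : (x : X) = x' := by rw [← h1.2.1, ← h2.2.1, h]
    have h4 : (i : ℕ) = i' := by rw [← h1.2.2, ← h2.2.2, h]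
    exact Prod.ext (Subtype.ext h3) (Fin.ext h4)
  have hgfib : ∀ p ∈ (univ : Set (X₀ × Fin (q+1))), (fib g univ p).encard ≤ q := by
    intro p _
    have h1 : (fun p : X₀ × Fin (q+1) => N.sec p.2 p.1) '' (fib g univ p) ⊆
        fib β F (N.sec p.2 p.1) := by
      rintro _ ⟨p', ⟨_, h2⟩, rfl⟩
      exact ⟨(p'.1.2 p'.2).1, h2⟩
    calc (fib g univ p).encard
        = ((fun p : X₀ × Fin (q+1) => N.sec p.2 p.1) '' (fib g univ p)).encard :=
          (hinjE.injOn.encard_image).symm
      _ ≤ (fib β F (N.sec p.2 p.1)).encard := encard_le_encard h1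
      _ ≤ q := hB _ (p.1.2 p.2).1
  obtain ⟨N'⟩ := exists_enum g hgm q univ MeasurableSet.univ hgfib
  let S : Sys X₀ Y q :=
    { y := yy
      hy := hyym
      rk := N'.rk
      sec := N'.sec
      rk_meas := N'.rk_meas
      sec_meas := N'.sec_meas
      sec_rk := fun p => N'.sec_rk p (mem_univ p)
      rk_lt := fun p => by
        have h1 := (N'.rk_lt p (mem_univ p)).trans_le (hgfib p (mem_univ p))
        exact_mod_cast h1 }
  have hemb : MeasurableEmbedding (Subtype.val : X₀ → X) := MeasurableEmbedding.subtype_coe hX₀m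
  set μ' : Measure X₀ := μ.comap Subtype.val with hμ'
  have hμ'a : ∀ Z : Set X₀, μ' Z = μ (Subtype.val '' Z) := fun Z => hemb.comap_apply μ Z
  have : IsFiniteMeasure μ' := ⟨by rw [hμ'a]; exact measure_lt_top μ _⟩
  obtain ⟨P, hP⟩ := S.exists_matching hq μ'
  set M : Set E := {e | e ∈ F ∧ ∃ i : Fin (q+1), α e ∈ Subtype.val '' {x : X₀ | P.m x = some i} ∧
    N.rk e = i} with hM
  have hMspec : ∀ e ∈ M, ∃ (x : X₀) (i : Fin (q+1)), α e = x ∧ P.m x = some i ∧ N.rk e = i ∧
      e = N.sec i x := by
    rintro e ⟨he, i, ⟨x, hx, hxe⟩, hi⟩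
    refine ⟨x, i, hxe.symm, hx, hi, ?_⟩
    rw [← hi, hxe]
    exact (N.sec_rk e he).symm
  refine ⟨M, fun e he => he.1, ?_, ?_, ?_, ?_⟩
  · have : M = F ∩ ⋃ i : Fin (q+1), ({e | α e ∈ Subtype.val '' {x : X₀ | P.m x = some i}} ∩
        {e | N.rk e = i}) := by
      ext e
      simp only [hM, mem_ofPred_eq, mem_inter_iff, mem_iUnion]
    rw [this]
    refine hF.inter (MeasurableSet.iUnion fun i => MeasurableSet.inter ?_ ?_)
    · exact hα (hemb.measurableSet_image.2 (P.meas i))
    · exact N.rk_meas (measurableSet_singleton _)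
  · intro e he e' he' h
    obtain ⟨x, i, h1, h2, h3, h4⟩ := hMspec e he
    obtain ⟨x', i', h1', h2', h3', h4'⟩ := hMspec e' he'
    have h5 : x = x' := Subtype.ext (by rw [← h1, ← h1', h])
    subst h5
    rw [h2, Option.some_inj] at h2'
    subst h2'
    rw [h4, h4']
  · intro e he e' he' h
    obtain ⟨x, i, h1, h2, h3, h4⟩ := hMspec e he
    obtain ⟨x', i', h1', h2', h3', h4'⟩ := hMspec e' he'
    have h5 : x = x' := P.inj x x' i i' h2 h2' (by
      show β (N.sec i x) = β (N.sec i' x')
      rw [← h4, ← h4', h])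
    subst h5
    rw [h2, Option.some_inj] at h2'
    subst h2'
    rw [h4, h4']
  · have hsub : α '' F \ α '' M ⊆ Subtype.val '' P.U := by
      rintro x ⟨hx, hxM⟩
      rw [hαF] at hx
      refine ⟨⟨x, hx⟩, ?_, rfl⟩
      by_contra hne
      obtain ⟨i, hi⟩ := Option.ne_none_iff_exists'.1 hne
      apply hxM
      have h1 := hx i
      refine ⟨N.sec i x, ⟨h1.1, i, ⟨⟨x, hx⟩, hi, h1.2.1.symm⟩, h1.2.2⟩, h1.2.1⟩
    refine measure_mono_null hsub ?_
    rw [← hμ'a]
    exact hP

end C314
end

section

/-!
# Nested selection of matchings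

Disjoint Borel sets `N 0, …, N (b-1)` of edges, each meeting almost every `α`-fibre exactly once,
such that every `β`-fibre contains at most `j` edges of `N 0 ∪ … ∪ N (j-1)`.
-/

open MeasureTheory Set Filter Topology
open scoped ENNReal

namespace C314

variable {E X Y : Type*} [MeasurableSpace E] [StandardBorelSpace E] [MeasurableSpace X]
  [StandardBorelSpace X] [MeasurableSpace Y] [StandardBorelSpace Y]

/-- the edges not chosen before stage `j` -/
def Rem (N : ℕ → Set E) (j : ℕ) : Set E := {e | ∀ i < j, e ∉ N i}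

/-- the edges at `β e` chosen before stage `j` -/
def Cho (β : E → Y) (N : ℕ → Set E) (j : ℕ) (e : E) : Set E :=
  {e' | β e' = β e ∧ ∃ i < j, e' ∈ N i}

/-- The state of the construction at stage `j`. -/
structure Stage (α : E → X) (β : E → Y) (b j : ℕ) (μ : Measure X) (N : ℕ → Set E) : Prop where
  meas : ∀ i < j, MeasurableSet (N i)
  inj : ∀ i < j, InjOn α (N i)
  disj : ∀ i < j, ∀ i' < j, i ≠ i' → Disjoint (N i) (N i')
  cho : ∀ i ≤ j, ∀ e, (Cho β N i e).encard ≤ i
  rem : ∀ e, ((b + 1 - j : ℕ) : ℕ∞) ≤ (fib α (Rem N j) e).encard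
  cov : ∀ i < j, μ (range α \ α '' N i) = 0

omit [MeasurableSpace E] [StandardBorelSpace E] [MeasurableSpace Y] [StandardBorelSpace Y] in
theorem fib_mono (f : E → Y) {D D' : Set E} (h : D ⊆ D') (e : E) : fib f D e ⊆ fib f D' e :=
  fun _ hz => ⟨h hz.1, hz.2⟩

theorem encard_le_of_inj_lt {Z : Type*} (A : Set Z) (f : Z → ℕ) (hf : InjOn f A) (c : ℕ)
    (h : ∀ z ∈ A, f z < c) : A.encard ≤ c := by
  have h1 : A.encard = (f '' A).encard := (hf.encard_image).symm
  have h2 : f '' A ⊆ (Finset.range c : Set ℕ) := by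
    rintro _ ⟨z, hz, rfl⟩
    simpa using h z hz
  calc A.encard = (f '' A).encard := h1
    _ ≤ ((Finset.range c : Finset ℕ) : Set ℕ).encard := encard_le_encard h2
    _ = c := by rw [Set.encard_coe_eq_coe_finsetCard, Finset.card_range]

theorem exists_stage (α : E → X) (hα : Measurable α) (β : E → Y) (hβ : Measurable β)
    (Δ b : ℕ) (hA : ∀ e, (fib α univ e).encard ≤ Δ)
    (hA' : ∀ e, ((b + 1 : ℕ) : ℕ∞) ≤ (fib α univ e).encard)
    (hB : ∀ e, (fib β univ e).encard ≤ b) (μ : Measure X) [IsFiniteMeasure μ] (j : ℕ)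
    (hj : j ≤ b) : ∃ N : ℕ → Set E, Stage α β b j μ N := by
  classical
  induction j with
  | zero =>
    refine ⟨fun _ => ∅, ?_, ?_, ?_, ?_, ?_, ?_⟩
    · intro i hi; omega
    · intro i hi; omega
    · intro i hi; omega
    · intro i hi e
      have : Cho β (fun _ => (∅ : Set E)) i e = ∅ := by
        ext z; simp [Cho]
      rw [this]; simp
    · intro e
      have : Rem (fun _ => (∅ : Set E)) 0 = univ := by
        ext z; simp [Rem]
      rw [this]; exact hA' e
    · intro i hi; omega
  | succ j ih =>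
    obtain ⟨N, hN⟩ := ih (by omega)
    rcases isEmpty_or_nonempty E with hE | hE
    · exact ⟨N, fun i _ => by
          rw [Set.eq_empty_of_isEmpty (N i)]; exact MeasurableSet.empty,
        fun i _ => by rw [Set.eq_empty_of_isEmpty (N i)]; exact injOn_empty _,
        fun i _ i' _ _ => by rw [Set.eq_empty_of_isEmpty (N i)]; exact empty_disjoint _,
        fun i _ e => (IsEmpty.false e).elim, fun e => (IsEmpty.false e).elim,
        fun i _ => by rw [Set.range_eq_empty α]; simp⟩
    set R : Set E := Rem N j with hR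
    have hRm : MeasurableSet R := by
      have : R = ⋂ i : ℕ, ⋂ (_ : i < j), (N i)ᶜ := by
        ext e; simp [hR, Rem]
      rw [this]
      exact MeasurableSet.iInter fun i => MeasurableSet.iInter fun hi => (hN.meas i hi).compl
    set q : ℕ := b - j with hq
    have hq1 : 1 ≤ q := by omega
    have hRA : ∀ e, ((q + 1 : ℕ) : ℕ∞) ≤ (fib α R e).encard := by
      intro e
      have := hN.rem e
      rwa [show b + 1 - j = q + 1 by omega] at this
    -- splitting of a β-fibre into chosen and remaining edges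
    have hsplit : ∀ e, (Cho β N j e).encard + (fib β R e).encard ≤ b := by
      intro e
      have hdis : Disjoint (Cho β N j e) (fib β R e) := by
        rw [Set.disjoint_left]
        rintro z ⟨_, i, hi, hz⟩ ⟨hzR, _⟩
        exact hzR i hi hz
      rw [← encard_union_eq hdis]
      refine (encard_le_encard ?_).trans (hB e)
      rintro z (⟨h1, _⟩ | ⟨_, h1⟩)
      · exact ⟨mem_univ _, h1⟩
      · exact ⟨mem_univ _, h1⟩
    obtain ⟨P⟩ := exists_enum β hβ b R hRm (fun e _ =>
      (encard_le_encard (fib_mono β (subset_univ R) e)).trans (hB e))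
    set β' : E → Y × ℕ := fun e => (β e, P.rk e / q) with hβ'
    have hβ'm : Measurable β' := hβ.prodMk
      ((measurable_of_countable (fun n : ℕ => n / q)).comp P.rk_meas)
    have hB' : ∀ e ∈ R, (fib β' R e).encard ≤ q := by
      intro e _
      refine encard_le_of_inj_lt _ (fun z => P.rk z % q) ?_ q ?_
      · rintro z ⟨hzR, hz⟩ z' ⟨hzR', hz'⟩ h
        simp only at h
        have h1 : β z = β z' := (congrArg Prod.fst hz).trans (congrArg Prod.fst hz').symm
        have h2 : P.rk z / q = P.rk z' / q :=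
          (congrArg Prod.snd hz).trans (congrArg Prod.snd hz').symm
        refine P.rk_inj hzR hzR' h1 ?_
        rw [← Nat.div_add_mod (P.rk z) q, ← Nat.div_add_mod (P.rk z') q, h2, h]
      · intro z _
        exact Nat.mod_lt _ hq1
    obtain ⟨M, hMR, hMm, hMα, hMβ, hMcov⟩ := exists_matching_edges α hα β' hβ'm R hRm Δ q hq1
      (fun e _ => (encard_le_encard (fib_mono α (subset_univ R) e)).trans (hA e))
      (fun e _ => hRA e) hB' μ
    -- the number of edges of M at a vertex
    have hMcard : ∀ e, ∀ a : ℕ, (Cho β N j e).encard = a →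
        ({z | z ∈ M ∧ β z = β e}).encard ≤ (j + 1 - a : ℕ) := by
      intro e a ha
      have haj : a ≤ j := by
        have := hN.cho j le_rfl e
        rw [ha] at this
        exact_mod_cast this
      have hab : ∀ r : ℕ, (fib β R e).encard = r → r ≤ q * (j + 1 - a) := by
        intro r hr
        have h1 := hsplit e
        rw [ha, hr] at h1
        have h2 : a + r ≤ b := by exact_mod_cast h1
        obtain ⟨c, hc⟩ : ∃ c, j + 1 - a = c + 1 := ⟨j - a, by omega⟩
        rw [hc]
        obtain ⟨p, hp⟩ : ∃ p, q = p + 1 := ⟨q - 1, by omega⟩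
        rw [hp]
        have h3 : r ≤ p + 1 + c := by omega
        nlinarith [Nat.zero_le (p * c)]
      refine encard_le_of_inj_lt _ (fun z => P.rk z / q) ?_ _ ?_
      · rintro z ⟨hz, hz1⟩ z' ⟨hz', hz1'⟩ h
        simp only at h
        exact hMβ hz hz' (Prod.ext (hz1.trans hz1'.symm) h)
      · rintro z ⟨hz, hz1⟩
        have hfin : (fib β R e).Finite := Set.finite_of_encard_le_coe
          ((encard_le_encard (fib_mono β (subset_univ R) e)).trans (hB e))
        have h1 := P.rk_lt z (hMR hz)
        have h2 : fib β R z = fib β R e := by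
          ext w; simp only [fib, mem_ofPred_eq, hz1]
        rw [h2, hfin.encard_eq_coe_toFinset_card] at h1
        have h3 : P.rk z < hfin.toFinset.card := by exact_mod_cast h1
        have h4 := hab _ hfin.encard_eq_coe_toFinset_card
        rw [Nat.div_lt_iff_lt_mul hq1]
        calc P.rk z < hfin.toFinset.card := h3
          _ ≤ q * (j + 1 - a) := h4
          _ = (j + 1 - a) * q := by ring
    -- the new family
    set N' : ℕ → Set E := fun i => if i < j then N i else M with hN'
    have hN'lt : ∀ i, i < j → N' i = N i := fun i hi => by rw [hN']; simp [hi]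
    have hN'j : N' j = M := by rw [hN']; simp
    have hRem' : Rem N' (j+1) = R \ M := by
      ext e
      simp only [Rem, mem_ofPred_eq, hR, Set.mem_sdiff]
      constructor
      · intro h
        refine ⟨fun i hi => ?_, ?_⟩
        · have := h i (by omega)
          rwa [hN'lt i hi] at this
        · have := h j (by omega)
          rwa [hN'j] at this
      · rintro ⟨h1, h2⟩ i hi
        by_cases hij : i < j
        · rw [hN'lt i hij]; exact h1 i hij
        · have : i = j := by omega
          subst this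
          rw [hN'j]; exact h2
    have hCho' : ∀ i ≤ j, ∀ e, Cho β N' i e = Cho β N i e := by
      intro i hi e
      ext z
      simp only [Cho, mem_ofPred_eq]
      refine and_congr Iff.rfl ?_
      constructor
      · rintro ⟨k, hk, hz⟩
        exact ⟨k, hk, by rwa [hN'lt k (by omega)] at hz⟩
      · rintro ⟨k, hk, hz⟩
        exact ⟨k, hk, by rwa [hN'lt k (by omega)]⟩
    refine ⟨N', ?_, ?_, ?_, ?_, ?_, ?_⟩
    · intro i hi
      by_cases hij : i < j
      · rw [hN'lt i hij]; exact hN.meas i hij
      · rw [show i = j by omega, hN'j]; exact hMm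
    · intro i hi
      by_cases hij : i < j
      · rw [hN'lt i hij]; exact hN.inj i hij
      · rw [show i = j by omega, hN'j]; exact hMα
    · intro i hi i' hi' hne
      by_cases hij : i < j
      · rw [hN'lt i hij]
        by_cases hij' : i' < j
        · rw [hN'lt i' hij']; exact hN.disj i hij i' hij' hne
        · rw [show i' = j by omega, hN'j, Set.disjoint_left]
          intro z hz hzM
          exact hMR hzM i hij hz
      · have hi2 : i = j := by omega
        have hij' : i' < j := by omega
        rw [hi2, hN'j, hN'lt i' hij', Set.disjoint_left]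
        intro z hzM hz
        exact hMR hzM i' hij' hz
    · intro i hi e
      by_cases hij : i ≤ j
      · rw [hCho' i hij]; exact hN.cho i hij e
      · have hi2 : i = j + 1 := by omega
        subst hi2
        have hsub : Cho β N' (j+1) e ⊆ Cho β N j e ∪ {z | z ∈ M ∧ β z = β e} := by
          rintro z ⟨hz, k, hk, hzk⟩
          by_cases hkj : k < j
          · left; exact ⟨hz, k, hkj, by rwa [hN'lt k hkj] at hzk⟩
          · right
            rw [show k = j by omega, hN'j] at hzk
            exact ⟨hzk, hz⟩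
        have hfin : (Cho β N j e).Finite := Set.finite_of_encard_le_coe (hN.cho j le_rfl e)
        have ha := hfin.encard_eq_coe_toFinset_card
        set a := hfin.toFinset.card with haa
        have haj : a ≤ j := by
          have := hN.cho j le_rfl e
          rw [ha] at this
          exact_mod_cast this
        calc (Cho β N' (j+1) e).encard ≤ (Cho β N j e ∪ {z | z ∈ M ∧ β z = β e}).encard :=
              encard_le_encard hsub
          _ ≤ (Cho β N j e).encard + ({z | z ∈ M ∧ β z = β e}).encard := encard_union_le _ _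
          _ ≤ (a : ℕ∞) + (j + 1 - a : ℕ) := by
            rw [ha]
            gcongr
            exact hMcard e a ha
          _ = ((j + 1 : ℕ) : ℕ∞) := by
            rw [← Nat.cast_add]
            congr 1
            omega
    · intro e
      rw [hRem']
      have h1 : fib α R e ⊆ fib α (R \ M) e ∪ {z | z ∈ M ∧ α z = α e} := by
        rintro z ⟨hz, hz1⟩
        by_cases hzM : z ∈ M
        · right; exact ⟨hzM, hz1⟩
        · left; exact ⟨⟨hz, hzM⟩, hz1⟩
      have h2 : ({z | z ∈ M ∧ α z = α e}).encard ≤ 1 := by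
        rw [Set.encard_le_one_iff]
        rintro z z' ⟨hz, hz1⟩ ⟨hz', hz1'⟩
        exact hMα hz hz' (hz1.trans hz1'.symm)
      have h3 : ((q + 1 : ℕ) : ℕ∞) ≤ (fib α (R \ M) e).encard + 1 :=
        calc ((q + 1 : ℕ) : ℕ∞) ≤ (fib α R e).encard := hRA e
          _ ≤ (fib α (R \ M) e ∪ {z | z ∈ M ∧ α z = α e}).encard := encard_le_encard h1
          _ ≤ (fib α (R \ M) e).encard + ({z | z ∈ M ∧ α z = α e}).encard := encard_union_le _ _
          _ ≤ _ := by gcongr
      rw [show b + 1 - (j + 1) = q by omega]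
      push_cast at h3
      exact (ENat.add_le_add_iff_right (by simp)).1 h3
    · intro i hi
      by_cases hij : i < j
      · rw [hN'lt i hij]; exact hN.cov i hij
      · rw [show i = j by omega, hN'j]
        have : range α = α '' R := by
          ext x
          constructor
          · rintro ⟨e, rfl⟩
            have h1 := hRA e
            have h2 : (fib α R e).Nonempty := by
              rw [← Set.encard_ne_zero]
              intro h0
              rw [h0] at h1
              simp at h1
            obtain ⟨z, hz, hz1⟩ := h2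
            exact ⟨z, hz, hz1⟩
          · rintro ⟨e, _, rfl⟩; exact ⟨e, rfl⟩
        rw [this]
        exact hMcov

end C314
end

section

/-!
# Borel stable matchings (Gale–Shapley) and Galvin's argument
-/

open MeasureTheory Set Filter Topology
open scoped ENNReal

namespace C314

variable {E X Y : Type*} [MeasurableSpace E] [StandardBorelSpace E] [MeasurableSpace X]
  [StandardBorelSpace X] [MeasurableSpace Y] [StandardBorelSpace Y]

omit [StandardBorelSpace E] in
theorem EnumData.meas_exists {f : E → Y} (hf : Measurable f) (P : EnumData f univ)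
    (Q : Set (E × E)) (hQ : MeasurableSet Q) :
    MeasurableSet {e | ∃ e', f e' = f e ∧ (e, e') ∈ Q} := by
  have : {e | ∃ e', f e' = f e ∧ (e, e') ∈ Q} =
      ⋃ j : ℕ, ({e | f (P.sec j (f e)) = f e} ∩ {e | (e, P.sec j (f e)) ∈ Q}) := by
    ext e
    simp only [mem_ofPred_eq, mem_iUnion, mem_inter_iff]
    constructor
    · rintro ⟨e', h1, h2⟩
      refine ⟨P.rk e', ?_⟩
      have h3 := P.sec_rk e' (mem_univ _)
      rw [h1] at h3
      rw [h3]
      exact ⟨h1, h2⟩
    · rintro ⟨j, h1, h2⟩
      exact ⟨_, h1, h2⟩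
  rw [this]
  refine MeasurableSet.iUnion fun j => MeasurableSet.inter ?_ ?_
  · exact measurableSet_eq_fun (hf.comp ((P.sec_meas j).comp hf)) hf
  · exact (measurable_id.prodMk ((P.sec_meas j).comp hf)) hQ

section GS

variable (α : E → X) (β : E → Y) (kA kB : E → ℝ)

/-- the edges proposed by the `α`-side -/
def prop (P : Set E) : Set E := {e | e ∈ P ∧ ∀ e' ∈ P, α e' = α e → kA e ≤ kA e'}

/-- the rejected proposals -/
def rej (P : Set E) : Set E :=
  {e | e ∈ prop α kA P ∧ ∃ e' ∈ prop α kA P, β e' = β e ∧ kB e' < kB e}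

/-- the rounds of the Gale–Shapley algorithm -/
def GS (R : Set E) : ℕ → Set E
  | 0 => R
  | n + 1 => GS R n \ rej α β kA kB (GS R n)

/-- the set of never rejected edges -/
def GSinf (R : Set E) : Set E := ⋂ n, GS α β kA kB R n

/-- the stable matching -/
def GSS (R : Set E) : Set E := prop α kA (GSinf α β kA kB R)

variable {α β kA kB}

omit [StandardBorelSpace E] [StandardBorelSpace X] [StandardBorelSpace Y] [MeasurableSpace X]
  [MeasurableSpace Y] [MeasurableSpace E] in
theorem prop_mono {P P' : Set E} (h : P' ⊆ P) {e : E} (he : e ∈ P') (hp : e ∈ prop α kA P) :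
    e ∈ prop α kA P' := ⟨he, fun e' he' h' => hp.2 e' (h he') h'⟩

omit [StandardBorelSpace E] [StandardBorelSpace X] [StandardBorelSpace Y] [MeasurableSpace X]
  [MeasurableSpace Y] [MeasurableSpace E] in
theorem GS_anti (R : Set E) : Antitone (GS α β kA kB R) :=
  antitone_nat_of_succ_le fun _ => sdiff_subset

omit [StandardBorelSpace E] in
theorem meas_prop (hα : Measurable α) (PA : EnumData α univ) (hkA : Measurable kA) {P : Set E}
    (hP : MeasurableSet P) : MeasurableSet (prop α kA P) := by
  have : prop α kA P = P ∩ {e | ∃ e', α e' = α e ∧ (e, e') ∈ {p : E × E | p.2 ∈ P ∧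
      kA p.2 < kA p.1}}ᶜ := by
    ext e
    simp only [prop, mem_ofPred_eq, mem_inter_iff, mem_compl_iff, not_exists, not_and, not_lt]
    refine and_congr Iff.rfl ?_
    constructor
    · intro h e' h1 h2; exact h e' h2 h1
    · intro h e' h1 h2; exact h e' h2 h1
  rw [this]
  refine hP.inter (PA.meas_exists hα _ ?_).compl
  exact (measurable_snd hP).inter (measurableSet_lt (hkA.comp measurable_snd)
    (hkA.comp measurable_fst))

omit [StandardBorelSpace E] in
theorem meas_rej (hα : Measurable α) (hβ : Measurable β) (PA : EnumData α univ)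
    (PB : EnumData β univ) (hkA : Measurable kA) (hkB : Measurable kB) {P : Set E}
    (hP : MeasurableSet P) : MeasurableSet (rej α β kA kB P) := by
  have : rej α β kA kB P = prop α kA P ∩ {e | ∃ e', β e' = β e ∧ (e, e') ∈ {p : E × E |
      p.2 ∈ prop α kA P ∧ kB p.2 < kB p.1}} := by
    ext e
    simp only [rej, mem_ofPred_eq, mem_inter_iff]
    refine and_congr Iff.rfl ?_
    constructor
    · rintro ⟨e', h1, h2, h3⟩; exact ⟨e', h2, h1, h3⟩
    · rintro ⟨e', h1, h2, h3⟩; exact ⟨e', h2, h1, h3⟩
  rw [this]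
  refine (meas_prop hα PA hkA hP).inter (PB.meas_exists hβ _ ?_)
  exact (measurable_snd (meas_prop hα PA hkA hP)).inter (measurableSet_lt
    (hkB.comp measurable_snd) (hkB.comp measurable_fst))

omit [StandardBorelSpace E] in
theorem meas_GS (hα : Measurable α) (hβ : Measurable β) (PA : EnumData α univ)
    (PB : EnumData β univ) (hkA : Measurable kA) (hkB : Measurable kB) {R : Set E}
    (hR : MeasurableSet R) (n : ℕ) : MeasurableSet (GS α β kA kB R n) := by
  induction n with
  | zero => exact hR
  | succ n ih => exact ih.diff (meas_rej hα hβ PA PB hkA hkB ih)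

omit [StandardBorelSpace E] in
theorem meas_GSS (hα : Measurable α) (hβ : Measurable β) (PA : EnumData α univ)
    (PB : EnumData β univ) (hkA : Measurable kA) (hkB : Measurable kB) {R : Set E}
    (hR : MeasurableSet R) : MeasurableSet (GSS α β kA kB R) :=
  meas_prop hα PA hkA (MeasurableSet.iInter fun n => meas_GS hα hβ PA PB hkA hkB hR n)

omit [StandardBorelSpace E] [StandardBorelSpace X] [StandardBorelSpace Y] [MeasurableSpace X]
  [MeasurableSpace Y] [MeasurableSpace E] in
theorem GSS_subset (R : Set E) : GSS α β kA kB R ⊆ R := fun _ he =>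
  mem_iInter.1 he.1 0

omit [StandardBorelSpace E] [StandardBorelSpace X] [StandardBorelSpace Y] [MeasurableSpace X]
  [MeasurableSpace Y] [MeasurableSpace E] in
theorem GSS_injA (hA : ∀ e e', α e = α e' → kA e = kA e' → e = e') (R : Set E) :
    InjOn α (GSS α β kA kB R) := by
  intro e he e' he' h
  exact hA e e' h (le_antisymm (he.2 e' he'.1 h.symm) (he'.2 e he.1 h))

omit [StandardBorelSpace E] [StandardBorelSpace X] [StandardBorelSpace Y] [MeasurableSpace X]
  [MeasurableSpace Y] [MeasurableSpace E] in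
theorem eventually_prop (hfin : ∀ e, (fib α univ e).Finite) (R : Set E) {e : E}
    (he : e ∈ GSS α β kA kB R) : ∀ᶠ n in atTop, e ∈ prop α kA (GS α β kA kB R n) := by
  -- each edge of the fibre which gets rejected is rejected at some time
  have h1 : ∀ e' ∈ fib α univ e, ∀ᶠ n in atTop, e' ∈ GS α β kA kB R n →
      e' ∈ GSinf α β kA kB R := by
    intro e' _
    by_cases h : e' ∈ GSinf α β kA kB R
    · exact Eventually.of_forall fun n _ => h
    · unfold GSinf at h
      rw [mem_iInter] at h
      push Not at h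
      obtain ⟨N, hN⟩ := h
      rw [eventually_atTop]
      exact ⟨N, fun n hn hmem => absurd (GS_anti R hn hmem) hN⟩
  have h2 := (eventually_all_finite (hfin e)).2 h1
  filter_upwards [h2] with n hn
  refine ⟨mem_iInter.1 he.1 n, fun e' he' h' => ?_⟩
  exact he.2 e' (hn e' ⟨mem_univ _, h'⟩ he') h'

omit [StandardBorelSpace E] [StandardBorelSpace X] [StandardBorelSpace Y] [MeasurableSpace X]
  [MeasurableSpace Y] [MeasurableSpace E] in
theorem GSS_injB (hfin : ∀ e, (fib α univ e).Finite)
    (hB : ∀ e e', β e = β e' → kB e = kB e' → e = e') (R : Set E) :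
    InjOn β (GSS α β kA kB R) := by
  have key : ∀ e ∈ GSS α β kA kB R, ∀ e' ∈ GSS α β kA kB R, β e' = β e → ¬ kB e' < kB e := by
    intro e he e' he' h hlt
    obtain ⟨n, h1, h2⟩ := ((eventually_prop hfin R he).and (eventually_prop hfin R he')).exists
    have h3 : e ∈ rej α β kA kB (GS α β kA kB R n) := ⟨h1, e', h2, h, hlt⟩
    have h4 := mem_iInter.1 he.1 (n+1)
    exact h4.2 h3
  intro e he e' he' h
  rcases lt_trichotomy (kB e) (kB e') with h1 | h1 | h1
  · exact absurd h1 (key e' he' e he h)
  · exact hB e e' h h1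
  · exact absurd h1 (key e he e' he' h.symm)

omit [StandardBorelSpace E] [StandardBorelSpace X] [StandardBorelSpace Y] [MeasurableSpace X]
  [MeasurableSpace Y] [MeasurableSpace E] in
theorem GSS_hold (hfinB : ∀ e, (fib β univ e).Finite) (R : Set E) (n : ℕ) (e : E)
    (he : e ∈ prop α kA (GS α β kA kB R n)) :
    ∃ z ∈ GSS α β kA kB R, β z = β e ∧ kB z ≤ kB e := by
  classical
  -- candidates
  set C : Set E := {z | β z = β e ∧ ∃ m ≥ n, z ∈ prop α kA (GS α β kA kB R m)} with hC
  have hCfin : C.Finite := (hfinB e).subset fun z hz => ⟨mem_univ _, hz.1⟩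
  have hCne : C.Nonempty := ⟨e, rfl, n, le_rfl, he⟩
  obtain ⟨z, hz, hmin⟩ := hCfin.exists_minimalFor kB C hCne
  have hmin' : ∀ w ∈ C, kB z ≤ kB w := by
    intro w hw
    by_contra hcon
    push Not at hcon
    exact absurd (hmin hw hcon.le) (not_le.2 hcon)
  obtain ⟨hzβ, m, hm, hzm⟩ := hz
  have hall : ∀ k, z ∈ prop α kA (GS α β kA kB R (m + k)) := by
    intro k
    induction k with
    | zero => exact hzm
    | succ k ih =>
      have hnr : z ∉ rej α β kA kB (GS α β kA kB R (m + k)) := by
        rintro ⟨_, w, hw, hwβ, hlt⟩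
        have := hmin' w ⟨hwβ.trans hzβ, m + k, by omega, hw⟩
        linarith
      have hmem : z ∈ GS α β kA kB R (m + (k + 1)) := ⟨ih.1, hnr⟩
      exact prop_mono (GS_anti R (by omega : m + k ≤ m + (k+1))) hmem ih
  have hinf : z ∈ GSinf α β kA kB R := by
    unfold GSinf
    rw [mem_iInter]
    intro k
    have h1 := (hall k).1
    exact GS_anti R (by omega : k ≤ m + k) h1
  refine ⟨z, ?_, hzβ, hmin' e ⟨rfl, n, le_rfl, he⟩⟩
  exact prop_mono (iInter_subset _ m) hinf (hall 0)

omit [StandardBorelSpace E] [StandardBorelSpace X] [StandardBorelSpace Y] [MeasurableSpace X]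
  [MeasurableSpace Y] [MeasurableSpace E] in
theorem GSS_stable (hfinA : ∀ e, (fib α univ e).Finite) (hfinB : ∀ e, (fib β univ e).Finite)
    (R : Set E) (e : E) (he : e ∈ R) (heS : e ∉ GSS α β kA kB R) :
    ∃ e' ∈ GSS α β kA kB R, (α e' = α e ∧ kA e' < kA e) ∨ (β e' = β e ∧ kB e' < kB e) := by
  classical
  by_cases hinf : e ∈ GSinf α β kA kB R
  · -- the best edge of the fibre
    set C : Set E := {z | α z = α e ∧ z ∈ GSinf α β kA kB R} with hC
    have hCfin : C.Finite := (hfinA e).subset fun z hz => ⟨mem_univ _, hz.1⟩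
    obtain ⟨z, hz, hmin⟩ := hCfin.exists_minimalFor kA C ⟨e, rfl, hinf⟩
    have hmin' : ∀ w ∈ C, kA z ≤ kA w := by
      intro w hw
      by_contra hcon
      push Not at hcon
      exact absurd (hmin hw hcon.le) (not_le.2 hcon)
    refine ⟨z, ⟨hz.2, fun w hw h => hmin' w ⟨h.trans hz.1, hw⟩⟩, Or.inl ⟨hz.1, ?_⟩⟩
    by_contra hcon
    push Not at hcon
    apply heS
    exact ⟨hinf, fun w hw h => hcon.trans (hmin' w ⟨h, hw⟩)⟩
  · unfold GSinf at hinf
    rw [mem_iInter] at hinf
    push Not at hinf
    have hex : ∃ n, e ∉ GS α β kA kB R n := hinf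
    have h0 : Nat.find hex ≠ 0 := by
      intro h0
      have := Nat.find_spec hex
      rw [h0] at this
      exact this he
    obtain ⟨m, hm⟩ := Nat.exists_eq_succ_of_ne_zero h0
    have h1 : e ∉ GS α β kA kB R (m+1) := by
      have := Nat.find_spec hex
      rwa [hm] at this
    have h2 : e ∈ GS α β kA kB R m := by
      by_contra hcon
      have := Nat.find_min' hex hcon
      omega
    have h3 : e ∈ rej α β kA kB (GS α β kA kB R m) := by
      by_contra hcon
      exact h1 ⟨h2, hcon⟩
    obtain ⟨_, w, hw, hwβ, hlt⟩ := h3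
    obtain ⟨z, hz, hzβ, hzk⟩ := GSS_hold hfinB R m w hw
    exact ⟨z, hz, Or.inr ⟨hzβ.trans hwβ, by linarith⟩⟩

variable (α β kA kB) in
/-- remaining edges in Galvin's argument -/
def GR : ℕ → Set E
  | 0 => univ
  | t + 1 => GR t \ GSS α β kA kB (GR t)

omit [StandardBorelSpace E] in
theorem meas_GR (hα : Measurable α) (hβ : Measurable β) (PA : EnumData α univ)
    (PB : EnumData β univ) (hkA : Measurable kA) (hkB : Measurable kB) (t : ℕ) :
    MeasurableSet (GR α β kA kB t) := by
  induction t with
  | zero => exact MeasurableSet.univ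
  | succ t ih => exact ih.diff (meas_GSS hα hβ PA PB hkA hkB ih)

omit [StandardBorelSpace E] [StandardBorelSpace X] [StandardBorelSpace Y] [MeasurableSpace X]
  [MeasurableSpace Y] [MeasurableSpace E] in
theorem GR_anti : Antitone (GR α β kA kB) := antitone_nat_of_succ_le fun _ => sdiff_subset

omit [StandardBorelSpace E] [StandardBorelSpace X] [StandardBorelSpace Y] [MeasurableSpace X]
  [MeasurableSpace Y] [MeasurableSpace E] in
theorem GR_count (hfinA : ∀ e, (fib α univ e).Finite) (hfinB : ∀ e, (fib β univ e).Finite)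
    (e : E) (t : ℕ) (he : e ∈ GR α β kA kB t) :
    {z | z ∈ GR α β kA kB t ∧ α z = α e ∧ kA z < kA e}.encard +
      {z | z ∈ GR α β kA kB t ∧ β z = β e ∧ kB z < kB e}.encard + t ≤
    {z | α z = α e ∧ kA z < kA e}.encard + {z | β z = β e ∧ kB z < kB e}.encard := by
  induction t with
  | zero => 
    simp only [GR, mem_univ, true_and, Nat.cast_zero, add_zero]
    exact le_rfl
  | succ t ih =>
    have he' : e ∈ GR α β kA kB t := he.1
    refine le_trans ?_ (ih he')
    obtain ⟨z, hz, hzd⟩ := GSS_stable hfinA hfinB (GR α β kA kB t) e he.1 he.2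
    have hzR : z ∈ GR α β kA kB t := GSS_subset _ hz
    have hzR' : z ∉ GR α β kA kB (t+1) := fun h => h.2 hz
    have hsA : {z | z ∈ GR α β kA kB (t+1) ∧ α z = α e ∧ kA z < kA e} ⊆
        {z | z ∈ GR α β kA kB t ∧ α z = α e ∧ kA z < kA e} := fun w hw => ⟨hw.1.1, hw.2⟩
    have hsB : {z | z ∈ GR α β kA kB (t+1) ∧ β z = β e ∧ kB z < kB e} ⊆
        {z | z ∈ GR α β kA kB t ∧ β z = β e ∧ kB z < kB e} := fun w hw => ⟨hw.1.1, hw.2⟩
    push_cast
    rcases hzd with hzd | hzd
    · have h1 : {z | z ∈ GR α β kA kB (t+1) ∧ α z = α e ∧ kA z < kA e}.encard + 1 ≤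
          {z | z ∈ GR α β kA kB t ∧ α z = α e ∧ kA z < kA e}.encard := by
        have h2 : {z | z ∈ GR α β kA kB (t+1) ∧ α z = α e ∧ kA z < kA e} ⊆
            {z | z ∈ GR α β kA kB t ∧ α z = α e ∧ kA z < kA e} \ {z} := by
          intro w hw
          refine ⟨hsA hw, ?_⟩
          rintro rfl
          exact hzR' hw.1
        calc _ ≤ ({z | z ∈ GR α β kA kB t ∧ α z = α e ∧ kA z < kA e} \ {z}).encard + 1 := by
              gcongr
          _ = _ := encard_sdiff_singleton_add_one ⟨hzR, hzd⟩
      calc _ = ({z | z ∈ GR α β kA kB (t+1) ∧ α z = α e ∧ kA z < kA e}.encard + 1) +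
            {z | z ∈ GR α β kA kB (t+1) ∧ β z = β e ∧ kB z < kB e}.encard + t := by ring
        _ ≤ _ := by gcongr
    · have h1 : {z | z ∈ GR α β kA kB (t+1) ∧ β z = β e ∧ kB z < kB e}.encard + 1 ≤
          {z | z ∈ GR α β kA kB t ∧ β z = β e ∧ kB z < kB e}.encard := by
        have h2 : {z | z ∈ GR α β kA kB (t+1) ∧ β z = β e ∧ kB z < kB e} ⊆
            {z | z ∈ GR α β kA kB t ∧ β z = β e ∧ kB z < kB e} \ {z} := by
          intro w hw
          refine ⟨hsB hw, ?_⟩
          rintro rfl
          exact hzR' hw.1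
        calc _ ≤ ({z | z ∈ GR α β kA kB t ∧ β z = β e ∧ kB z < kB e} \ {z}).encard + 1 := by
              gcongr
          _ = _ := encard_sdiff_singleton_add_one ⟨hzR, hzd⟩
      calc _ = {z | z ∈ GR α β kA kB (t+1) ∧ α z = α e ∧ kA z < kA e}.encard +
            ({z | z ∈ GR α β kA kB (t+1) ∧ β z = β e ∧ kB z < kB e}.encard + 1) + t := by ring
        _ ≤ _ := by gcongr

omit [StandardBorelSpace E] in
/-- **Borel version of Galvin's argument.** -/
theorem galvin (hα : Measurable α) (hβ : Measurable β) (PA : EnumData α univ)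
    (PB : EnumData β univ) (hfinA : ∀ e, (fib α univ e).Finite)
    (hfinB : ∀ e, (fib β univ e).Finite) (hkA : Measurable kA) (hkB : Measurable kB)
    (hA : ∀ e e', α e = α e' → kA e = kA e' → e = e')
    (hB : ∀ e e', β e = β e' → kB e = kB e' → e = e') (Δ : ℕ) :
    ∃ M : ℕ → Set E, (∀ t, MeasurableSet (M t)) ∧ (∀ t, InjOn α (M t)) ∧ (∀ t, InjOn β (M t)) ∧
      (Pairwise (Function.onFun Disjoint M)) ∧
      ∀ e, {z | α z = α e ∧ kA z < kA e}.encard + {z | β z = β e ∧ kB z < kB e}.encard < Δ →
        ∃ t < Δ, e ∈ M t := by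
  refine ⟨fun t => GSS α β kA kB (GR α β kA kB t), ?_, ?_, ?_, ?_, ?_⟩
  · intro t
    exact meas_GSS hα hβ PA PB hkA hkB (meas_GR hα hβ PA PB hkA hkB t)
  · intro t; exact GSS_injA hA _
  · intro t; exact GSS_injB hfinA hB _
  · have key : ∀ t t', t < t' → Disjoint (GSS α β kA kB (GR α β kA kB t))
        (GSS α β kA kB (GR α β kA kB t')) := by
      intro t t' h
      rw [Set.disjoint_left]
      intro z hz hz'
      have h1 : z ∈ GR α β kA kB t' := GSS_subset _ hz'
      have h2 : z ∈ GR α β kA kB (t+1) := GR_anti (by omega : t + 1 ≤ t') h1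
      exact h2.2 hz
    intro t t' h
    rcases lt_or_gt_of_ne h with h' | h'
    · exact key t t' h'
    · exact (key t' t h').symm
  · intro e he
    by_contra hcon
    push Not at hcon
    have hall : ∀ t, t ≤ Δ → e ∈ GR α β kA kB t := by
      intro t
      induction t with
      | zero => intro _; exact mem_univ _
      | succ t ih =>
        intro ht
        exact ⟨ih (by omega), hcon t (by omega)⟩
    have h1 := GR_count hfinA hfinB e Δ (hall Δ le_rfl)
    have h2 : (Δ : ℕ∞) ≤ {z | α z = α e ∧ kA z < kA e}.encard +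
        {z | β z = β e ∧ kB z < kB e}.encard := le_trans le_add_self h1
    exact absurd he (not_lt.2 h2)

end GS

end C314
end

section

/-!
# Edge colouring of unbalanced bipartite Borel multigraphs given by two endpoint maps
-/

open MeasureTheory Set Filter Topology
open scoped ENNReal

namespace C314

theorem le_of_key {a b : ℕ} {s t : ℝ} (hs : s ∈ Ioo (-2 : ℝ) 2) (ht : t ∈ Ioo (-2 : ℝ) 2)
    (h : 4 * (a : ℝ) + s < 4 * b + t) : a ≤ b := by
  have h1 : (a : ℝ) < b + 1 := by
    have := hs.1; have := ht.2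
    linarith
  exact_mod_cast Nat.lt_succ_iff.1 (by exact_mod_cast h1)

theorem arctan_mem (x : ℝ) : Real.arctan x ∈ Ioo (-2 : ℝ) 2 := by
  have h1 := Real.neg_pi_div_two_lt_arctan x
  have h2 := Real.arctan_lt_pi_div_two x
  have h3 := Real.pi_lt_d2
  constructor <;> linarith

variable {E X Y : Type*} [MeasurableSpace E] [StandardBorelSpace E] [MeasurableSpace X]
  [StandardBorelSpace X] [MeasurableSpace Y] [StandardBorelSpace Y]

theorem edge_colouring (α : E → X) (hα : Measurable α) (β : E → Y) (hβ : Measurable β)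
    (Δ b : ℕ) (hA : ∀ e, (fib α univ e).encard ≤ Δ)
    (hA' : ∀ e, ((b + 1 : ℕ) : ℕ∞) ≤ (fib α univ e).encard)
    (hB : ∀ e, (fib β univ e).encard ≤ b) (μ : Measure X) [IsFiniteMeasure μ]
    (ν : Measure Y) [IsFiniteMeasure ν] :
    ∃ M : ℕ → Set E, (∀ t, MeasurableSet (M t)) ∧ (∀ t, InjOn α (M t)) ∧ (∀ t, InjOn β (M t)) ∧
      (Pairwise (Function.onFun Disjoint M)) ∧
      μ {x | ∃ e, α e = x ∧ ∀ t < Δ, e ∉ M t} = 0 ∧
      ν {y | ∃ e, β e = y ∧ ∀ t < Δ, e ∉ M t} = 0 := by
  classical
  rcases isEmpty_or_nonempty E with hE | hE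
  · refine ⟨fun _ => ∅, fun _ => MeasurableSet.empty, fun _ => injOn_empty _,
      fun _ => injOn_empty _, fun _ _ _ => empty_disjoint _, ?_, ?_⟩
    · have : {x : X | ∃ e, α e = x ∧ ∀ t < Δ, e ∉ (∅ : Set E)} = ∅ := by
        ext x; simp
      rw [this]; simp
    · have : {y : Y | ∃ e, β e = y ∧ ∀ t < Δ, e ∉ (∅ : Set E)} = ∅ := by
        ext x; simp
      rw [this]; simp
  obtain ⟨PA⟩ := exists_enum α hα Δ univ MeasurableSet.univ (fun e _ => hA e)
  obtain ⟨PB⟩ := exists_enum β hβ b univ MeasurableSet.univ (fun e _ => hB e)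
  set μ' : Measure X := μ + ∑ j ∈ Finset.range b, ν.map (α ∘ PB.sec j) with hμ'
  obtain ⟨N, hN⟩ := exists_stage α hα β hβ Δ b hA hA' hB μ' b le_rfl
  have hfinA : ∀ e, (fib α univ e).Finite := fun e => Set.finite_of_encard_le_coe (hA e)
  have hfinB : ∀ e, (fib β univ e).Finite := fun e => Set.finite_of_encard_le_coe (hB e)
  -- the bad set
  set Bad : Set X := ⋃ k ∈ Finset.range b, (range α \ α '' N k) with hBad
  have hBad0 : μ' Bad = 0 := by
    rw [hBad]
    refine (measure_biUnion_null_iff (Finset.range b).countable_toSet).2 fun k hk => ?_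
    exact hN.cov k (by simpa using hk)
  -- levels
  have hRm : MeasurableSet (Rem N b) := by
    have : Rem N b = ⋂ i : ℕ, ⋂ (_ : i < b), (N i)ᶜ := by
      ext e; simp [Rem]
    rw [this]
    exact MeasurableSet.iInter fun i => MeasurableSet.iInter fun hi => (hN.meas i hi).compl
  set lv : E → ℕ := fun e => ∑ i ∈ Finset.range b, (N i).indicator (fun _ => i) e +
    (Rem N b).indicator (fun _ => b) e with hlv
  have hlvm : Measurable lv := by
    refine Measurable.add (Finset.measurable_sum _ fun i hi => ?_)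
      (measurable_const.indicator hRm)
    exact measurable_const.indicator (hN.meas i (Finset.mem_range.1 hi))
  have hlvN : ∀ i < b, ∀ e ∈ N i, lv e = i := by
    intro i hi e he
    simp only [hlv]
    rw [indicator_of_notMem (s := Rem N b) (fun h => h i hi he), add_zero,
      Finset.sum_eq_single i]
    · rw [indicator_of_mem he]
    · intro j hj hji
      refine indicator_of_notMem (fun h => ?_) _
      exact Set.disjoint_left.1 (hN.disj j (Finset.mem_range.1 hj) i hi hji) h he
    · intro h; exact absurd (Finset.mem_range.2 hi) h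
  have hlvR : ∀ e ∈ Rem N b, lv e = b := by
    intro e he
    simp only [hlv]
    rw [indicator_of_mem he, Finset.sum_eq_zero, zero_add]
    intro i hi
    exact indicator_of_notMem (he i (Finset.mem_range.1 hi)) _
  have hlvb : ∀ e, lv e ≤ b := by
    intro e
    by_cases h : e ∈ Rem N b
    · exact (hlvR e h).le
    · simp only [Rem, mem_ofPred_eq, not_forall, not_not] at h
      obtain ⟨i, hi, h⟩ := h
      rw [hlvN i hi e h]; exact hi.le
  have hlvmem : ∀ e, lv e < b → e ∈ N (lv e) := by
    intro e he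
    by_cases h : e ∈ Rem N b
    · rw [hlvR e h] at he; exact absurd he (lt_irrefl _)
    · simp only [Rem, mem_ofPred_eq, not_forall, not_not] at h
      obtain ⟨i, hi, h⟩ := h
      rw [hlvN i hi e h]; exact h
  -- keys
  set ι := embeddingReal E with hι
  have hιm : Measurable ι := measurable_embeddingReal E
  have hιi : Function.Injective ι := (measurableEmbedding_embeddingReal E).injective
  have hτm : Measurable (fun e => Real.arctan (ι e)) := Real.measurable_arctan.comp hιm
  have hlvm' : Measurable (fun e => (4 : ℝ) * (lv e : ℝ)) :=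
    ((measurable_of_countable (fun n : ℕ => (n : ℝ))).comp hlvm).const_mul 4
  set kB : E → ℝ := fun e => 4 * (lv e : ℝ) + Real.arctan (ι e) with hkB
  set kA : E → ℝ := fun e => -(4 * (lv e : ℝ)) + Real.arctan (ι e) with hkA
  have hkBm : Measurable kB := hlvm'.add hτm
  have hkAm : Measurable kA := hlvm'.neg.add hτm
  have harc : ∀ e e', lv e = lv e' → Real.arctan (ι e) = Real.arctan (ι e') → e = e' :=
    fun e e' _ h => hιi (Real.arctan_injective h)
  have hlvB : ∀ e e', kB e < kB e' → lv e ≤ lv e' := fun e e' h =>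
    le_of_key (arctan_mem _) (arctan_mem _) h
  have hlvA : ∀ e e', kA e < kA e' → lv e' ≤ lv e := by
    intro e e' h
    refine le_of_key (arctan_mem (ι e)) (arctan_mem (ι e')) ?_
    simp only [hkA] at h
    linarith
  have hBinj : ∀ e e', kB e = kB e' → e = e' := by
    intro e e' h
    have h1 : lv e = lv e' := by
      rcases lt_trichotomy (lv e) (lv e') with h2 | h2 | h2
      · exfalso
        have h3 : (lv e : ℝ) + 1 ≤ lv e' := by exact_mod_cast h2
        have := (arctan_mem (ι e)).2; have := (arctan_mem (ι e')).1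
        simp only [hkB] at h
        linarith
      · exact h2
      · exfalso
        have h3 : (lv e' : ℝ) + 1 ≤ lv e := by exact_mod_cast h2
        have := (arctan_mem (ι e')).2; have := (arctan_mem (ι e)).1
        simp only [hkB] at h
        linarith
    refine harc e e' h1 ?_
    simp only [hkB, h1] at h
    linarith
  have hAinj : ∀ e e', kA e = kA e' → e = e' := by
    intro e e' h
    have h1 : lv e = lv e' := by
      rcases lt_trichotomy (lv e) (lv e') with h2 | h2 | h2
      · exfalso
        have h3 : (lv e : ℝ) + 1 ≤ lv e' := by exact_mod_cast h2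
        have := (arctan_mem (ι e)).1; have := (arctan_mem (ι e')).2
        simp only [hkA] at h
        linarith
      · exact h2
      · exfalso
        have h3 : (lv e' : ℝ) + 1 ≤ lv e := by exact_mod_cast h2
        have := (arctan_mem (ι e')).1; have := (arctan_mem (ι e)).2
        simp only [hkA] at h
        linarith
    refine harc e e' h1 ?_
    simp only [hkA, h1] at h
    linarith
  obtain ⟨M, hM1, hM2, hM3, hM4, hM5⟩ := galvin hα hβ PA PB hfinA hfinB hkAm hkBm
    (fun e e' _ h => hAinj e e' h) (fun e e' _ h => hBinj e e' h) Δ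
  -- edges at good vertices are coloured
  have hgood : ∀ e, α e ∉ Bad → ∃ t < Δ, e ∈ M t := by
    intro e he
    apply hM5
    have hcovk : ∀ k < b, ∃ z ∈ N k, α z = α e := by
      intro k hk
      by_contra hcon
      apply he
      rw [hBad]
      simp only [mem_iUnion, Finset.mem_range]
      refine ⟨k, hk, ⟨e, rfl⟩, ?_⟩
      rintro ⟨z, hz, hz'⟩
      exact hcon ⟨z, hz, hz'⟩
    -- A-side
    set A0 : Set E := {z | α z = α e ∧ kA z < kA e} with hA0
    set B0 : Set E := {z | β z = β e ∧ kB z < kB e} with hB0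
    set K : Set E := {z | α z = α e ∧ lv z < lv e} with hK
    have hKcard : ((lv e : ℕ) : ℕ∞) ≤ K.encard := by
      have h1 : ((Finset.range (lv e) : Finset ℕ) : Set ℕ) ⊆ lv '' K := by
        intro k hk
        have hk' : k < lv e := by simpa using hk
        obtain ⟨z, hz, hz'⟩ := hcovk k (hk'.trans_le (hlvb e))
        have h2 := hlvN k (hk'.trans_le (hlvb e)) z hz
        exact ⟨z, ⟨hz', by rw [h2]; exact hk'⟩, h2⟩
      calc ((lv e : ℕ) : ℕ∞) = ((Finset.range (lv e) : Finset ℕ) : Set ℕ).encard := by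
            rw [Set.encard_coe_eq_coe_finsetCard, Finset.card_range]
        _ ≤ (lv '' K).encard := encard_le_encard h1
        _ ≤ K.encard := encard_image_le _ _
    have hAcard : A0.encard + 1 + (lv e : ℕ∞) ≤ Δ := by
      have hd1 : Disjoint A0 {e} := by
        rw [Set.disjoint_singleton_right]
        rintro ⟨_, h⟩
        exact lt_irrefl _ h
      have hd2 : Disjoint (A0 ∪ {e}) K := by
        rw [Set.disjoint_left]
        rintro z (⟨_, hz⟩ | hz) ⟨_, hz'⟩
        · have := hlvA z e hz
          omega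
        · rw [mem_singleton_iff] at hz
          rw [hz] at hz'
          exact lt_irrefl _ hz'
      calc A0.encard + 1 + (lv e : ℕ∞) ≤ A0.encard + ({e} : Set E).encard + K.encard := by
            rw [encard_singleton]; gcongr
        _ = (A0 ∪ {e} ∪ K).encard := by
            rw [encard_union_eq hd2, encard_union_eq hd1]
        _ ≤ (fib α univ e).encard := by
            refine encard_le_encard ?_
            rintro z ((⟨hz, _⟩ | hz) | ⟨hz, _⟩)
            · exact ⟨mem_univ _, hz⟩
            · rw [mem_singleton_iff] at hz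
              rw [hz]; exact ⟨mem_univ _, rfl⟩
            · exact ⟨mem_univ _, hz⟩
        _ ≤ Δ := hA e
    have hBcard : B0.encard ≤ (lv e : ℕ∞) := by
      rcases (hlvb e).lt_or_eq with hlt | heq
      · have h1 : B0 ⊆ Cho β N (lv e + 1) e \ {e} := by
          rintro z ⟨hz, hz'⟩
          have h2 := hlvB z e hz'
          refine ⟨⟨hz, lv z, by omega, hlvmem z (by omega)⟩, ?_⟩
          rintro rfl
          exact lt_irrefl _ hz'
        have h3 : e ∈ Cho β N (lv e + 1) e := ⟨rfl, lv e, by omega, hlvmem e hlt⟩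
        have h4 := encard_sdiff_singleton_add_one h3
        have h5 := hN.cho (lv e + 1) (by omega) e
        rw [← h4] at h5
        push_cast at h5
        exact (encard_le_encard h1).trans ((ENat.add_le_add_iff_right (by simp)).1 h5)
      · rw [heq]
        refine (encard_le_encard ?_).trans (hB e)
        rintro z ⟨hz, _⟩
        exact ⟨mem_univ _, hz⟩
    have hsum : A0.encard + B0.encard + 1 ≤ Δ := by
      calc A0.encard + B0.encard + 1 ≤ A0.encard + (lv e : ℕ∞) + 1 := by gcongr
        _ = A0.encard + 1 + (lv e : ℕ∞) := by ring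
        _ ≤ Δ := hAcard
    have hne : A0.encard + B0.encard ≠ ⊤ := by
      intro h
      rw [h] at hsum
      simp at hsum
    exact (ENat.add_one_le_iff hne).1 hsum
  refine ⟨M, hM1, hM2, hM3, hM4, ?_, ?_⟩
  · have hsub : {x | ∃ e, α e = x ∧ ∀ t < Δ, e ∉ M t} ⊆ Bad := by
      rintro x ⟨e, rfl, h⟩
      by_contra hcon
      obtain ⟨t, ht, het⟩ := hgood e hcon
      exact h t ht het
    refine measure_mono_null hsub ?_
    have h1 : μ Bad ≤ μ' Bad := by
      rw [hμ', Measure.add_apply]
      exact le_self_add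
    exact le_antisymm (h1.trans hBad0.le) (zero_le)
  · have hsub : {y | ∃ e, β e = y ∧ ∀ t < Δ, e ∉ M t} ⊆
        ⋃ j ∈ Finset.range b, (α ∘ PB.sec j) ⁻¹' Bad := by
      rintro y ⟨e, rfl, h⟩
      have hbad : α e ∈ Bad := by
        by_contra hcon
        obtain ⟨t, ht, het⟩ := hgood e hcon
        exact h t ht het
      simp only [mem_iUnion]
      have h1 := (PB.rk_lt e (mem_univ _)).trans_le (hB e)
      refine ⟨PB.rk e, Finset.mem_range.2 (by exact_mod_cast h1), ?_⟩
      simp only [mem_preimage, Function.comp, PB.sec_rk e (mem_univ _)]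
      exact hbad
    refine measure_mono_null hsub ?_
    refine (measure_biUnion_null_iff (Finset.range b).countable_toSet).2 fun j hj => ?_
    have hj' : j ∈ Finset.range b := by simpa using hj
    refine Measure.preimage_null_of_map_null (hα.comp (PB.sec_meas j)).aemeasurable ?_
    have h1 : ν.map (α ∘ PB.sec j) Bad ≤ μ' Bad := by
      rw [hμ', Measure.add_apply, Measure.finsetSum_apply]
      calc ν.map (α ∘ PB.sec j) Bad ≤ ∑ j ∈ Finset.range b, ν.map (α ∘ PB.sec j) Bad :=
            Finset.single_le_sum (f := fun j => ν.map (α ∘ PB.sec j) Bad)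
              (fun _ _ => zero_le) hj'
        _ ≤ _ := le_add_self
    exact le_antisymm (h1.trans hBad0.le) (zero_le)

end C314
end

section

/-!
# The main theorem for Borel multigraphs
-/

open MeasureTheory Set

namespace C314

namespace BorelMultigraph

variable {V E : Type*} [MeasurableSpace V] [StandardBorelSpace V] [MeasurableSpace E]
  [StandardBorelSpace E] (G : BorelMultigraph V E)

omit [StandardBorelSpace V] [StandardBorelSpace E] in
/-- the edges with an endpoint in a Borel set form a Borel set -/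
theorem meas_hit (C : Set V) (hC : MeasurableSet C) :
    MeasurableSet {e | ∃ z ∈ G.ends e, z ∈ C} := by
  refine G.borel {w | ∃ z ∈ w, z ∈ C} ?_
  have : {p : V × V | s(p.1, p.2) ∈ {w : Sym2 V | ∃ z ∈ w, z ∈ C}} =
      (Prod.fst ⁻¹' C) ∪ (Prod.snd ⁻¹' C) := by
    ext ⟨p, r⟩
    simp only [mem_ofPred_eq, Sym2.mem_iff, mem_union, mem_preimage]
    constructor
    · rintro ⟨z, rfl | rfl, hz⟩
      · left; exact hz
      · right; exact hz
    · rintro (h | h)
      · exact ⟨p, Or.inl rfl, h⟩
      · exact ⟨r, Or.inr rfl, h⟩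
  rw [this]
  exact (measurable_fst hC).union (measurable_snd hC)

omit [StandardBorelSpace E] in
/-- the incidence relation is Borel -/
theorem meas_inc : MeasurableSet {p : V × E | p.1 ∈ G.ends p.2} := by
  set ι := embeddingReal V with hι
  have hιm : Measurable ι := measurable_embeddingReal V
  have hιi : Function.Injective ι := (measurableEmbedding_embeddingReal V).injective
  have : {p : V × E | p.1 ∈ G.ends p.2} = ⋂ r : ℚ × ℚ,
      ((Prod.fst ⁻¹' (ι ⁻¹' Ioo (r.1 : ℝ) (r.2 : ℝ)))ᶜ ∪
        (Prod.snd ⁻¹' {e | ∃ z ∈ G.ends e, z ∈ ι ⁻¹' Ioo (r.1 : ℝ) (r.2 : ℝ)})) := by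
    ext ⟨x, e⟩
    simp only [mem_ofPred_eq, mem_iInter, mem_union, mem_compl_iff, mem_preimage]
    constructor
    · intro h r
      by_cases hr : ι x ∈ Ioo (r.1 : ℝ) (r.2 : ℝ)
      · right; exact ⟨x, h, hr⟩
      · left; exact hr
    · intro h
      by_contra hx
      -- separate `x` from the endpoints of `e`
      set F : Set ℝ := ι '' {z | z ∈ G.ends e} with hF
      have hFfin : F.Finite := by
        refine Set.Finite.image _ ?_
        induction hG : G.ends e with
        | _ p r =>
          refine ((finite_singleton r).insert p).subset ?_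
          intro z hz
          simpa [Sym2.mem_iff] using hz
      have hxF : ι x ∉ F := by
        rintro ⟨z, hz, hzx⟩
        exact hx (by rw [← hιi hzx]; exact hz)
      obtain ⟨ε, hε, hball⟩ := Metric.isOpen_iff.1 hFfin.isClosed.isOpen_compl (ι x) hxF
      obtain ⟨a, ha1, ha2⟩ := exists_rat_btwn (show ι x - ε < ι x by linarith)
      obtain ⟨b, hb1, hb2⟩ := exists_rat_btwn (show ι x < ι x + ε by linarith)
      rcases h (a, b) with h1 | ⟨z, hz, hz1⟩
      · exact h1 ⟨ha2, hb1⟩
      · have h5 : ι z ∈ Fᶜ := by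
          apply hball
          rw [Metric.mem_ball, Real.dist_eq, abs_lt]
          have h6 := hz1.1
          have h7 := hz1.2
          simp only at h6 h7
          constructor <;> linarith
        exact h5 ⟨z, hz, rfl⟩
  rw [this]
  refine MeasurableSet.iInter fun r => MeasurableSet.union ?_ ?_
  · exact (measurable_fst (hιm measurableSet_Ioo)).compl
  · exact measurable_snd (G.meas_hit _ (hιm measurableSet_Ioo))

/-- the set of vertices of degree at least `k + 1` is Borel -/
theorem meas_deg {Δ : ℕ} (hΔ : ∀ x, (G.edgesAt x).encard ≤ Δ) (k : ℕ) :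
    MeasurableSet {x | ((k + 1 : ℕ) : ℕ∞) ≤ (G.edgesAt x).encard} := by
  classical
  rcases isEmpty_or_nonempty (V × E) with hE | hE
  · rcases isEmpty_prod.1 hE with h | h
    · rw [Set.eq_empty_of_isEmpty {x : V | _}]; exact MeasurableSet.empty
    · have : {x | ((k + 1 : ℕ) : ℕ∞) ≤ (G.edgesAt x).encard} = ∅ := by
        ext x
        have h0 : G.edgesAt x = ∅ := Set.eq_empty_of_isEmpty _
        simp [h0]
      rw [this]; exact MeasurableSet.empty
  set I : Set (V × E) := {p : V × E | p.1 ∈ G.ends p.2} with hI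
  have hIm : MeasurableSet I := G.meas_inc
  have hfib : ∀ p : V × E, fib Prod.fst I p = (fun e => (p.1, e)) '' G.edgesAt p.1 := by
    rintro ⟨x, e⟩
    ext ⟨x', e'⟩
    simp only [fib, hI, edgesAt, mem_ofPred_eq, mem_image, Prod.mk.injEq]
    constructor
    · rintro ⟨h1, rfl⟩; exact ⟨e', h1, rfl, rfl⟩
    · rintro ⟨e'', h1, rfl, rfl⟩; exact ⟨h1, rfl⟩
  have hfibc : ∀ p : V × E, (fib Prod.fst I p).encard = (G.edgesAt p.1).encard := by
    intro p
    rw [hfib]
    exact (Function.Injective.injOn (fun e e' h => (Prod.ext_iff.1 h).2)).encard_image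
  obtain ⟨P⟩ := exists_enum (Prod.fst : V × E → V) measurable_fst Δ I hIm
    (fun p _ => by rw [hfibc]; exact hΔ _)
  have : {x | ((k + 1 : ℕ) : ℕ∞) ≤ (G.edgesAt x).encard} =
      {x | P.sec k x ∈ I} ∩ ({x | (P.sec k x).1 = x} ∩ {x | P.rk (P.sec k x) = k}) := by
    ext x
    simp only [mem_ofPred_eq, mem_inter_iff]
    constructor
    · intro h
      have hne : (G.edgesAt x).Nonempty := by
        rw [← Set.encard_ne_zero]
        intro h0
        rw [h0] at h
        simp at h
      obtain ⟨e, he⟩ := hne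
      have hmem : (x, e) ∈ I := he
      have hfin : (fib Prod.fst I (x, e)).Finite := by
        refine Set.finite_of_encard_le_coe (k := Δ) ?_
        rw [hfibc]; exact hΔ _
      obtain ⟨p, h1, h2, h3⟩ := P.rk_surj hmem hfin k (by
        rw [hfibc]
        exact lt_of_lt_of_le (by exact_mod_cast Nat.lt_succ_self k) h)
      have h4 := P.sec_rk p h1
      rw [h3, h2] at h4
      simp only at h4
      rw [h4]
      exact ⟨h1, h2, h3⟩
    · rintro ⟨h1, h2, h3⟩
      have h4 := P.rk_lt _ h1
      rw [h3, hfibc, h2] at h4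
      have := Order.add_one_le_of_lt h4
      simpa using this
  rw [this]
  refine ((P.sec_meas k) hIm).inter ((measurableSet_eq_fun
    (measurable_fst.comp (P.sec_meas k)) measurable_id).inter ?_)
  exact (P.rk_meas.comp (P.sec_meas k)) (measurableSet_singleton k)

theorem colourable (Δ : ℕ) (hΔ : ∀ x, (G.edgesAt x).encard ≤ Δ) (A B : Set V)
    (hAB : G.IsBipartition A B) (hub : G.IsUnbalanced A B) (μ : Measure V) [IsFiniteMeasure μ] :
    G.MeasColourable μ Δ := by
  classical
  obtain ⟨hcompl, hends⟩ := hAB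
  obtain ⟨a, b, hba, hdA, hdB⟩ := hub
  rcases isEmpty_or_nonempty E with hE | hE
  · refine ⟨fun _ => ∅, fun _ => MeasurableSet.empty, fun _ e he => he.elim,
      fun _ _ _ => empty_disjoint _, Filter.Eventually.of_forall fun x e _ => (IsEmpty.false e).elim⟩
  have hdisj : ∀ x, x ∈ A → x ∈ B → False := fun x h1 h2 =>
    Set.disjoint_left.1 hcompl.disjoint h1 h2
  have hfin : ∀ x, (G.edgesAt x).Finite := fun x => Set.finite_of_encard_le_coe (hΔ x)
  have hdeg : ∀ x, (G.edgesAt x).encard = (G.deg x : ℕ∞) := fun x =>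
    ((hfin x).cast_ncard_eq).symm
  choose α hαA β hβB hαβ using hends
  have hne : ∀ e e', α e ≠ β e' := fun e e' h => hdisj (α e) (hαA e) (by rw [h]; exact hβB e')
  -- `b` is nonnegative
  have hb0 : 0 ≤ b := by
    obtain ⟨e⟩ := hE
    exact le_trans (Int.natCast_nonneg _) (hdB (β e) (hβB e))
  obtain ⟨n, rfl⟩ := Int.eq_ofNat_of_zero_le hb0
  have hA1 : ∀ x ∈ A, ((n + 1 : ℕ) : ℕ∞) ≤ (G.edgesAt x).encard := by
    intro x hx
    have h1 := hdA x hx
    rw [hdeg]
    have h2 : n + 1 ≤ G.deg x := by
      have : (n : ℤ) + 1 ≤ G.deg x := by linarith [Int.add_one_le_iff.2 hba]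
      exact_mod_cast this
    exact_mod_cast h2
  have hB1 : ∀ y ∈ B, (G.edgesAt y).encard ≤ n := by
    intro y hy
    have h1 := hdB y hy
    rw [hdeg]
    exact_mod_cast h1
  -- `A` is Borel
  have hAeq : A = {x | ((n + 1 : ℕ) : ℕ∞) ≤ (G.edgesAt x).encard} := by
    ext x
    constructor
    · exact fun hx => hA1 x hx
    · intro hx
      by_contra hxA
      have hxB : x ∈ B := by
        have := hcompl.codisjoint.top_le (mem_univ x)
        rcases this with h | h
        · exact absurd h hxA
        · exact h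
      have h1 : ((n + 1 : ℕ) : ℕ∞) ≤ n := le_trans hx (hB1 x hxB)
      have h2 : n + 1 ≤ n := by exact_mod_cast h1
      omega
  have hAm : MeasurableSet A := by rw [hAeq]; exact G.meas_deg hΔ n
  have hBm : MeasurableSet B := by rw [← hcompl.compl_eq]; exact hAm.compl
  have hmemα : ∀ e, α e ∈ G.ends e := fun e => by rw [hαβ]; exact Sym2.mem_mk_left _ _
  have hmemβ : ∀ e, β e ∈ G.ends e := fun e => by rw [hαβ]; exact Sym2.mem_mk_right _ _
  have hmem : ∀ e x, x ∈ G.ends e → x = α e ∨ x = β e := by
    intro e x hx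
    rw [hαβ] at hx
    exact Sym2.mem_iff.1 hx
  have hαm : Measurable α := by
    intro C hC
    have : α ⁻¹' C = {e | ∃ z ∈ G.ends e, z ∈ A ∩ C} := by
      ext e
      constructor
      · intro h; exact ⟨α e, hmemα e, hαA e, h⟩
      · rintro ⟨z, hz, hzA, hzC⟩
        rcases hmem e z hz with h | h
        · rw [h] at hzC; exact hzC
        · exact absurd (hβB e) (fun h' => hdisj z hzA (by rw [h]; exact h'))
    rw [this]
    exact G.meas_hit _ (hAm.inter hC)
  have hβm : Measurable β := by
    intro C hC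
    have : β ⁻¹' C = {e | ∃ z ∈ G.ends e, z ∈ B ∩ C} := by
      ext e
      constructor
      · intro h; exact ⟨β e, hmemβ e, hβB e, h⟩
      · rintro ⟨z, hz, hzB, hzC⟩
        rcases hmem e z hz with h | h
        · exact absurd (hαA e) (fun h' => hdisj z (by rw [h]; exact h') hzB)
        · rw [h] at hzC; exact hzC
    rw [this]
    exact G.meas_hit _ (hBm.inter hC)
  have hfibα : ∀ e, fib α univ e = G.edgesAt (α e) := by
    intro e
    ext e'
    simp only [fib, edgesAt, mem_univ, true_and, mem_ofPred_eq]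
    constructor
    · intro h; rw [← h]; exact hmemα e'
    · intro h
      rcases hmem e' _ h with h1 | h1
      · exact h1.symm
      · exact absurd h1 (hne e e')
  have hfibβ : ∀ e, fib β univ e = G.edgesAt (β e) := by
    intro e
    ext e'
    simp only [fib, edgesAt, mem_univ, true_and, mem_ofPred_eq]
    constructor
    · intro h; rw [← h]; exact hmemβ e'
    · intro h
      rcases hmem e' _ h with h1 | h1
      · exact absurd h1.symm (hne e' e)
      · exact h1.symm
  obtain ⟨M, hM1, hM2, hM3, hM4, hM5, hM6⟩ := edge_colouring α hαm β hβm Δ n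
    (fun e => by rw [hfibα]; exact hΔ _) (fun e => by rw [hfibα]; exact hA1 _ (hαA e))
    (fun e => by rw [hfibβ]; exact hB1 _ (hβB e)) μ μ
  refine ⟨fun i => M i, fun i => hM1 i, ?_, ?_, ?_⟩
  · intro i e he e' he' hne' x ⟨hx, hx'⟩
    rcases hmem e x hx with h | h <;> rcases hmem e' x hx' with h' | h'
    · exact hne' (hM2 i he he' (h.symm.trans h'))
    · exact hne e e' (h.symm.trans h')
    · exact hne e' e (h'.symm.trans h)
    · exact hne' (hM3 i he he' (h.symm.trans h'))
  · intro i j hij
    exact hM4 (fun h => hij (Fin.ext h))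
  · rw [ae_iff]
    refine measure_mono_null ?_ (measure_union_null hM5 hM6)
    intro x hx
    simp only [mem_ofPred_eq, not_forall, not_exists] at hx
    obtain ⟨e, he, h⟩ := hx
    rcases hmem e x he with h1 | h1
    · left; exact ⟨e, h1.symm, fun t ht => h ⟨t, ht⟩⟩
    · right; exact ⟨e, h1.symm, fun t ht => h ⟨t, ht⟩⟩

end BorelMultigraph

end C314
end
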