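import Pool.Agent.Lib.MP_314673_lc.Walk

/-!
# Flipping alternating walks
-/

open MeasureTheory Set

namespace C314

variable {X Y : Type*} [MeasurableSpace X] [StandardBorelSpace X] [MeasurableSpace Y]
  [StandardBorelSpace Y] {q : ℕ}

theorem suffix_cases {α : Type*} {r u : List α} (h : r <:+ u) :
    r = u ∨ ∃ a, (a :: r) <:+ u := by
  induction u with
  | nil => left; exact List.suffix_nil.1 h
  | cons b u ih =>
    rcases List.suffix_cons_iff.1 h with h1 | h1
    · left; exact h1
    · rcases ih h1 with h2 | ⟨a, h2⟩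
      · right; exact ⟨b, by rw [h2]⟩
      · right; exact ⟨a, h2.trans (List.suffix_cons b u)⟩

namespace PM

variable {S : Sys X Y q} (M : PM S)

omit [StandardBorelSpace X] [StandardBorelSpace Y] in
theorem W_suffix {u t : List (Fin q)} {x : X} (h : M.W u x ≠ none) (ht : t <:+ u) :
    M.W t x ≠ none := by
  obtain ⟨p, rfl⟩ := ht
  intro h1
  apply h
  rw [M.W_append, h1]
  rfl

open Classical in
/-- the new assignment at the end of the walk -/
noncomputable def base (u : List (Fin q)) (e : Option (Fin q)) (C : Set X) (v : X) :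
    Option (Fin (q+1)) :=
  if v ∈ M.ImW u C then e.map (fun a => M.o a v) else M.m v

open Classical in
/-- the new assignment -/
noncomputable def asg (u : List (Fin q)) (e : Option (Fin q)) (C : Set X) :
    List (Fin q) → X → Option (Fin (q+1))
  | [], v => M.base u e C v
  | a :: t, v => if v ∈ M.ImW t C then some (M.o a v) else asg u e C t v

omit [StandardBorelSpace X] in
theorem meas_base (u : List (Fin q)) (e : Option (Fin q)) (C : Set X) (hC : MeasurableSet C)
    (i : Fin (q+1)) : MeasurableSet {v | M.base u e C v = some i} := by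
  classical
  have : {v | M.base u e C v = some i} = (M.ImW u C ∩ {v | e.map (fun a => M.o a v) = some i}) ∪
      ((M.ImW u C)ᶜ ∩ {v | M.m v = some i}) := by
    ext v
    simp only [base, mem_ofPred_eq, mem_union, mem_inter_iff, mem_compl_iff]
    split_ifs with h
    · simp [h]
    · simp [h]
  rw [this]
  refine ((M.meas_ImW u C hC).inter ?_).union ((M.meas_ImW u C hC).compl.inter (M.meas i))
  cases e with
  | none => simp
  | some a =>
    simp only [Option.map_some, Option.some_inj]
    exact (M.meas_o a) (measurableSet_singleton i)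

omit [StandardBorelSpace X] in
theorem meas_asg (u : List (Fin q)) (e : Option (Fin q)) (C : Set X) (hC : MeasurableSet C)
    (t : List (Fin q)) (i : Fin (q+1)) : MeasurableSet {v | M.asg u e C t v = some i} := by
  classical
  induction t with
  | nil => exact M.meas_base u e C hC i
  | cons a t ih =>
    have : {v | M.asg u e C (a :: t) v = some i} = (M.ImW t C ∩ {v | M.o a v = i}) ∪
        ((M.ImW t C)ᶜ ∩ {v | M.asg u e C t v = some i}) := by
      ext v
      simp only [asg, mem_ofPred_eq, mem_union, mem_inter_iff, mem_compl_iff]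
      split_ifs with h
      · simp [h]
      · simp [h]
    rw [this]
    exact ((M.meas_ImW t C hC).inter ((M.meas_o a) (measurableSet_singleton i))).union
      ((M.meas_ImW t C hC).compl.inter ih)

omit [StandardBorelSpace X] [StandardBorelSpace Y] in
theorem asg_cases (u : List (Fin q)) (e : Option (Fin q)) (C : Set X) (t : List (Fin q)) (v : X) :
    (∃ a r, (a :: r) <:+ t ∧ v ∈ M.ImW r C ∧ M.asg u e C t v = some (M.o a v)) ∨
    ((∀ a r, (a :: r) <:+ t → v ∉ M.ImW r C) ∧ M.asg u e C t v = M.base u e C v) := by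
  classical
  induction t with
  | nil =>
    right
    refine ⟨?_, rfl⟩
    intro a r h
    exact absurd (List.suffix_nil.1 h) (by simp)
  | cons b t ih =>
    by_cases hv : v ∈ M.ImW t C
    · left
      exact ⟨b, t, List.suffix_rfl, hv, by simp only [asg, hv, if_true]⟩
    · rcases ih with ⟨a, r, h1, h2, h3⟩ | ⟨h1, h2⟩
      · left
        exact ⟨a, r, h1.trans (List.suffix_cons b t), h2, by simp only [asg, hv, if_false]; exact h3⟩
      · right
        refine ⟨?_, by simp only [asg, hv, if_false]; exact h2⟩
        intro a r h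
        rcases List.suffix_cons_iff.1 h with h' | h'
        · injection h' with h3 h4
          rw [h4]; exact hv
        · exact h1 a r h'

omit [StandardBorelSpace X] [StandardBorelSpace Y] in
/-- trichotomy for the new assignment -/
theorem asg_tri (u : List (Fin q)) (e : Option (Fin q)) (C : Set X) (v : X) :
    (∃ a r, (a :: r) <:+ u ∧ v ∈ M.ImW r C ∧ M.asg u e C u v = some (M.o a v)) ∨
    (v ∈ M.ImW u C ∧ M.asg u e C u v = e.map (fun a => M.o a v)) ∨
    ((∀ r, r <:+ u → v ∉ M.ImW r C) ∧ M.asg u e C u v = M.m v) := by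
  classical
  rcases M.asg_cases u e C u v with h | ⟨h1, h2⟩
  · left; exact h
  · right
    by_cases hv : v ∈ M.ImW u C
    · left
      exact ⟨hv, by rw [h2]; simp only [base, hv, if_true]⟩
    · right
      refine ⟨?_, by rw [h2]; simp only [base, hv, if_false]⟩
      intro r hr
      rcases suffix_cases hr with rfl | ⟨a, ha⟩
      · exact hv
      · exact h1 a r ha

omit [StandardBorelSpace X] in
theorem flip (u : List (Fin q)) (e : Option (Fin q)) (C : Set X) (hC : MeasurableSet C)
    (h1 : ∀ x ∈ C, M.W u x ≠ none)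
    (h2 : ∀ x ∈ C, ∀ x' ∈ C, ∀ t t', t <:+ u → t' <:+ u → M.W t x = M.W t' x' → x = x' ∧ t = t')
    (h3 : ∀ a, e = some a → ∀ x ∈ C, ∀ v, M.W u x = some v → ∀ w, ¬ M.Step a v w)
    (h4 : ∀ a, e = some a → ∀ x ∈ C, ∀ x' ∈ C, ∀ v v', M.W u x = some v → M.W u x' = some v' →
      M.tg a v = M.tg a v' → x = x') :
    ∃ M' : PM S, (∀ x, M'.m x = none → (x ∈ M.U ∧ x ∉ C) ∨ (e = none ∧ x ∈ M.ImW u C)) ∧
      (∀ x, M.m x ≠ M'.m x → ∃ t, t <:+ u ∧ x ∈ M.ImW t C) := by
  classical
  -- type A vertices have an owner of the new target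
  have hA : ∀ a r v, (a :: r) <:+ u → v ∈ M.ImW r C → ∃ x ∈ C, M.W r x = some v ∧
      ∃ w, M.W (a :: r) x = some w ∧ ∃ j, M.m w = some j ∧ S.y j w = M.tg a v := by
    intro a r v h5 h6
    obtain ⟨x, hx, h7⟩ := h6
    refine ⟨x, hx, h7, ?_⟩
    have h8 : M.W (a :: r) x ≠ none := M.W_suffix (h1 x hx) h5
    obtain ⟨w, hw⟩ := Option.ne_none_iff_exists'.1 h8
    refine ⟨w, hw, ?_⟩
    simp only [W, h7, Option.bind_some] at hw
    exact M.T_eq_some.1 hw
  have hinj : ∀ x x' i i', M.asg u e C u x = some i → M.asg u e C u x' = some i' →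
      S.y i x = S.y i' x' → x = x' := by
    intro v v' i i' hi hi' hy
    rcases M.asg_tri u e C v with ⟨a, r, k1, k2, k3⟩ | ⟨k1, k2⟩ | ⟨k1, k2⟩ <;>
    rcases M.asg_tri u e C v' with ⟨a', r', k1', k2', k3'⟩ | ⟨k1', k2'⟩ | ⟨k1', k2'⟩
    · -- A A
      rw [hi, Option.some_inj] at k3
      rw [hi', Option.some_inj] at k3'
      subst k3; subst k3'
      obtain ⟨x, hx, l1, w, l2, j, l3, l4⟩ := hA a r v k1 k2
      obtain ⟨x', hx', l1', w', l2', j', l3', l4'⟩ := hA a' r' v' k1' k2'
      have h5 : w = w' := M.inj w w' j j' l3 l3' (by rw [l4, l4']; exact hy)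
      obtain ⟨rfl, h6⟩ := h2 x hx x' hx' (a :: r) (a' :: r') k1 k1' (by rw [l2, l2', h5])
      injection h6 with h7 h8
      rw [h8, l1', Option.some_inj] at l1
      exact l1.symm
    · -- A B
      rw [hi, Option.some_inj] at k3
      subst k3
      cases e with
      | none => rw [hi'] at k2'; simp at k2'
      | some a' =>
        rw [hi'] at k2'
        simp only [Option.map_some, Option.some_inj] at k2'
        subst k2'
        obtain ⟨x, hx, l1, w, l2, j, l3, l4⟩ := hA a r v k1 k2
        obtain ⟨x', hx', l1'⟩ := k1'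
        exact absurd ⟨j, l3, by rw [l4]; exact hy⟩ (h3 a' rfl x' hx' v' l1' w)
    · -- A C
      rw [hi, Option.some_inj] at k3
      subst k3
      rw [hi'] at k2'
      obtain ⟨x, hx, l1, w, l2, j, l3, l4⟩ := hA a r v k1 k2
      have h5 : w = v' := M.inj w v' j i' l3 k2'.symm (by rw [l4]; exact hy)
      exact absurd ⟨x, hx, by rw [← h5]; exact l2⟩ (k1' (a :: r) k1)
    · -- B A
      rw [hi', Option.some_inj] at k3'
      subst k3'
      cases e with
      | none => rw [hi] at k2; simp at k2
      | some a =>
        rw [hi] at k2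
        simp only [Option.map_some, Option.some_inj] at k2
        subst k2
        obtain ⟨x', hx', l1', w', l2', j', l3', l4'⟩ := hA a' r' v' k1' k2'
        obtain ⟨x, hx, l1⟩ := k1
        exact absurd ⟨j', l3', by rw [l4']; exact hy.symm⟩ (h3 a rfl x hx v l1 w')
    · -- B B
      cases e with
      | none => rw [hi] at k2; simp at k2
      | some a =>
        rw [hi] at k2
        rw [hi'] at k2'
        simp only [Option.map_some, Option.some_inj] at k2 k2'
        subst k2; subst k2'
        obtain ⟨x, hx, l1⟩ := k1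
        obtain ⟨x', hx', l1'⟩ := k1'
        have h5 := h4 a rfl x hx x' hx' v v' l1 l1' hy
        subst h5
        rw [l1, Option.some_inj] at l1'
        exact l1'
    · -- B C
      cases e with
      | none => rw [hi] at k2; simp at k2
      | some a =>
        rw [hi] at k2
        rw [hi'] at k2'
        simp only [Option.map_some, Option.some_inj] at k2
        subst k2
        obtain ⟨x, hx, l1⟩ := k1
        exact absurd ⟨i', k2'.symm, hy.symm⟩ (h3 a rfl x hx v l1 v')
    · -- C A
      rw [hi', Option.some_inj] at k3'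
      subst k3'
      rw [hi] at k2
      obtain ⟨x', hx', l1', w', l2', j', l3', l4'⟩ := hA a' r' v' k1' k2'
      have h5 : w' = v := M.inj w' v j' i l3' k2.symm (by rw [l4']; exact hy.symm)
      exact absurd ⟨x', hx', by rw [← h5]; exact l2'⟩ (k1 (a' :: r') k1')
    · -- C B
      cases e with
      | none => rw [hi'] at k2'; simp at k2'
      | some a =>
        rw [hi] at k2
        rw [hi'] at k2'
        simp only [Option.map_some, Option.some_inj] at k2'
        subst k2'
        obtain ⟨x', hx', l1'⟩ := k1'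
        exact absurd ⟨i, k2.symm, hy⟩ (h3 a rfl x' hx' v' l1' v)
    · -- C C
      rw [hi] at k2
      rw [hi'] at k2'
      exact M.inj v v' i i' k2.symm k2'.symm hy
  refine ⟨⟨M.asg u e C u, M.meas_asg u e C hC u, hinj⟩, ?_, ?_⟩
  · intro x hx
    simp only at hx
    rcases M.asg_tri u e C x with ⟨a, r, k1, k2, k3⟩ | ⟨k1, k2⟩ | ⟨k1, k2⟩
    · rw [hx] at k3; cases k3
    · right
      rw [hx] at k2
      refine ⟨?_, k1⟩
      cases e with
      | none => rfl
      | some a => simp at k2
    · left
      rw [hx] at k2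
      refine ⟨k2.symm, ?_⟩
      have := k1 [] (List.nil_suffix)
      rwa [M.ImW_nil] at this
  · intro x hx
    simp only at hx
    rcases M.asg_tri u e C x with ⟨a, r, k1, k2, k3⟩ | ⟨k1, k2⟩ | ⟨k1, k2⟩
    · exact ⟨r, (List.suffix_cons a r).trans k1, k2⟩
    · exact ⟨u, List.suffix_rfl, k1⟩
    · exact absurd k2.symm hx

omit [StandardBorelSpace X] [StandardBorelSpace Y] in
theorem exists_reduct (x : X) : ∀ (n : ℕ) (s : List (Fin q)) (v : X), s.length = n →
    M.W s x = some v → ∃ u, u.length ≤ s.length ∧ M.W u x = some v ∧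
      (∀ t, t <:+ u → ∃ t', t' <:+ s ∧ M.W t x = M.W t' x) ∧
      (∀ t t', t <:+ u → t' <:+ u → M.W t x = M.W t' x → t = t') := by
  intro n
  induction n using Nat.strong_induction_on with
  | _ n ih =>
    intro s v hs hv
    by_cases hsimple : ∀ t t', t <:+ s → t' <:+ s → M.W t x = M.W t' x → t = t'
    · exact ⟨s, le_rfl, hv, fun t ht => ⟨t, ht, rfl⟩, hsimple⟩
    · push Not at hsimple
      -- find t, t' with t' shorter
      have : ∃ t t', t <:+ s ∧ t' <:+ s ∧ M.W t x = M.W t' x ∧ t'.length < t.length := by
        obtain ⟨t, t', ht, ht', heq, hne⟩ := hsimple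
        have hlen : t.length ≠ t'.length := by
          intro hl
          apply hne
          rcases List.suffix_or_suffix_of_suffix ht ht' with h | h
          · exact h.eq_of_length hl
          · exact (h.eq_of_length hl.symm).symm
        rcases lt_or_gt_of_ne hlen with h | h
        · exact ⟨t', t, ht', ht, heq.symm, h⟩
        · exact ⟨t, t', ht, ht', heq, h⟩
      obtain ⟨t, t', ht, ht', heq, hlt⟩ := this
      obtain ⟨p, rfl⟩ := ht
      have hW : M.W (p ++ t') x = some v := by
        rw [M.W_append, ← heq, ← M.W_append, hv]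
      have hlen : (p ++ t').length < n := by
        rw [← hs]
        simp only [List.length_append]
        omega
      obtain ⟨u, h1, h2, h3, h4⟩ := ih _ hlen (p ++ t') v rfl hW
      refine ⟨u, ?_, h2, ?_, h4⟩
      · have := hlen.le; omega
      · intro t0 ht0
        obtain ⟨t1, ht1, h5⟩ := h3 t0 ht0
        rcases List.suffix_or_suffix_of_suffix ht1 (List.suffix_append p t') with h6 | h6
        · exact ⟨t1, h6.trans ht', h5⟩
        · obtain ⟨p', rfl⟩ := h6
          obtain ⟨p'', hp''⟩ := ht1
          rw [← List.append_assoc] at hp''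
          have h7 : p'' ++ p' = p := List.append_cancel_right hp''
          refine ⟨p' ++ t, ⟨p'', by rw [← List.append_assoc, h7]⟩, ?_⟩
          rw [h5, M.W_append, M.W_append, heq]

end PM

end C314
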