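import Mathlib
import Pool.Agent.Lib.MP_314673_lc.Adj

section

/-!
# Auxiliary analysis: Ekeland's principle, a numeric lemma, quasi-invariant measures
-/

open MeasureTheory Set Filter Topology
open scoped ENNReal

namespace C314

theorem ekeland {M : Type*} (d : M → M → ℝ) (φ : M → ℝ)
    (dn : ∀ m m', 0 ≤ d m m') (dself : ∀ m, d m m = 0)
    (dt : ∀ a b c, d a c ≤ d a b + d b c)
    (φn : ∀ m, 0 ≤ φ m) (φl' : ∀ m m', φ m' ≤ φ m + d m m')
    (comp : ∀ s : ℕ → M, Summable (fun n => d (s n) (s (n+1))) →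
      ∃ m, Tendsto (fun n => d (s n) m) atTop (𝓝 0))
    (κ : ℝ) (hκ : 0 < κ) (m0 : M) :
    ∃ m, κ * d m0 m ≤ φ m0 ∧ ∀ m', φ m ≤ φ m' + κ * d m m' := by
  classical
  -- near minimizers
  have hnext : ∀ (n : ℕ) (m : M), ∃ m1, φ m1 + κ * d m m1 ≤ φ m ∧
      ∀ m', φ m' + κ * d m m' ≤ φ m → φ m1 ≤ φ m' + (1/2 : ℝ)^n := by
    intro n m
    set S : Set ℝ := φ '' {m' | φ m' + κ * d m m' ≤ φ m} with hS
    have hne : S.Nonempty := ⟨φ m, m, by simp [dself], rfl⟩
    have hbd : BddBelow S := ⟨0, by rintro _ ⟨m', _, rfl⟩; exact φn m'⟩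
    have hlt : sInf S < sInf S + (1/2 : ℝ)^n := lt_add_of_pos_right _ (by positivity)
    obtain ⟨_, ⟨m1, h1, rfl⟩, h2⟩ := exists_lt_of_csInf_lt hne hlt
    refine ⟨m1, h1, fun m' hm' => ?_⟩
    have h3 : sInf S ≤ φ m' := csInf_le hbd ⟨m', hm', rfl⟩
    linarith
  choose next hn1 hn2 using hnext
  set s : ℕ → M := fun n => Nat.rec m0 (fun k m => next k m) n with hs
  have hs0 : s 0 = m0 := rfl
  have hs1 : ∀ n, s (n+1) = next n (s n) := fun n => rfl
  have hstep : ∀ n, φ (s (n+1)) + κ * d (s n) (s (n+1)) ≤ φ (s n) := by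
    intro n; rw [hs1]; exact hn1 n (s n)
  have hdist : ∀ n k, φ (s (n + k)) + κ * d (s n) (s (n + k)) ≤ φ (s n) := by
    intro n k
    induction k with
    | zero => simp [dself]
    | succ k ih =>
      have h1 := hstep (n + k)
      have h2 := dt (s n) (s (n + k)) (s (n + (k + 1)))
      have h3 : κ * d (s n) (s (n + (k+1))) ≤ κ * d (s n) (s (n+k)) + κ * d (s (n+k)) (s (n+(k+1))) := by
        rw [← mul_add]; exact mul_le_mul_of_nonneg_left h2 hκ.le
      have h4 : n + k + 1 = n + (k + 1) := by ring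
      rw [h4] at h1
      linarith
  have hsum : Summable (fun n => d (s n) (s (n+1))) := by
    refine summable_of_sum_range_le (c := φ m0 / κ) (fun n => dn _ _) fun n => ?_
    have h1 : κ * ∑ i ∈ Finset.range n, d (s i) (s (i+1)) ≤ φ m0 - φ (s n) := by
      induction n with
      | zero => simp [hs0]
      | succ n ih =>
        rw [Finset.sum_range_succ, mul_add]
        have := hstep n
        linarith
    rw [le_div_iff₀ hκ]
    have := φn (s n)
    linarith
  obtain ⟨m, hm⟩ := comp s hsum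
  have hlim : ∀ n, φ m + κ * d (s n) m ≤ φ (s n) := by
    intro n
    have h1 : ∀ k, φ m + κ * d (s n) m ≤ φ (s n) + (κ + 1) * d (s (n + k)) m := by
      intro k
      have h2 := hdist n k
      have h3 := φl' (s (n+k)) m
      have h4 := dt (s n) (s (n+k)) m
      have h5 : κ * d (s n) m ≤ κ * d (s n) (s (n+k)) + κ * d (s (n+k)) m := by
        rw [← mul_add]; exact mul_le_mul_of_nonneg_left h4 hκ.le
      linarith
    have h2 : Tendsto (fun k => φ (s n) + (κ + 1) * d (s (n + k)) m) atTop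
        (𝓝 (φ (s n) + (κ + 1) * 0)) := by
      refine tendsto_const_nhds.add (tendsto_const_nhds.mul ?_)
      exact hm.comp (tendsto_add_atTop_nat n |>.congr (fun k => by ring))
    have h3 := ge_of_tendsto' h2 h1
    simpa using h3
  refine ⟨m, ?_, ?_⟩
  · have h1 := hlim 0
    rw [hs0] at h1
    have := φn m
    linarith
  · intro m'
    by_contra hcon
    push Not at hcon
    have h1 : ∀ n, φ m' + κ * d (s n) m' ≤ φ (s n) := by
      intro n
      have h2 := dt (s n) m m'
      have h3 : κ * d (s n) m' ≤ κ * d (s n) m + κ * d m m' := by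
        rw [← mul_add]; exact mul_le_mul_of_nonneg_left h2 hκ.le
      have := hlim n
      linarith
    have h2 : ∀ n, φ m ≤ φ m' + (1/2 : ℝ)^n := by
      intro n
      have h3 := hn2 n (s n) m' (h1 n)
      rw [← hs1] at h3
      have h4 := hlim (n+1)
      have h5 := mul_nonneg hκ.le (dn (s (n+1)) m)
      linarith
    have h3 : Tendsto (fun n : ℕ => φ m' + (1/2 : ℝ)^n) atTop (𝓝 (φ m' + 0)) :=
      tendsto_const_nhds.add (tendsto_pow_atTop_nhds_zero_of_lt_one (by norm_num) (by norm_num))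
    have h4 := ge_of_tendsto' h3 h2
    have h5 := mul_nonneg hκ.le (dn m m')
    linarith

theorem numeric (q : ℕ) (hq : 1 ≤ q) (u N κ K : ℝ) (g : ℕ → ℝ) (hu : 0 ≤ u) (hN : 0 ≤ N)
    (hκ : 0 ≤ κ) (hK : 1 ≤ K)
    (hg1 : ∀ i, g i ≤ ((q - 1 : ℕ) : ℝ) ^ i * N) (hg2 : ∀ i, g i ≤ K ^ i * u)
    (h : ∀ k, (q : ℝ) ^ k * u ≤ g k + κ * ∑ i ∈ Finset.range (k+1), (q : ℝ) ^ (k - i) * g i)
    (n : ℕ) :
    u ≤ κ * (n * K ^ n * u + (((q - 1 : ℕ) : ℝ) / q) ^ n * (q * N)) := by
  have hq0 : (0 : ℝ) < q := by exact_mod_cast hq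
  have hq1 : (1 : ℝ) ≤ q := by exact_mod_cast hq
  set θ : ℝ := ((q - 1 : ℕ) : ℝ) / q with hθ
  have hθ0 : 0 ≤ θ := by positivity
  have hqq : ((q - 1 : ℕ) : ℝ) = q - 1 := by
    rw [Nat.cast_sub hq]; simp
  have hθ1 : θ < 1 := by
    rw [hθ, div_lt_one hq0, hqq]; linarith
  have hθq : (1 - θ)⁻¹ = q := by
    rw [hθ, hqq]
    field_simp
    ring
  -- divided inequality
  have h1 : ∀ i, g i / (q : ℝ)^i ≤ θ^i * N := by
    intro i
    rw [div_le_iff₀ (by positivity), hθ, div_pow]
    have := hg1 i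
    calc g i ≤ ((q - 1 : ℕ) : ℝ) ^ i * N := this
      _ = ((q - 1 : ℕ) : ℝ) ^ i / (q:ℝ)^i * N * (q:ℝ)^i := by field_simp
  have h2 : ∀ i, i < n → g i / (q : ℝ)^i ≤ K ^ n * u := by
    intro i hi
    rw [div_le_iff₀ (by positivity)]
    calc g i ≤ K^i * u := hg2 i
      _ ≤ K^n * u := by gcongr
      _ = K^n * u * 1 := by ring
      _ ≤ K^n * u * (q:ℝ)^i := by
        apply mul_le_mul_of_nonneg_left (one_le_pow₀ hq1)
        positivity
  have h3 : ∀ k, u ≤ θ^k * N + κ * ∑ i ∈ Finset.range (k+1), g i / (q : ℝ)^i := by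
    intro k
    have h4 := h k
    have h5 : u = ((q : ℝ)^k * u) / (q:ℝ)^k := by field_simp
    rw [h5]
    calc ((q : ℝ)^k * u) / (q:ℝ)^k ≤
        (g k + κ * ∑ i ∈ Finset.range (k+1), (q : ℝ) ^ (k - i) * g i) / (q:ℝ)^k := by gcongr
      _ = g k / (q:ℝ)^k + κ * ∑ i ∈ Finset.range (k+1), g i / (q : ℝ)^i := by
        rw [add_div, mul_div_assoc, Finset.sum_div]
        congr 2
        refine Finset.sum_congr rfl fun i hi => ?_
        have hi' := Finset.mem_range.1 hi
        have : (q:ℝ)^k = (q:ℝ)^(k-i) * (q:ℝ)^i := by rw [← pow_add]; congr 1; omega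
        rw [this]
        field_simp
      _ ≤ _ := by gcongr; exact h1 k
  have h4 : ∀ k, ∑ i ∈ Finset.range (k+1), g i / (q : ℝ)^i ≤ n * K^n * u + θ^n * (q * N) := by
    intro k
    calc ∑ i ∈ Finset.range (k+1), g i / (q : ℝ)^i
        ≤ ∑ i ∈ Finset.range (k+1), ((if i < n then K^n * u else 0) +
          (if n ≤ i then θ^i * N else 0)) := by
          refine Finset.sum_le_sum fun i _ => ?_
          by_cases hi : i < n
          · rw [if_pos hi, if_neg (by omega), add_zero]; exact h2 i hi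
          · rw [if_neg hi, if_pos (by omega), zero_add]; exact h1 i
      _ = ∑ i ∈ Finset.range (k+1), (if i < n then K^n * u else 0) +
          ∑ i ∈ Finset.range (k+1), (if n ≤ i then θ^i * N else 0) := Finset.sum_add_distrib
      _ ≤ n * (K^n * u) + θ^n * (q * N) := by
          apply add_le_add
          · rw [← Finset.sum_filter, Finset.sum_const, nsmul_eq_mul]
            apply mul_le_mul_of_nonneg_right _ (by positivity)
            have : (Finset.range (k+1)).filter (fun i => i < n) ⊆ Finset.range n := by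
              intro i hi
              simp only [Finset.mem_filter] at hi
              exact Finset.mem_range.2 hi.2
            have := Finset.card_le_card this
            rw [Finset.card_range] at this
            exact_mod_cast this
          · have hsum : Summable (fun i => if n ≤ i then θ^i * N else 0) := by
              refine Summable.of_nonneg_of_le (fun i => ?_) (fun i => ?_)
                ((summable_geometric_of_lt_one hθ0 hθ1).mul_right N)
              · split_ifs <;> positivity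
              · split_ifs
                · exact le_rfl
                · positivity
            calc ∑ i ∈ Finset.range (k+1), (if n ≤ i then θ^i * N else 0)
                ≤ ∑' i, (if n ≤ i then θ^i * N else 0) :=
                  hsum.sum_le_tsum _ (fun i _ => by split_ifs <;> positivity)
              _ = ∑ i ∈ Finset.range n, (if n ≤ i then θ^i * N else 0) +
                  ∑' i, (if n ≤ i + n then θ^(i + n) * N else 0) :=
                  (hsum.sum_add_tsum_nat_add n).symm
              _ = ∑' i, θ^i * (θ^n * N) := by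
                  rw [Finset.sum_eq_zero, zero_add]
                  · refine tsum_congr fun i => ?_
                    rw [if_pos (by omega), pow_add]; ring
                  · intro i hi
                    rw [if_neg]
                    have := Finset.mem_range.1 hi
                    omega
              _ = (1 - θ)⁻¹ * (θ^n * N) := by
                  rw [tsum_mul_right, tsum_geometric_of_lt_one hθ0 hθ1]
              _ = θ^n * (q * N) := by rw [hθq]; ring
      _ = _ := by ring
  have h5 : ∀ k, u ≤ θ^k * N + κ * (n * K^n * u + θ^n * (q * N)) := by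
    intro k
    have h6 := h3 k
    have h7 := mul_le_mul_of_nonneg_left (h4 k) hκ
    linarith
  have h6 : Tendsto (fun k : ℕ => θ^k * N + κ * (n * K^n * u + θ^n * (q * N))) atTop
      (𝓝 (0 * N + κ * (n * K^n * u + θ^n * (q * N)))) :=
    ((tendsto_pow_atTop_nhds_zero_of_lt_one hθ0 hθ1).mul_const N).add tendsto_const_nhds
  have h7 := ge_of_tendsto' h6 h5
  simpa using h7

theorem exists_qi {X : Type*} [MeasurableSpace X] {L : Type*} [Fintype L] (ρ : L → X → X)
    (hρ : ∀ l, Measurable (ρ l)) (μ : Measure X) [IsFiniteMeasure μ] :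
    ∃ (ν : Measure X) (K : ℝ≥0∞), IsFiniteMeasure ν ∧ K ≠ ∞ ∧ μ ≤ ν ∧
      ∀ l Z, MeasurableSet Z → ν (ρ l ⁻¹' Z) ≤ K * ν Z := by
  classical
  set c : ℝ≥0∞ := (2 * (Fintype.card L + 1 : ℕ))⁻¹ with hc
  have hc0 : c ≠ 0 := by
    rw [hc, ENNReal.inv_ne_zero]
    exact ENNReal.mul_ne_top (by norm_num) (ENNReal.natCast_ne_top _)
  have hcinv : c⁻¹ = 2 * (Fintype.card L + 1 : ℕ) := by rw [hc, inv_inv]
  have hcinv' : c⁻¹ ≠ ∞ := by
    rw [hcinv]; exact ENNReal.mul_ne_top (by norm_num) (ENNReal.natCast_ne_top _)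
  have hctop : c ≠ ∞ := by
    rw [hc, ENNReal.inv_ne_top]
    simp
  set μs : ℕ → Measure X := fun n => Nat.rec μ (fun _ m => c • ∑ l, m.map (ρ l)) n with hμs
  have h0 : μs 0 = μ := rfl
  have h1 : ∀ n, μs (n+1) = c • ∑ l, (μs n).map (ρ l) := fun n => rfl
  have hcard : c * (Fintype.card L : ℝ≥0∞) ≤ 2⁻¹ := by
    have h2 : c * (2 * (Fintype.card L + 1 : ℕ)) = 1 := by
      rw [← hcinv]; exact ENNReal.mul_inv_cancel hc0 hctop
    have h3 : c * (Fintype.card L : ℝ≥0∞) * 2 ≤ 1 := by
      calc c * (Fintype.card L : ℝ≥0∞) * 2 = c * (2 * (Fintype.card L : ℝ≥0∞)) := by ring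
        _ ≤ c * (2 * (Fintype.card L + 1 : ℕ)) := by
          gcongr
          exact_mod_cast Nat.le_succ _
        _ = 1 := h2
    rw [← one_div, ENNReal.le_div_iff_mul_le (by simp) (by simp)]
    exact h3
  have hmass : ∀ n, μs n univ ≤ (2⁻¹ : ℝ≥0∞)^n * μ univ := by
    intro n
    induction n with
    | zero => simp [h0]
    | succ n ih =>
      rw [h1, Measure.smul_apply, Measure.finsetSum_apply]
      have h2 : ∑ l, (μs n).map (ρ l) univ = Fintype.card L * μs n univ := by
        have : ∀ l, (μs n).map (ρ l) univ = μs n univ := by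
          intro l
          rw [Measure.map_apply (hρ l) MeasurableSet.univ, preimage_univ]
        simp [this]
      rw [h2, smul_eq_mul, ← mul_assoc, pow_succ']
      calc c * (Fintype.card L : ℝ≥0∞) * μs n univ ≤ 2⁻¹ * ((2⁻¹ : ℝ≥0∞)^n * μ univ) := by
            gcongr
        _ = _ := by ring
  set ν : Measure X := Measure.sum μs with hν
  have hfin : ν univ < ∞ := by
    rw [hν, Measure.sum_apply _ MeasurableSet.univ]
    calc ∑' n, μs n univ ≤ ∑' n : ℕ, (2⁻¹ : ℝ≥0∞)^n * μ univ := ENNReal.tsum_le_tsum hmass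
      _ = (∑' n : ℕ, (2⁻¹ : ℝ≥0∞)^n) * μ univ := ENNReal.tsum_mul_right
      _ = 2 * μ univ := by
        rw [ENNReal.tsum_geometric, ENNReal.one_sub_inv_two, inv_inv]
      _ < ∞ := ENNReal.mul_lt_top (by norm_num) (measure_lt_top μ _)
  refine ⟨ν, c⁻¹, ⟨hfin⟩, hcinv', ?_, ?_⟩
  · rw [Measure.le_iff]
    intro Z hZ
    rw [hν, Measure.sum_apply _ hZ]
    calc μ Z = μs 0 Z := rfl
      _ ≤ ∑' n, μs n Z := ENNReal.le_tsum 0
  · intro l Z hZ
    rw [hν, Measure.sum_apply _ (hρ l hZ), Measure.sum_apply _ hZ]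
    have h2 : ∀ n, μs n (ρ l ⁻¹' Z) ≤ c⁻¹ * μs (n+1) Z := by
      intro n
      rw [h1, Measure.smul_apply, Measure.finsetSum_apply, smul_eq_mul, ← mul_assoc,
        ENNReal.inv_mul_cancel hc0 hctop, one_mul]
      calc μs n (ρ l ⁻¹' Z) = (μs n).map (ρ l) Z := by rw [Measure.map_apply (hρ l) hZ]
        _ ≤ _ := Finset.single_le_sum (f := fun l => (μs n).map (ρ l) Z)
          (fun _ _ => zero_le) (Finset.mem_univ l)
    calc ∑' n, μs n (ρ l ⁻¹' Z) ≤ ∑' n, c⁻¹ * μs (n+1) Z := ENNReal.tsum_le_tsum h2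
      _ = c⁻¹ * ∑' n, μs (n+1) Z := ENNReal.tsum_mul_left
      _ ≤ c⁻¹ * ∑' n, μs n Z := by
        refine mul_le_mul_right ?_ _
        exact ENNReal.tsum_comp_le_tsum_of_injective (add_left_injective 1) (fun n => μs n Z)

end C314
end

section

/-!
# The measurable matching theorem
-/

open MeasureTheory Set Filter Topology
open scoped ENNReal

namespace C314

variable {X Y : Type*} [MeasurableSpace X] [StandardBorelSpace X] [MeasurableSpace Y]
  [StandardBorelSpace Y] {q : ℕ}

namespace PM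

variable {S : Sys X Y q} (M : PM S)

theorem uncovered_le (hq : 1 ≤ q) (ν : Measure X) [IsFiniteMeasure ν] (K' : ℝ≥0∞) (hK' : K' ≠ ∞)
    (hqi : ∀ i, ∀ j < q, ∀ Z, MeasurableSet Z → ν (S.pts i j ⁻¹' Z) ≤ K' * ν Z)
    (κ : ℝ) (hκ : 0 ≤ κ)
    (hopt : ∀ M' : PM S, ν.real M.U ≤ ν.real M'.U + κ * ν.real {x | M.m x ≠ M'.m x}) (n : ℕ) :
    ν.real M.U ≤ κ * (n * (max 1 (q * ((q + 1) * q * K').toReal)) ^ n * ν.real M.U +
      (((q - 1 : ℕ) : ℝ) / q) ^ n * (q * ν.real univ)) := by
  have hopt' : ∀ M' : PM S, ν M.U ≤ ν M'.U + ENNReal.ofReal κ * ν {x | M.m x ≠ M'.m x} := by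
    intro M'
    have h1 := hopt M'
    have hfin : ν M'.U + ENNReal.ofReal κ * ν {x | M.m x ≠ M'.m x} ≠ ∞ :=
      ENNReal.add_ne_top.2 ⟨measure_ne_top ν _, ENNReal.mul_ne_top ENNReal.ofReal_ne_top
        (measure_ne_top ν _)⟩
    rw [← ENNReal.toReal_le_toReal (measure_ne_top ν _) hfin,
      ENNReal.toReal_add (measure_ne_top ν _) (ENNReal.mul_ne_top ENNReal.ofReal_ne_top
        (measure_ne_top ν _)), ENNReal.toReal_mul, ENNReal.toReal_ofReal hκ]
    exact h1
  have hstar := M.star_avg ν (ENNReal.ofReal κ) hopt'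
  have hb1 : ∀ i, wsum i (fun s => M.mW s ν M.U) ≤ ((q - 1 : ℕ) : ℝ≥0∞) ^ i * ν univ := by
    intro i
    exact (wsum_mono i fun s _ => measure_mono (subset_univ _)).trans (M.wsum_mW_mass i ν)
  have hne : ∀ i, wsum i (fun s => M.mW s ν M.U) ≠ ∞ := fun i =>
    ne_top_of_le_ne_top (ENNReal.mul_ne_top (ENNReal.pow_ne_top (ENNReal.natCast_ne_top _))
      (measure_ne_top ν _)) (hb1 i)
  have hb2 : ∀ i, wsum i (fun s => M.mW s ν M.U) ≤
      ((q : ℝ≥0∞) * ((q + 1) * q * K')) ^ i * ν M.U := by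
    intro i
    calc wsum i (fun s => M.mW s ν M.U)
        ≤ wsum i (fun _ => (1 * ((q + 1) * q * K') ^ i) * ν M.U) := by
          refine wsum_mono i fun s hs => ?_
          have := M.mW_le ν K' hqi s 1 ν (fun Z _ => by rw [one_mul]) M.U M.measU
          rwa [hs] at this
      _ = (q : ℝ≥0∞)^i * ((1 * ((q + 1) * q * K') ^ i) * ν M.U) := wsum_const i _
      _ = _ := by rw [mul_pow (q : ℝ≥0∞)]; ring
  set g : ℕ → ℝ := fun i => (wsum i (fun s => M.mW s ν M.U)).toReal with hg
  set K : ℝ := max 1 (q * ((q + 1) * q * K').toReal) with hK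
  have hK1 : 1 ≤ K := le_max_left _ _
  have hKtop : (q + 1 : ℝ≥0∞) * q * K' ≠ ∞ :=
    ENNReal.mul_ne_top (ENNReal.mul_ne_top (by
      exact ENNReal.add_ne_top.2 ⟨ENNReal.natCast_ne_top _, by simp⟩)
      (ENNReal.natCast_ne_top _)) hK'
  refine numeric q hq (ν.real M.U) (ν.real univ) κ K g measureReal_nonneg measureReal_nonneg hκ hK1
    ?_ ?_ ?_ n
  · intro i
    have := ENNReal.toReal_mono (ENNReal.mul_ne_top (ENNReal.pow_ne_top
      (ENNReal.natCast_ne_top _)) (measure_ne_top ν _)) (hb1 i)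
    rw [ENNReal.toReal_mul, ENNReal.toReal_pow, ENNReal.toReal_natCast] at this
    exact this
  · intro i
    have := ENNReal.toReal_mono (ENNReal.mul_ne_top (ENNReal.pow_ne_top
      (ENNReal.mul_ne_top (ENNReal.natCast_ne_top _) hKtop)) (measure_ne_top ν _)) (hb2 i)
    rw [ENNReal.toReal_mul, ENNReal.toReal_pow, ENNReal.toReal_mul, ENNReal.toReal_natCast] at this
    refine this.trans ?_
    gcongr
    · exact le_max_right _ _
    · exact le_rfl
  · intro k
    have h1 := hstar k
    have hsumne : ∑ i ∈ Finset.range (k+1), (q : ℝ≥0∞) ^ (k - i) *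
        wsum i (fun s => M.mW s ν M.U) ≠ ∞ := by
      refine ENNReal.sum_ne_top.2 fun i _ => ?_
      exact ENNReal.mul_ne_top (ENNReal.pow_ne_top (ENNReal.natCast_ne_top _)) (hne i)
    have h2 := ENNReal.toReal_mono (ENNReal.add_ne_top.2 ⟨hne k,
      ENNReal.mul_ne_top ENNReal.ofReal_ne_top hsumne⟩) h1
    rw [ENNReal.toReal_mul, ENNReal.toReal_pow, ENNReal.toReal_natCast,
      ENNReal.toReal_add (hne k) (ENNReal.mul_ne_top ENNReal.ofReal_ne_top hsumne),
      ENNReal.toReal_mul, ENNReal.toReal_ofReal hκ, ENNReal.toReal_sum] at h2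
    · simp only [ENNReal.toReal_mul, ENNReal.toReal_pow, ENNReal.toReal_natCast] at h2
      exact h2
    · intro i _
      exact ENNReal.mul_ne_top (ENNReal.pow_ne_top (ENNReal.natCast_ne_top _)) (hne i)

omit [StandardBorelSpace X] [StandardBorelSpace Y] in
theorem complete (ν : Measure X) [IsFiniteMeasure ν] (s : ℕ → PM S)
    (hs : Summable (fun n => ν.real {x | (s n).m x ≠ (s (n+1)).m x})) :
    ∃ M : PM S, Tendsto (fun n => ν.real {x | (s n).m x ≠ M.m x}) atTop (𝓝 0) := by
  classical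
  set m : X → Option (Fin (q+1)) := fun x =>
    if h : ∃ i, ∀ᶠ n in atTop, (s n).m x = some i then some h.choose else none with hm
  have hsome : ∀ x i, m x = some i ↔ ∀ᶠ n in atTop, (s n).m x = some i := by
    intro x i
    simp only [hm]
    constructor
    · intro h
      split_ifs at h with h1
      rw [Option.some_inj] at h
      rw [← h]
      exact h1.choose_spec
    · intro h
      have h1 : ∃ i, ∀ᶠ n in atTop, (s n).m x = some i := ⟨i, h⟩
      rw [dif_pos h1, Option.some_inj]
      obtain ⟨n, h2, h3⟩ := (h.and h1.choose_spec).exists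
      rw [h2, Option.some_inj] at h3
      exact h3.symm
  have hmeas : ∀ i, MeasurableSet {x | m x = some i} := by
    intro i
    have : {x | m x = some i} = ⋃ N : ℕ, ⋂ n : ℕ, ⋂ (_ : N ≤ n), {x | (s n).m x = some i} := by
      ext x
      simp only [mem_ofPred_eq, hsome, mem_iUnion, mem_iInter, eventually_atTop]
    rw [this]
    exact MeasurableSet.iUnion fun N => MeasurableSet.iInter fun n => MeasurableSet.iInter fun _ =>
      (s n).meas i
  have hinj : ∀ x x' i i', m x = some i → m x' = some i' → S.y i x = S.y i' x' → x = x' := by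
    intro x x' i i' h h' hy
    rw [hsome] at h h'
    obtain ⟨n, h1, h2⟩ := (h.and h').exists
    exact (s n).inj x x' i i' h1 h2 hy
  refine ⟨⟨m, hmeas, hinj⟩, ?_⟩
  simp only
  set a : ℕ → ℝ≥0∞ := fun n => ν {x | (s n).m x ≠ (s (n+1)).m x} with ha
  have hasum : ∑' n, a n ≠ ∞ := by
    have h1 : ∀ n, a n = ENNReal.ofReal (ν.real {x | (s n).m x ≠ (s (n+1)).m x}) := by
      intro n
      rw [Measure.real, ENNReal.ofReal_toReal (measure_ne_top ν _)]
    rw [tsum_congr h1]
    exact hs.tsum_ofReal_ne_top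
  have htail := ENNReal.tendsto_sum_nat_add a hasum
  have hle : ∀ n, ν {x | (s n).m x ≠ m x} ≤ ∑' k, a (k + n) := by
    intro n
    have hsub : {x | (s n).m x ≠ m x} ⊆ ⋃ k, {x | (s (k + n)).m x ≠ (s (k + n + 1)).m x} := by
      intro x hx
      by_contra hcon
      simp only [mem_iUnion, mem_ofPred_eq, not_exists, not_not] at hcon
      apply hx
      have hconst : ∀ k, (s (k + n)).m x = (s n).m x := by
        intro k
        induction k with
        | zero => simp
        | succ k ih =>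
          have h1 := hcon k
          rw [show k + 1 + n = k + n + 1 by ring, ← h1, ih]
      have hev : ∀ᶠ k in atTop, (s k).m x = (s n).m x := by
        rw [eventually_atTop]
        refine ⟨n, fun k hk => ?_⟩
        have := hconst (k - n)
        rwa [Nat.sub_add_cancel hk] at this
      cases hn : (s n).m x with
      | some i =>
        symm
        rw [hsome]
        rw [hn] at hev
        exact hev
      | none =>
        rw [hn] at hev
        symm
        by_contra hne
        obtain ⟨i, hi⟩ := Option.ne_none_iff_exists'.1 hne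
        have h2 := (hsome x i).1 hi
        obtain ⟨k, h3, h4⟩ := (hev.and h2).exists
        rw [h3] at h4
        cases h4
    exact (measure_mono hsub).trans (measure_iUnion_le _)
  have h0 : Tendsto (fun n => ν {x | (s n).m x ≠ m x}) atTop (𝓝 0) :=
    tendsto_of_tendsto_of_tendsto_of_le_of_le tendsto_const_nhds htail (fun _ => zero_le) hle
  have := (ENNReal.tendsto_toReal (by simp : (0 : ℝ≥0∞) ≠ ∞)).comp h0
  rw [ENNReal.toReal_zero] at this
  exact this

/-- The empty matching. -/
def empty (S : Sys X Y q) : PM S where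
  m := fun _ => none
  meas := fun i => by simp
  inj := fun x x' i i' h => by cases h

end PM

/-- **Measurable matching theorem**: a Borel matching covering almost every vertex. -/
theorem Sys.exists_matching (S : Sys X Y q) (hq : 1 ≤ q) (μ : Measure X) [IsFiniteMeasure μ] :
    ∃ M : PM S, μ M.U = 0 := by
  classical
  obtain ⟨ν, K', hνfin, hK'top, hμν, hqi0⟩ := exists_qi
    (fun l : Fin (q+1) × Fin q => S.pts l.1 l.2) (fun l => S.meas_pts _ _) μ
  have hqi : ∀ i, ∀ j < q, ∀ Z, MeasurableSet Z → ν (S.pts i j ⁻¹' Z) ≤ K' * ν Z :=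
    fun i j hj Z hZ => hqi0 (i, ⟨j, hj⟩) Z hZ
  set K : ℝ := max 1 (q * ((q + 1) * q * K').toReal) with hK
  have hK1 : 1 ≤ K := le_max_left _ _
  have hK0 : 0 < K := by linarith
  set N : ℝ := ν.real univ with hN
  have hN0 : 0 ≤ N := measureReal_nonneg
  set θ : ℝ := ((q - 1 : ℕ) : ℝ) / q with hθ
  have hq0 : (0 : ℝ) < q := by exact_mod_cast hq
  have hq1 : (1 : ℝ) ≤ q := by exact_mod_cast hq
  have hθ0 : 0 ≤ θ := by positivity
  have hθ1 : θ < 1 := by
    rw [hθ, div_lt_one hq0, Nat.cast_sub hq]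
    simp
  set κ : ℕ → ℝ := fun n => 1 / (2 * (n + 1) * K ^ n) with hκ
  have hκ0 : ∀ n, 0 < κ n := fun n => by rw [hκ]; positivity
  set d : PM S → PM S → ℝ := fun M M' => ν.real {x | M.m x ≠ M'.m x} with hd
  set φ : PM S → ℝ := fun M => ν.real M.U with hφ
  have dn : ∀ m m', 0 ≤ d m m' := fun m m' => measureReal_nonneg
  have dself : ∀ m, d m m = 0 := fun m => by simp [hd]
  have dt : ∀ a b c, d a c ≤ d a b + d b c := by
    intro a b c
    simp only [hd]
    refine (measureReal_mono ?_ (measure_ne_top ν _)).trans (measureReal_union_le _ _)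
    intro x hx
    by_cases h : a.m x = b.m x
    · right
      simp only [mem_ofPred_eq] at hx ⊢
      rwa [← h]
    · left; exact h
  have φl' : ∀ m m', φ m' ≤ φ m + d m m' := by
    intro m m'
    simp only [hd, hφ]
    refine (measureReal_mono ?_ (measure_ne_top ν _)).trans (measureReal_union_le _ _)
    intro x hx
    by_cases h : m.m x = m'.m x
    · left
      simp only [PM.U, mem_ofPred_eq] at hx ⊢
      rwa [h]
    · right; exact h
  have hek : ∀ (n : ℕ) (M : PM S), ∃ M1 : PM S, κ n * d M M1 ≤ φ M ∧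
      ∀ M', φ M1 ≤ φ M' + κ n * d M1 M' := fun n M =>
    ekeland d φ dn dself dt (fun m => measureReal_nonneg) φl' (fun s hs => PM.complete ν s hs)
      (κ n) (hκ0 n) M
  choose ek hek1 hek2 using hek
  set s : ℕ → PM S := fun n => Nat.rec (PM.empty S) (fun k M => ek (k+1) M) n with hs
  have hs0 : s 0 = PM.empty S := rfl
  have hs1 : ∀ n, s (n+1) = ek (n+1) (s n) := fun n => rfl
  have hphi : ∀ n, φ (s n) ≤ 2 * κ n * θ^n * (q * N) := by
    intro n
    cases n with
    | zero =>
      have h1 : φ (s 0) ≤ N := measureReal_mono (subset_univ _) (measure_ne_top ν _)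
      have h2 : 2 * κ 0 * θ^0 * (q * N) = q * N := by simp [hκ]
      rw [h2]
      nlinarith
    | succ n =>
      have h1 := (s (n+1)).uncovered_le hq ν K' hK'top hqi (κ (n+1)) (hκ0 _).le
        (by rw [hs1]; exact hek2 (n+1) (s n)) (n+1)
      have h2 : κ (n+1) * (((n+1 : ℕ) : ℝ) * K^(n+1)) ≤ 1/2 := by
        simp only [hκ]
        rw [div_mul_eq_mul_div, one_mul, div_le_div_iff₀ (by positivity) (by norm_num)]
        push_cast
        have : 0 < K^(n+1) := by positivity
        nlinarith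
      have h3 : 0 ≤ φ (s (n+1)) := measureReal_nonneg
      have h4 : φ (s (n+1)) ≤ κ (n+1) * (((n+1 : ℕ) : ℝ) * K^(n+1)) * φ (s (n+1)) +
          κ (n+1) * (θ^(n+1) * (q * N)) := by
        calc φ (s (n+1)) ≤ κ (n+1) * (((n+1 : ℕ) : ℝ) * K^(n+1) * φ (s (n+1)) +
            θ^(n+1) * (q * N)) := h1
          _ = _ := by ring
      have h5 := mul_le_mul_of_nonneg_right h2 h3
      have h6 : φ (s (n+1)) ≤ 2 * (κ (n+1) * (θ^(n+1) * (q * N))) := by linarith
      calc φ (s (n+1)) ≤ 2 * (κ (n+1) * (θ^(n+1) * (q * N))) := h6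
        _ = _ := by ring
  have hdist : ∀ n, d (s n) (s (n+1)) ≤ (4 * K * (q * N)) * θ^n := by
    intro n
    have h1 : κ (n+1) * d (s n) (s (n+1)) ≤ φ (s n) := by rw [hs1]; exact hek1 (n+1) (s n)
    have h2 := hphi n
    have h3 : κ n ≤ 2 * K * κ (n+1) := by
      simp only [hκ]
      push_cast
      rw [mul_one_div, div_le_div_iff₀ (by positivity) (by positivity)]
      have h4 : 0 < K^n := by positivity
      have h5 : (n : ℝ) ≥ 0 := Nat.cast_nonneg n
      have h6 : K^(n+1) = K * K^n := by ring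
      rw [h6]
      have h7 : 0 < K * K^n := by positivity
      nlinarith
    have h4 : κ (n+1) * d (s n) (s (n+1)) ≤ κ (n+1) * ((4 * K * (q * N)) * θ^n) := by
      calc κ (n+1) * d (s n) (s (n+1)) ≤ 2 * κ n * θ^n * (q * N) := h1.trans h2
        _ ≤ 2 * (2 * K * κ (n+1)) * θ^n * (q * N) := by gcongr
        _ = _ := by ring
    exact le_of_mul_le_mul_left h4 (hκ0 _)
  have hsum : Summable (fun n => d (s n) (s (n+1))) :=
    Summable.of_nonneg_of_le (fun n => dn _ _) hdist
      ((summable_geometric_of_lt_one hθ0 hθ1).mul_left _)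
  obtain ⟨M, hM⟩ := PM.complete ν s hsum
  refine ⟨M, ?_⟩
  have hφM : φ M ≤ 0 := by
    have h1 : ∀ n, φ M ≤ (q * N) * θ^n + d (s n) M := by
      intro n
      have h2 := φl' (s n) M
      have h3 := hphi n
      have h4 : κ n ≤ 1/2 := by
        simp only [hκ]
        rw [div_le_div_iff₀ (by positivity) (by norm_num)]
        have h5 : (1 : ℝ) ≤ K^n := one_le_pow₀ hK1
        have h6 : (0 : ℝ) ≤ n := Nat.cast_nonneg n
        nlinarith
      have h5 : 2 * κ n * θ^n * (q * N) ≤ (q * N) * θ^n := by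
        have h6 : 0 ≤ θ^n * (q * N) := by positivity
        nlinarith
      linarith
    have h2 : Tendsto (fun n => (q * N) * θ^n + d (s n) M) atTop (𝓝 ((q * N) * 0 + 0)) :=
      (tendsto_const_nhds.mul (tendsto_pow_atTop_nhds_zero_of_lt_one hθ0 hθ1)).add hM
    have h3 := ge_of_tendsto' h2 h1
    simpa using h3
  have hν : ν M.U = 0 := by
    have h1 : ν.real M.U = 0 := le_antisymm hφM measureReal_nonneg
    rwa [measureReal_eq_zero_iff] at h1
  exact le_antisymm ((hμν M.U).trans hν.le) (zero_le)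

end C314
end
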