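import Pool.Agent.Lib.MP_314673_lc.Flip

/-!
# Countable Borel pieces, adjoint measures and the main inequality for `κ`-optimal matchings
-/

open MeasureTheory Set
open scoped ENNReal

namespace C314

section Cover

variable {X : Type*} [MeasurableSpace X] [StandardBorelSpace X]

theorem exists_cover (H : Set (X → X)) (hfin : H.Finite) (hm : ∀ h ∈ H, Measurable h) :
    ∃ P : ℚ × ℚ → Set X, (∀ n, MeasurableSet (P n)) ∧ (∀ x, ∃ n, x ∈ P n) ∧
      ∀ n, ∀ x ∈ P n, ∀ h ∈ H, h x ∈ P n → h x = x := by
  classical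
  set ι := embeddingReal X with hι
  have hιm : Measurable ι := measurable_embeddingReal X
  have hιi : Function.Injective ι := (measurableEmbedding_embeddingReal X).injective
  refine ⟨fun n => {x | ι x ∈ Ioo (n.1 : ℝ) (n.2 : ℝ) ∧
    ∀ h ∈ H, ι (h x) ∈ Ioo (n.1 : ℝ) (n.2 : ℝ) → h x = x}, ?_, ?_, ?_⟩
  · intro n
    have e1 : {x | ι x ∈ Ioo (n.1 : ℝ) (n.2 : ℝ) ∧
        ∀ h ∈ H, ι (h x) ∈ Ioo (n.1 : ℝ) (n.2 : ℝ) → h x = x} =
        (ι ⁻¹' Ioo (n.1 : ℝ) (n.2 : ℝ)) ∩ ⋂ h ∈ H, ({x | ι (h x) ∈ Ioo (n.1 : ℝ) (n.2 : ℝ)}ᶜ ∪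
          {x | h x = x}) := by
      ext x
      simp only [mem_ofPred_eq, mem_inter_iff, mem_preimage, mem_iInter, mem_union, mem_compl_iff]
      constructor
      · rintro ⟨h1, h2⟩
        refine ⟨h1, fun h hh => ?_⟩
        by_cases h3 : ι (h x) ∈ Ioo (n.1 : ℝ) (n.2 : ℝ)
        · right; exact h2 h hh h3
        · left; exact h3
      · rintro ⟨h1, h2⟩
        refine ⟨h1, fun h hh h3 => ?_⟩
        rcases h2 h hh with h4 | h4
        · exact absurd h3 h4
        · exact h4
    simp only
    rw [e1]
    refine (hιm measurableSet_Ioo).inter (MeasurableSet.biInter hfin.countable fun h hh => ?_)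
    exact ((hιm.comp (hm h hh)) measurableSet_Ioo).compl.union
      (measurableSet_eq_fun (hm h hh) measurable_id)
  · intro x
    -- finite set of values
    set F : Set ℝ := (fun h => ι (h x)) '' {h ∈ H | h x ≠ x} with hF
    have hFfin : F.Finite := (hfin.subset (fun h hh => hh.1)).image _
    have hxF : ι x ∉ F := by
      rintro ⟨h, ⟨_, h2⟩, h3⟩
      exact h2 (hιi h3)
    have hopen : IsOpen Fᶜ := hFfin.isClosed.isOpen_compl
    obtain ⟨ε, hε, hball⟩ := Metric.isOpen_iff.1 hopen (ι x) hxF
    obtain ⟨a, ha1, ha2⟩ := exists_rat_btwn (show ι x - ε < ι x by linarith)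
    obtain ⟨b, hb1, hb2⟩ := exists_rat_btwn (show ι x < ι x + ε by linarith)
    refine ⟨(a, b), ⟨ha2, hb1⟩, ?_⟩
    intro h hh h3
    by_contra hne
    have h4 : ι (h x) ∈ F := ⟨h, ⟨hh, hne⟩, rfl⟩
    have h5 : ι (h x) ∈ Fᶜ := by
      apply hball
      rw [Metric.mem_ball, Real.dist_eq, abs_lt]
      constructor
      · have := h3.1; simp only at this; linarith
      · have := h3.2; simp only at this; linarith
    exact h5 h4
  · intro n x hx h hh h3
    exact hx.2 h hh h3.1

omit [StandardBorelSpace X] in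
theorem measure_list_le {α : Type*} (ν : Measure X) (A : α → Set X) (l : List α) :
    ν {x | ∃ t ∈ l, x ∈ A t} ≤ (l.map (fun t => ν (A t))).sum := by
  induction l with
  | nil => simp
  | cons a l ih =>
    have : {x | ∃ t ∈ a :: l, x ∈ A t} = A a ∪ {x | ∃ t ∈ l, x ∈ A t} := by
      ext x; simp
    rw [this, List.map_cons, List.sum_cons]
    exact (measure_union_le _ _).trans (by gcongr)

omit [StandardBorelSpace X] in
theorem measure_le_of_cover {ι : Type*} [Countable ι] [Nonempty ι] (ν η : Measure X)
    (P : ι → Set X) (hP : ∀ i, MeasurableSet (P i)) (U : Set X) (hU : MeasurableSet U)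
    (hcov : ∀ x ∈ U, ∃ i, x ∈ P i)
    (h : ∀ i C, MeasurableSet C → C ⊆ P i → C ⊆ U → ν C ≤ η C) : ν U ≤ η U := by
  obtain ⟨e, he⟩ := exists_surjective_nat ι
  set D : ℕ → Set X := disjointed (fun n => P (e n) ∩ U) with hD
  have hDm : ∀ n, MeasurableSet (D n) := fun n =>
    MeasurableSet.disjointed (fun n => (hP (e n)).inter hU) n
  have hDd : Pairwise (Function.onFun Disjoint D) := disjoint_disjointed _
  have hDU : ⋃ n, D n = U := by
    rw [hD, iUnion_disjointed]
    ext x
    simp only [mem_iUnion, mem_inter_iff]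
    constructor
    · rintro ⟨n, _, h1⟩; exact h1
    · intro hx
      obtain ⟨i, hi⟩ := hcov x hx
      obtain ⟨n, rfl⟩ := he i
      exact ⟨n, hi, hx⟩
  rw [← hDU, measure_iUnion hDd hDm, measure_iUnion hDd hDm]
  refine ENNReal.tsum_le_tsum fun n => ?_
  have hsub : D n ⊆ P (e n) ∩ U := disjointed_subset _ _
  exact h (e n) (D n) (hDm n) (hsub.trans inter_subset_left) (hsub.trans inter_subset_right)

end Cover

variable {X Y : Type*} [MeasurableSpace X] [StandardBorelSpace X] [MeasurableSpace Y]
  [StandardBorelSpace Y] {q : ℕ}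

/-- the (at most `q`) vertices sharing the endpoint of the edge `(v,i)` -/
def Sys.pts (S : Sys X Y q) (i : Fin (q+1)) (j : ℕ) (v : X) : X := (S.sec j (S.y i v)).1

omit [StandardBorelSpace X] [StandardBorelSpace Y] in
theorem Sys.meas_pts (S : Sys X Y q) (i : Fin (q+1)) (j : ℕ) : Measurable (S.pts i j) :=
  measurable_fst.comp ((S.sec_meas j).comp (S.hy i))

namespace PM

variable {S : Sys X Y q} (M : PM S)

/-- one step back -/
def bk (j : Fin q) (v : X) : X := (S.sec j (S.β (v, (M.m v).getD 0))).1

omit [StandardBorelSpace X] [StandardBorelSpace Y] in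
theorem meas_bk (j : Fin q) : Measurable (M.bk j) :=
  measurable_fst.comp ((S.sec_meas j).comp (S.meas_β.comp (measurable_id.prodMk M.meas_getD)))

/-- several steps back -/
def back : List (Fin q) → X → X
  | [], v => v
  | j :: js, v => back js (M.bk j v)

omit [StandardBorelSpace X] [StandardBorelSpace Y] in
theorem meas_back (js : List (Fin q)) : Measurable (M.back js) := by
  induction js with
  | nil => exact measurable_id
  | cons j js ih => exact ih.comp (M.meas_bk j)

omit [StandardBorelSpace X] [StandardBorelSpace Y] in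
theorem exists_back (t : List (Fin q)) : ∀ (x v : X), M.W t x = some v →
    ∃ js : List (Fin q), js.length = t.length ∧ M.back js v = x := by
  induction t with
  | nil =>
    intro x v h
    simp only [W, Option.some_inj] at h
    exact ⟨[], rfl, h.symm⟩
  | cons a t ih =>
    intro x v h
    simp only [W, Option.bind_eq_some_iff] at h
    obtain ⟨w, h1, h2⟩ := h
    obtain ⟨js, h3, h4⟩ := ih x w h1
    obtain ⟨i, h5, h6⟩ := M.T_eq_some.1 h2
    refine ⟨⟨S.rk (w, M.o a w), S.rk_lt _⟩ :: js, by simp [h3], ?_⟩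
    simp only [back]
    have h7 : M.bk ⟨S.rk (w, M.o a w), S.rk_lt _⟩ v = w := by
      unfold bk
      rw [h5]
      simp only [Option.getD_some]
      have h8 : S.β (v, i) = S.y (M.o a w) w := h6
      rw [h8, S.sec_rk (w, M.o a w)]
    rw [h7, h4]

/-- the conflict functions -/
noncomputable def conf (js : List (Fin q)) (j : Fin q) (a : Fin q) (t : List (Fin q)) (x : X) : X :=
  M.back js ((S.sec j (M.tg a ((M.W t x).getD x))).1)

omit [StandardBorelSpace X] in
theorem meas_conf (js : List (Fin q)) (j : Fin q) (a : Fin q) (t : List (Fin q)) :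
    Measurable (M.conf js j a t) :=
  (M.meas_back js).comp (measurable_fst.comp ((S.sec_meas j).comp
    ((M.meas_tg a).comp (M.meas_W_getD t))))

omit [StandardBorelSpace X] [StandardBorelSpace Y] in
theorem exists_conf {t t' : List (Fin q)} {a a' : Fin q} {x x' v v' : X} (h : M.W t x = some v)
    (h' : M.W t' x' = some v') (hy : M.tg a v = M.tg a' v') :
    ∃ (js : List (Fin q)) (j : Fin q), js.length = t'.length ∧ M.conf js j a t x = x' := by
  obtain ⟨js, h1, h2⟩ := M.exists_back t' x' v' h'
  refine ⟨js, ⟨S.rk (v', M.o a' v'), S.rk_lt _⟩, h1, ?_⟩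
  unfold conf
  rw [h]
  simp only [Option.getD_some]
  rw [hy]
  unfold tg
  rw [S.sec_rk (v', M.o a' v')]
  exact h2

/-- a valid reduced form of the walk along `s` -/
def Valid (s u : List (Fin q)) (e : Option (Fin q)) (x : X) : Prop :=
  M.W u x ≠ none ∧
  (∀ t t', t <:+ u → t' <:+ u → M.W t x = M.W t' x → t = t') ∧
  (∀ t, t <:+ u → ∃ t', t' <:+ s ∧ M.W t x = M.W t' x) ∧
  (e = none → M.W u x = M.W s x) ∧
  (∀ a, e = some a → M.W (a :: u) x = none)

omit [StandardBorelSpace X] in
theorem suffix_finite {α : Type*} (s : List α) : {t | t <:+ s}.Finite := by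
  have : {t | t <:+ s} = {t | t ∈ s.tails} := by
    ext t; simp [List.mem_tails]
  rw [this]
  exact List.finite_toSet _

theorem meas_Valid (s u : List (Fin q)) (e : Option (Fin q)) :
    MeasurableSet {x | M.Valid s u e x} := by
  have : {x | M.Valid s u e x} = {x | M.W u x = none}ᶜ ∩
      ((⋂ t ∈ {t | t <:+ u}, ⋂ t' ∈ {t | t <:+ u}, ({x | M.W t x = M.W t' x}ᶜ ∪
        {_x | t = t'})) ∩ ((⋂ t ∈ {t | t <:+ u}, ⋃ t' ∈ {t | t <:+ s}, {x | M.W t x = M.W t' x}) ∩
        ({x | e = none → M.W u x = M.W s x} ∩ ⋂ a, {x | e = some a → M.W (a :: u) x = none}))) := by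
    ext x
    simp only [Valid, mem_ofPred_eq, mem_inter_iff, mem_compl_iff, mem_iInter, mem_union,
      mem_iUnion, ne_eq, exists_prop]
    refine and_congr Iff.rfl (and_congr ?_ (and_congr Iff.rfl (and_congr Iff.rfl Iff.rfl)))
    constructor
    · intro h t ht t' ht'
      by_cases h1 : M.W t x = M.W t' x
      · right; exact h t t' ht ht' h1
      · left; exact h1
    · intro h t t' ht ht' h1
      rcases h t ht t' ht' with h2 | h2
      · exact absurd h1 h2
      · exact h2
  rw [this]
  refine (M.meas_W_none u).compl.inter (MeasurableSet.inter ?_ (MeasurableSet.inter ?_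
    (MeasurableSet.inter ?_ ?_)))
  · refine MeasurableSet.biInter (suffix_finite u).countable fun t _ =>
      MeasurableSet.biInter (suffix_finite u).countable fun t' _ => ?_
    exact (M.meas_W_eq t t').compl.union (MeasurableSet.const _)
  · exact MeasurableSet.biInter (suffix_finite u).countable fun t _ =>
      MeasurableSet.biUnion (suffix_finite s).countable fun t' _ => M.meas_W_eq t t'
  · by_cases he : e = none
    · simp only [he, true_imp_iff]; exact M.meas_W_eq u s
    · simp [he]
  · refine MeasurableSet.iInter fun a => ?_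
    by_cases he : e = some a
    · simp only [he, true_imp_iff]; exact M.meas_W_none (a :: u)
    · simp [he]

omit [StandardBorelSpace X] [StandardBorelSpace Y] in
theorem exists_Valid (s : List (Fin q)) (x : X) : ∃ u e, u.length ≤ s.length ∧
    (∀ a, e = some a → u.length + 1 ≤ s.length) ∧ M.Valid s u e x := by
  cases hs : M.W s x with
  | some v =>
    obtain ⟨u, h1, h2, h3, h4⟩ := M.exists_reduct x s.length s v rfl hs
    refine ⟨u, none, h1, by simp, ?_, h4, h3, ?_, by simp⟩
    · rw [h2]; simp
    · intro _; rw [h2, hs]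
  | none =>
    -- the first time at which the walk is undefined
    have key : ∀ s : List (Fin q), M.W s x = none → ∃ a t v, (a :: t) <:+ s ∧
        M.W t x = some v ∧ M.T a v = none := by
      intro s
      induction s with
      | nil => intro h; simp [W] at h
      | cons a s ih =>
        intro h
        cases h1 : M.W s x with
        | none =>
          obtain ⟨b, t, v, h2, h3, h4⟩ := ih h1
          exact ⟨b, t, v, h2.trans (List.suffix_cons a s), h3, h4⟩
        | some v =>
          refine ⟨a, s, v, List.suffix_rfl, h1, ?_⟩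
          simp only [W, h1, Option.bind_some] at h
          exact h
    obtain ⟨a, t, v, h1, h2, h3⟩ := key s hs
    obtain ⟨u, k1, k2, k3, k4⟩ := M.exists_reduct x t.length t v rfl h2
    have hlen := h1.length_le
    simp only [List.length_cons] at hlen
    refine ⟨u, some a, by omega, ?_, ?_, k4, ?_, by simp, ?_⟩
    · intro _ _; omega
    · rw [k2]; simp
    · intro t0 ht0
      obtain ⟨t', ht', h5⟩ := k3 t0 ht0
      exact ⟨t', ht'.trans ((List.suffix_cons a t).trans h1), h5⟩
    · intro b hb
      rw [Option.some_inj] at hb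
      subst hb
      simp only [W, k2, Option.bind_some]
      exact h3

omit [StandardBorelSpace X] in
/-- the piece inequality -/
theorem piece (ν : Measure X) [IsFiniteMeasure ν] (κ : ℝ≥0∞)
    (hopt : ∀ M' : PM S, ν M.U ≤ ν M'.U + κ * ν {x | M.m x ≠ M'.m x})
    (s u : List (Fin q)) (e : Option (Fin q)) (hu : u.length ≤ s.length)
    (P : Set X)
    (hP : ∀ x ∈ P, ∀ js j a t, js.length ≤ s.length → t.length ≤ s.length →
      M.conf js j a t x ∈ P → M.conf js j a t x = x)
    (C : Set X) (hC : MeasurableSet C) (hCP : C ⊆ P) (hCU : C ⊆ M.U)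
    (hCV : ∀ x ∈ C, M.Valid s u e x) :
    ν C ≤ ν (M.ImW s C) + κ * (s.tails.map (fun t => ν (M.ImW t C))).sum := by
  classical
  -- conflict freeness
  have hconf : ∀ x ∈ C, ∀ x' ∈ C, ∀ t t' a a' v v', t.length ≤ s.length → t'.length ≤ s.length →
      M.W t x = some v → M.W t' x' = some v' → M.tg a v = M.tg a' v' → x = x' := by
    intro x hx x' hx' t t' a a' v v' ht ht' h1 h2 h3
    obtain ⟨js, j, h4, h5⟩ := M.exists_conf h1 h2 h3
    have h6 := hP x (hCP hx) js j a t (by omega) ht (by rw [h5]; exact hCP hx')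
    rw [h5] at h6
    exact h6.symm
  have hcov : ∀ x ∈ C, ∀ a r x', M.W (a :: r) x' ≠ some x := by
    intro x hx a r x' h
    simp only [W, Option.bind_eq_some_iff] at h
    obtain ⟨w, h1, h2⟩ := h
    obtain ⟨j, h3, _⟩ := M.T_eq_some.1 h2
    have := hCU hx
    simp only [U, mem_ofPred_eq] at this
    rw [this] at h3
    cases h3
  have h2 : ∀ x ∈ C, ∀ x' ∈ C, ∀ t t', t <:+ u → t' <:+ u → M.W t x = M.W t' x' →
      x = x' ∧ t = t' := by
    intro x hx x' hx' t t' ht ht' heq
    have hxx : x = x' := by
      cases t with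
      | nil =>
        cases t' with
        | nil =>
          simp only [W, Option.some_inj] at heq
          exact heq
        | cons a' r' => exact absurd heq.symm (by simp only [W]; exact hcov x hx a' r' x')
      | cons a r =>
        cases t' with
        | nil => exact absurd heq (by simp only [W]; exact hcov x' hx' a r x)
        | cons a' r' =>
          have hne : M.W (a :: r) x ≠ none := M.W_suffix (hCV x hx).1 ht
          obtain ⟨w, hw⟩ := Option.ne_none_iff_exists'.1 hne
          have hw' : M.W (a' :: r') x' = some w := by rw [← heq, hw]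
          simp only [W, Option.bind_eq_some_iff] at hw hw'
          obtain ⟨v, k1, k2⟩ := hw
          obtain ⟨v', k1', k2'⟩ := hw'
          obtain ⟨j, l1, l2⟩ := M.T_eq_some.1 k2
          obtain ⟨j', l1', l2'⟩ := M.T_eq_some.1 k2'
          rw [l1, Option.some_inj] at l1'
          subst l1'
          have len1 := ht.length_le
          have len2 := ht'.length_le
          simp only [List.length_cons] at len1 len2
          exact hconf x hx x' hx' r r' a a' v v' (by omega) (by omega) k1 k1'
            (by rw [← l2, ← l2'])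
    refine ⟨hxx, ?_⟩
    subst hxx
    exact (hCV x hx).2.1 t t' ht ht' heq
  obtain ⟨M', hM1, hM2⟩ := M.flip u e C hC (fun x hx => (hCV x hx).1) h2
    (by
      intro a he x hx v hv w hw
      have h5 := (hCV x hx).2.2.2.2 a he
      simp only [W, hv, Option.bind_some] at h5
      exact M.T_eq_none.1 h5 w hw)
    (by
      intro a he x hx x' hx' v v' hv hv' hy
      exact hconf x hx x' hx' u u a a v v' hu hu hv hv' hy)
  -- estimates
  have hopt' := hopt M'
  have e1 : ν M'.U ≤ ν (M.U \ C) + ν (M.ImW s C) := by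
    refine (measure_mono ?_).trans (measure_union_le _ _)
    intro x hx
    rcases hM1 x hx with h | ⟨h, x', hx', h''⟩
    · left; exact h
    · right
      exact ⟨x', hx', by rw [← (hCV x' hx').2.2.2.1 h]; exact h''⟩
  have e2 : ν {x | M.m x ≠ M'.m x} ≤ (s.tails.map (fun t => ν (M.ImW t C))).sum := by
    have hsub : {x | M.m x ≠ M'.m x} ⊆ {x | ∃ t ∈ s.tails, x ∈ M.ImW t C} := by
      intro v hv
      obtain ⟨t, ht, x, hx, hxv⟩ := hM2 v hv
      obtain ⟨t', ht', h5⟩ := (hCV x hx).2.2.1 t ht
      simp only [List.mem_tails, mem_ofPred_eq]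
      exact ⟨t', ht', x, hx, by rw [← h5]; exact hxv⟩
    exact (measure_mono hsub).trans (measure_list_le ν _ _)
  have e3 : ν M.U = ν (M.U \ C) + ν C := by
    rw [← measure_sdiff_add_inter M.U hC]
    congr 2
    exact (inter_eq_right.2 hCU)
  rw [e3] at hopt'
  have e4 : ν (M.U \ C) + ν C ≤ ν (M.U \ C) + (ν (M.ImW s C) +
      κ * (s.tails.map (fun t => ν (M.ImW t C))).sum) := by
    calc ν (M.U \ C) + ν C ≤ ν M'.U + κ * ν {x | M.m x ≠ M'.m x} := hopt'
      _ ≤ (ν (M.U \ C) + ν (M.ImW s C)) + κ * (s.tails.map (fun t => ν (M.ImW t C))).sum := by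
        gcongr
      _ = _ := by rw [add_assoc]
  exact (ENNReal.add_le_add_iff_left (measure_ne_top ν _)).1 e4

end PM

end C314
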