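import Pool.Agent.Lib.MP_314673_lc.Enum

/-!
# Alternating walks of Borel matchings along words
-/

open MeasureTheory Set

namespace C314

/-- A multigraph between `X` and `Y`: every `x : X` has `q+1` labelled edges, going to the
vertices `y i x`; `rk`, `sec` is a Borel enumeration (with at most `q` values) of the fibres of
`(x,i) ↦ y i x`. -/
structure Sys (X Y : Type*) [MeasurableSpace X] [MeasurableSpace Y] (q : ℕ) where
  y : Fin (q+1) → X → Y
  hy : ∀ i, Measurable (y i)
  rk : X × Fin (q+1) → ℕ
  sec : ℕ → Y → X × Fin (q+1)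
  rk_meas : Measurable rk
  sec_meas : ∀ j, Measurable (sec j)
  sec_rk : ∀ p, sec (rk p) (y p.2 p.1) = p
  rk_lt : ∀ p, rk p < q

variable {X Y : Type*} [MeasurableSpace X] [StandardBorelSpace X] [MeasurableSpace Y]
  [StandardBorelSpace Y] {q : ℕ}

/-- Borel partial matchings. -/
structure PM (S : Sys X Y q) where
  m : X → Option (Fin (q+1))
  meas : ∀ i, MeasurableSet {x | m x = some i}
  inj : ∀ x x' i i', m x = some i → m x' = some i' → S.y i x = S.y i' x' → x = x'

namespace PM

variable {S : Sys X Y q} (M : PM S)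

/-- uncovered vertices -/
def U : Set X := {x | M.m x = none}

omit [StandardBorelSpace X] [StandardBorelSpace Y] in
theorem measU : MeasurableSet M.U := by
  have : M.U = (⋃ i, {x | M.m x = some i})ᶜ := by
    ext x
    simp only [U, mem_ofPred_eq, mem_compl_iff, mem_iUnion, not_exists]
    constructor
    · intro h i hi; rw [h] at hi; cases hi
    · intro h
      cases hx : M.m x with
      | none => rfl
      | some i => exact absurd hx (h i)
  rw [this]
  exact (MeasurableSet.iUnion fun i => M.meas i).compl

/-- the `a`-th index which is not used by the matching at `x` -/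
def o (a : Fin q) (x : X) : Fin (q+1) := ((M.m x).getD 0).succAbove a

omit [StandardBorelSpace X] [StandardBorelSpace Y] in
theorem o_ne {a : Fin q} {x : X} {i : Fin (q+1)} (h : M.m x = some i) : M.o a x ≠ i := by
  unfold o
  rw [h]
  exact Fin.succAbove_ne i a

omit [StandardBorelSpace X] [StandardBorelSpace Y] in
theorem o_inj {a b : Fin q} {x : X} (h : M.o a x = M.o b x) : a = b :=
  Fin.succAbove_right_injective h

omit [StandardBorelSpace X] [StandardBorelSpace Y] in
theorem meas_getD : Measurable (fun x => (M.m x).getD 0) := by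
  refine measurable_to_countable' fun i => ?_
  have : (fun x => (M.m x).getD 0) ⁻¹' {i} = {x | M.m x = some i} ∪
      (if i = 0 then M.U else ∅) := by
    ext x
    simp only [mem_preimage, mem_singleton_iff, mem_union, mem_ofPred_eq]
    cases hx : M.m x with
    | none =>
      simp only [Option.getD_none, reduceCtorEq, false_or]
      split_ifs with h
      · simp [U, hx, h]
      · simp [eq_comm, h]
    | some j =>
      simp only [Option.getD_some, Option.some_inj]
      split_ifs with h
      · simp [U, hx]
      · simp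
  rw [this]
  refine (M.meas i).union ?_
  split_ifs
  · exact M.measU
  · exact MeasurableSet.empty

omit [StandardBorelSpace X] [StandardBorelSpace Y] in
theorem meas_o (a : Fin q) : Measurable (M.o a) :=
  (measurable_of_countable (fun i : Fin (q+1) => i.succAbove a)).comp M.meas_getD

end PM

/-- The endpoint of the edge `p`. -/
def Sys.β (S : Sys X Y q) (p : X × Fin (q+1)) : Y := S.y p.2 p.1

omit [StandardBorelSpace X] [StandardBorelSpace Y] in
theorem Sys.meas_β (S : Sys X Y q) : Measurable S.β :=
  measurable_from_prod_countable_left fun i => S.hy i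

namespace PM

variable {S : Sys X Y q} (M : PM S)

/-- the target of the `a`-th unused edge at `x` -/
def tg (a : Fin q) (x : X) : Y := S.y (M.o a x) x

omit [StandardBorelSpace X] [StandardBorelSpace Y] in
theorem meas_tg (a : Fin q) : Measurable (M.tg a) := by
  have : M.tg a = S.β ∘ fun x => (x, M.o a x) := rfl
  rw [this]
  exact S.meas_β.comp (measurable_id.prodMk (M.meas_o a))

/-- one alternating step -/
def Step (a : Fin q) (x v : X) : Prop := ∃ j, M.m v = some j ∧ S.y j v = M.tg a x

omit [StandardBorelSpace X] [StandardBorelSpace Y] in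
theorem Step.unique {M : PM S} {a : Fin q} {x v v' : X} (h : M.Step a x v) (h' : M.Step a x v') :
    v = v' := by
  obtain ⟨j, h1, h2⟩ := h
  obtain ⟨j', h3, h4⟩ := h'
  exact M.inj v v' j j' h1 h3 (h2.trans h4.symm)

open Classical in
/-- the partial map of one alternating step -/
noncomputable def T (a : Fin q) (x : X) : Option X :=
  if h : ∃ v, M.Step a x v then some h.choose else none

omit [StandardBorelSpace X] [StandardBorelSpace Y] in
theorem T_eq_some {a : Fin q} {x v : X} : M.T a x = some v ↔ M.Step a x v := by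
  classical
  unfold T
  constructor
  · intro h
    split_ifs at h with h1
    rw [Option.some_inj] at h
    rw [← h]
    exact h1.choose_spec
  · intro h
    have h1 : ∃ v, M.Step a x v := ⟨v, h⟩
    rw [dif_pos h1, Option.some_inj]
    exact h1.choose_spec.unique h

omit [StandardBorelSpace X] [StandardBorelSpace Y] in
theorem T_eq_none {a : Fin q} {x : X} : M.T a x = none ↔ ∀ v, ¬ M.Step a x v := by
  rw [Option.eq_none_iff_forall_ne_some]
  constructor
  · intro h v hv
    exact h v (M.T_eq_some.2 hv)
  · intro h v hv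
    exact h v (M.T_eq_some.1 hv)

/-- The set of matched edges. -/
def E : Set (X × Fin (q+1)) := {p | M.m p.1 = some p.2}

omit [StandardBorelSpace X] [StandardBorelSpace Y] in
theorem measE : MeasurableSet M.E := by
  have : M.E = ⋃ i, {x | M.m x = some i} ×ˢ {i} := by
    ext ⟨x, i⟩
    simp only [E, mem_ofPred_eq, mem_iUnion, mem_prod, mem_singleton_iff]
    constructor
    · intro h; exact ⟨i, h, rfl⟩
    · rintro ⟨j, h, rfl⟩; exact h
  rw [this]
  exact MeasurableSet.iUnion fun i => (M.meas i).prod (measurableSet_singleton i)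

omit [StandardBorelSpace X] in
theorem meas_T (a : Fin q) (C : Set X) (hC : MeasurableSet C) :
    MeasurableSet {x | ∃ v ∈ C, M.T a x = some v} := by
  have : {x | ∃ v ∈ C, M.T a x = some v} = ⋃ j : ℕ, {x | S.sec j (M.tg a x) ∈ M.E ∧
      S.β (S.sec j (M.tg a x)) = M.tg a x ∧ (S.sec j (M.tg a x)).1 ∈ C} := by
    ext x
    simp only [mem_ofPred_eq, mem_iUnion]
    constructor
    · rintro ⟨v, hv, h⟩
      obtain ⟨j, h1, h2⟩ := M.T_eq_some.1 h
      refine ⟨S.rk (v, j), ?_⟩
      have h3 := S.sec_rk (v, j)
      simp only at h3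
      rw [← h2, h3]
      exact ⟨h1, rfl, hv⟩
    · rintro ⟨j, h1, h2, h3⟩
      exact ⟨_, h3, M.T_eq_some.2 ⟨_, h1, h2⟩⟩
  rw [this]
  refine MeasurableSet.iUnion fun j => ?_
  have h1 : Measurable fun x => S.sec j (M.tg a x) := (S.sec_meas j).comp (M.meas_tg a)
  exact (h1 M.measE).inter ((measurableSet_eq_fun (S.meas_β.comp h1) (M.meas_tg a)).inter
    ((measurable_fst.comp h1) hC))

/-- the alternating walk along a word (the head of the list is the last letter) -/
noncomputable def W : List (Fin q) → X → Option X
  | [], x => some x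
  | a :: s, x => (W s x).bind (M.T a)

omit [StandardBorelSpace X] [StandardBorelSpace Y] in
theorem W_append (p t : List (Fin q)) (x : X) : M.W (p ++ t) x = (M.W t x).bind (M.W p) := by
  induction p with
  | nil => simp [W]
  | cons a p ih => 
    simp only [List.cons_append, W, ih, Option.bind_assoc]

omit [StandardBorelSpace X] in
theorem meas_W (s : List (Fin q)) : ∀ (C : Set X), MeasurableSet C →
    MeasurableSet {x | ∃ v ∈ C, M.W s x = some v} := by
  induction s with
  | nil =>
    intro C hC
    have : {x | ∃ v ∈ C, M.W [] x = some v} = C := by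
      ext x
      simp only [W, mem_ofPred_eq, Option.some_inj]
      constructor
      · rintro ⟨v, hv, rfl⟩; exact hv
      · intro h; exact ⟨x, h, rfl⟩
    rw [this]; exact hC
  | cons a s ih =>
    intro C hC
    have : {x | ∃ v ∈ C, M.W (a :: s) x = some v} =
        {x | ∃ w ∈ {w | ∃ v ∈ C, M.T a w = some v}, M.W s x = some w} := by
      ext x
      simp only [W, mem_ofPred_eq, Option.bind_eq_some_iff]
      constructor
      · rintro ⟨v, hv, w, h1, h2⟩; exact ⟨w, ⟨v, hv, h2⟩, h1⟩
      · rintro ⟨w, ⟨v, hv, h2⟩, h1⟩; exact ⟨v, hv, w, h1, h2⟩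
    rw [this]
    exact ih _ (M.meas_T a C hC)

omit [StandardBorelSpace X] in
theorem meas_W_none (s : List (Fin q)) : MeasurableSet {x | M.W s x = none} := by
  have : {x | M.W s x = none} = {x | ∃ v ∈ (univ : Set X), M.W s x = some v}ᶜ := by
    ext x
    simp only [mem_ofPred_eq, mem_compl_iff, mem_univ, true_and, not_exists]
    rw [Option.eq_none_iff_forall_ne_some]
  rw [this]
  exact (M.meas_W s _ MeasurableSet.univ).compl

omit [StandardBorelSpace X] in
theorem meas_W_getD (s : List (Fin q)) : Measurable fun x => (M.W s x).getD x := by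
  intro C hC
  have : (fun x => (M.W s x).getD x) ⁻¹' C = {x | ∃ v ∈ C, M.W s x = some v} ∪
      ({x | M.W s x = none} ∩ C) := by
    ext x
    simp only [mem_preimage, mem_union, mem_ofPred_eq, mem_inter_iff]
    cases h : M.W s x with
    | none => simp
    | some v => simp
  rw [this]
  exact (M.meas_W s C hC).union ((M.meas_W_none s).inter hC)

theorem meas_W_eq (s t : List (Fin q)) : MeasurableSet {x | M.W s x = M.W t x} := by
  have : {x | M.W s x = M.W t x} = ({x | M.W s x = none} ∩ {x | M.W t x = none}) ∪
      (({x | M.W s x = none}ᶜ ∩ {x | M.W t x = none}ᶜ) ∩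
        {x | (M.W s x).getD x = (M.W t x).getD x}) := by
    ext x
    simp only [mem_union, mem_ofPred_eq, mem_inter_iff, mem_compl_iff]
    cases h : M.W s x with
    | none => cases h' : M.W t x with
      | none => simp
      | some v => simp
    | some w => cases h' : M.W t x with
      | none => simp
      | some v => simp
  rw [this]
  exact ((M.meas_W_none s).inter (M.meas_W_none t)).union
    (((M.meas_W_none s).compl.inter (M.meas_W_none t).compl).inter
      (measurableSet_eq_fun (M.meas_W_getD s) (M.meas_W_getD t)))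

/-- image under one step -/
def Im (a : Fin q) (Z : Set X) : Set X := {v | ∃ x ∈ Z, M.Step a x v}

/-- image under a walk -/
def ImW (s : List (Fin q)) (C : Set X) : Set X := {v | ∃ x ∈ C, M.W s x = some v}

omit [StandardBorelSpace X] [StandardBorelSpace Y] in
theorem ImW_nil (C : Set X) : M.ImW [] C = C := by
  ext x
  simp only [ImW, W, mem_ofPred_eq, Option.some_inj]
  constructor
  · rintro ⟨v, hv, rfl⟩; exact hv
  · intro h; exact ⟨x, h, rfl⟩

omit [StandardBorelSpace X] [StandardBorelSpace Y] in
theorem ImW_cons (a : Fin q) (s : List (Fin q)) (C : Set X) :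
    M.ImW (a :: s) C = M.Im a (M.ImW s C) := by
  ext v
  simp only [ImW, Im, W, mem_ofPred_eq, Option.bind_eq_some_iff]
  constructor
  · rintro ⟨x, hx, w, h1, h2⟩
    exact ⟨w, ⟨x, hx, h1⟩, M.T_eq_some.1 h2⟩
  · rintro ⟨w, ⟨x, hx, h1⟩, h2⟩
    exact ⟨x, hx, w, h1, M.T_eq_some.2 h2⟩

omit [StandardBorelSpace X] in
theorem meas_Im (a : Fin q) (Z : Set X) (hZ : MeasurableSet Z) : MeasurableSet (M.Im a Z) := by
  have : M.Im a Z = ⋃ i : Fin (q+1), ⋃ j : ℕ, {v | M.m v = some i} ∩
      ({v | (S.sec j (S.y i v)).1 ∈ Z} ∩ ({v | (S.sec j (S.y i v)).2 = M.o a (S.sec j (S.y i v)).1} ∩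
        {v | S.β (S.sec j (S.y i v)) = S.y i v})) := by
    ext v
    simp only [Im, Step, mem_ofPred_eq, mem_iUnion, mem_inter_iff]
    constructor
    · rintro ⟨x, hx, i, h1, h2⟩
      refine ⟨i, S.rk (x, M.o a x), h1, ?_⟩
      have h3 := S.sec_rk (x, M.o a x)
      simp only at h3
      have h4 : S.y i v = S.y (M.o a x) x := h2
      rw [h4, h3]
      exact ⟨hx, rfl, rfl⟩
    · rintro ⟨i, j, h1, h2, h3, h4⟩
      refine ⟨_, h2, i, h1, ?_⟩
      unfold tg
      rw [← h3]
      exact h4.symm
  rw [this]
  refine MeasurableSet.iUnion fun i => MeasurableSet.iUnion fun j => ?_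
  have h1 : Measurable fun v => S.sec j (S.y i v) := (S.sec_meas j).comp (S.hy i)
  exact (M.meas i).inter (((measurable_fst.comp h1) hZ).inter
    ((measurableSet_eq_fun (measurable_snd.comp h1) ((M.meas_o a).comp (measurable_fst.comp h1))).inter
      (measurableSet_eq_fun (S.meas_β.comp h1) (S.hy i))))

omit [StandardBorelSpace X] in
theorem meas_ImW (s : List (Fin q)) (C : Set X) (hC : MeasurableSet C) :
    MeasurableSet (M.ImW s C) := by
  induction s with
  | nil => rw [M.ImW_nil]; exact hC
  | cons a s ih => rw [M.ImW_cons]; exact M.meas_Im a _ ih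

end PM

end C314
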